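import Pool.Agent.N666.TM.Thin

/-! # Multiples of integer parts modulo one -/

set_option autoImplicit false

namespace Pool.Agent.N141.SG

open Finset Filter
open Pool.Agent.H469R2.NK (e norm_e e_add conj_e)
open Pool.Agent.W147.PS (ev_pow)
open Pool.Agent.N666.VE (primes Small small_ints small_primes)
open Pool.Agent.Y961.JR (Fam discJ)

/-- exponential sums of smaller order -/
def SmallTo (s : ℕ → Finset ℕ) (x : ℕ → ℝ) : Prop :=
  ∀ ε : ℝ, 0 < ε → ∀ᶠ N : ℕ in atTop, ‖∑ n ∈ s N, e (x n)‖ ≤ ε * (s N).card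

theorem SmallTo.neg {s : ℕ → Finset ℕ} {x : ℕ → ℝ} (h : SmallTo s x) :
    SmallTo s (fun n => -x n) := by
  intro ε hε
  filter_upwards [h ε hε] with N hN
  have e1 : ∑ n ∈ s N, e (-x n) = (starRingEnd ℂ) (∑ n ∈ s N, e (x n)) := by
    rw [map_sum]
    exact sum_congr rfl fun n _ => (conj_e _).symm
  rw [e1, Complex.norm_conj]
  exact hN

theorem SmallTo.add_const {s : ℕ → Finset ℕ} {x : ℕ → ℝ} (h : SmallTo s x) (b : ℝ) :
    SmallTo s (fun n => x n + b) := by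
  intro ε hε
  filter_upwards [h ε hε] with N hN
  have e1 : ∑ n ∈ s N, e (x n + b) = (∑ n ∈ s N, e (x n)) * e b := by
    rw [sum_mul]
    exact sum_congr rfl fun n _ => e_add _ _
  rw [e1, norm_mul, norm_e, mul_one]
  exact hN

/-- boxes modulo one -/
theorem boxes {s : ℕ → Finset ℕ} {u v : ℕ → ℝ}
    (h : ∀ a b : ℤ, (a ≠ 0 ∨ b ≠ 0) → SmallTo s (fun n => a * u n + b * v n))
    {q : ℕ} (hq : 1 ≤ q) {δ : ℝ} (hδ : 0 < δ) : ∀ᶠ N : ℕ in atTop, ∀ i j : ℤ,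
      (((s N).filter (fun n => (q : ℤ) ∣ ⌊(q : ℝ) * u n⌋ - i ∧ (q : ℤ) ∣ ⌊(q : ℝ) * v n⌋ - j)).card : ℝ) ≤
        (1 / (q : ℝ) ^ 2 + δ) * (s N).card := by
  classical
  have hq0 : (0 : ℝ) < q := by exact_mod_cast hq
  obtain ⟨K, hK⟩ := exists_nat_ge (3 * (q : ℝ) + 1 + 20 * (q : ℝ) ^ 2 / δ)
  have hK0 : (0 : ℝ) < K := lt_of_lt_of_le (by positivity) hK
  have hKn : 1 ≤ K := by exact_mod_cast hK0
  have h3q : 3 * q ≤ K := by
    have : 3 * (q : ℝ) ≤ K := by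
      have : 0 ≤ 20 * (q : ℝ) ^ 2 / δ := by positivity
      linarith
    exact_mod_cast this
  have hKδ : (q : ℝ) ^ 2 * (10 / K) ≤ δ / 2 := by
    have h1 : 20 * (q : ℝ) ^ 2 / δ ≤ K := by
      have : 0 ≤ 3 * (q : ℝ) + 1 := by positivity
      linarith
    rw [div_le_iff₀ hδ] at h1
    rw [← mul_div_assoc, div_le_iff₀ hK0]
    nlinarith
  set E : ℝ := δ / 2 / ((q : ℝ) ^ 2 * (K : ℝ) ^ 6) with hE
  have hE0 : 0 < E := by positivity
  set B : Finset (ℤ × ℤ) := (Finset.Ioo (-((K : ℤ) ^ 3)) ((K : ℤ) ^ 3)) ×ˢ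
    (Finset.Ioo (-((K : ℤ) ^ 3)) ((K : ℤ) ^ 3)) with hB
  have hev : ∀ᶠ N : ℕ in atTop, ∀ p ∈ B, (p.1 ≠ 0 ∨ p.2 ≠ 0) →
      ‖∑ n ∈ s N, e (p.1 * u n + p.2 * v n)‖ ≤ E * (s N).card := by
    rw [Filter.eventually_all_finset]
    intro p _
    by_cases hp : p.1 ≠ 0 ∨ p.2 ≠ 0
    · filter_upwards [h p.1 p.2 hp E hE0] with N hN _
      exact hN
    · exact Eventually.of_forall fun N hp' => absurd hp' hp
  filter_upwards [hev] with N hN i j
  have h1 := discJ (r := 2) (by norm_num) (s N) (fun n => ![(q : ℝ) * u n, (q : ℝ) * v n]) K q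
    hKn hq h3q (E * (s N).card) (by positivity) (by
      intro g hg hgK
      have hmem : ∀ k, g k ∈ Finset.Ioo (-((K : ℤ) ^ 3)) ((K : ℤ) ^ 3) := by
        intro k
        have h2 := hgK k
        rw [Finset.mem_Ioo, ← abs_lt, Int.abs_eq_natAbs]
        exact_mod_cast h2
      have h3 := hN (g 0, g 1) (Finset.mem_product.2 ⟨hmem 0, hmem 1⟩) (by
        by_contra hcon
        push Not at hcon
        apply hg
        funext k
        fin_cases k
        · exact hcon.1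
        · exact hcon.2)
      refine le_trans (le_of_eq ?_) h3
      congr 1
      refine sum_congr rfl fun n _ => ?_
      congr 1
      rw [Fin.sum_univ_two]
      simp only [Matrix.cons_val_zero, Matrix.cons_val_one]
      field_simp) ![i, j]
  have h2 : ((s N).filter (fun n => ∀ k, (q : ℤ) ∣
      ⌊(![(q : ℝ) * u n, (q : ℝ) * v n] : Fin 2 → ℝ) k⌋ - (![i, j] : Fin 2 → ℤ) k)) =
      (s N).filter (fun n => (q : ℤ) ∣ ⌊(q : ℝ) * u n⌋ - i ∧ (q : ℤ) ∣ ⌊(q : ℝ) * v n⌋ - j) := by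
    refine Finset.filter_congr fun n _ => ?_
    rw [Fin.forall_fin_two]
    simp
  rw [h2] at h1
  have h3 := (abs_le.1 h1).2
  have h4 : (q : ℝ) ^ 2 * ((3 * (2 : ℕ) + 4) * (s N).card / K + (K : ℝ) ^ (3 * 2) * (E * (s N).card)) =
      ((q : ℝ) ^ 2 * (10 / K) + (q : ℝ) ^ 2 * (K : ℝ) ^ 6 * E) * (s N).card := by
    push_cast
    norm_num
    ring
  rw [h4] at h3
  have h5 : (q : ℝ) ^ 2 * (K : ℝ) ^ 6 * E = δ / 2 := by
    rw [hE]
    field_simp
  rw [h5] at h3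
  have h6 : ((q : ℝ) ^ 2 * (10 / K) + δ / 2) * (s N).card ≤ δ * (s N).card := by
    refine mul_le_mul_of_nonneg_right (by linarith) (Nat.cast_nonneg _)
  have h7 : (1 / (q : ℝ) ^ 2 + δ) * (s N).card = (s N).card / (q : ℝ) ^ 2 + δ * (s N).card := by ring
  rw [h7]
  linarith

/-- multiples of integer parts in an arc -/
theorem arc {s : ℕ → Finset ℕ} {v : ℕ → ℝ} {α β : ℝ} (hα : 0 < α)
    (h : ∀ a b : ℤ, (a ≠ 0 ∨ b ≠ 0) → SmallTo s (fun n => a * (α * v n + β) + b * v n))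
    {lo hi : ℝ} (hlh : lo ≤ hi) {δ : ℝ} (hδ : 0 < δ) : ∀ᶠ N : ℕ in atTop,
      (((s N : Set ℕ) ∩ {n : ℕ | ∃ z : ℤ, lo ≤ α * ⌊v n⌋ + β - z ∧ α * ⌊v n⌋ + β - z ≤ hi}).ncard : ℝ) ≤
        (hi - lo + δ) * (s N).card := by
  classical
  obtain ⟨q, hq⟩ := exists_nat_ge ((α + 2) / (δ / 2) + 1)
  have hq0 : (0 : ℝ) < q := lt_of_lt_of_le (by positivity) hq
  have hqn : 1 ≤ q := by exact_mod_cast hq0
  have hqi : (0 : ℤ) < q := by exact_mod_cast hqn
  have hqδ : α + 2 ≤ δ / 2 * q := by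
    have : (α + 2) / (δ / 2) ≤ q := by linarith
    rwa [div_le_iff₀ (by positivity), mul_comm] at this
  set ℓ : ℝ := hi - lo + δ / 2 with hℓ
  have hℓ0 : 0 < ℓ := by rw [hℓ]; linarith
  set δ' : ℝ := δ / 2 / ((q : ℝ) ^ 2 * ℓ) with hδ'
  have hδ'0 : 0 < δ' := by positivity
  filter_upwards [boxes h hqn hδ'0] with N hN
  set I : ℕ → Finset ℤ := fun j => Finset.Icc ⌊(q : ℝ) * lo + α * j⌋ ⌊(q : ℝ) * hi + α * (j + 1)⌋ with hI
  have hIc : ∀ j, ((I j).card : ℝ) ≤ q * ℓ := by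
    intro j
    rw [hI]
    simp only [Int.card_Icc]
    have hmono : ⌊(q : ℝ) * lo + α * j⌋ ≤ ⌊(q : ℝ) * hi + α * (j + 1)⌋ := by
      apply Int.floor_le_floor
      nlinarith
    have h1 : ((⌊(q : ℝ) * hi + α * (j + 1)⌋ + 1 - ⌊(q : ℝ) * lo + α * j⌋).toNat : ℝ) =
        ((⌊(q : ℝ) * hi + α * (j + 1)⌋ + 1 - ⌊(q : ℝ) * lo + α * j⌋ : ℤ) : ℝ) := by
      have : (((⌊(q : ℝ) * hi + α * (j + 1)⌋ + 1 - ⌊(q : ℝ) * lo + α * j⌋).toNat : ℤ)) =
        (⌊(q : ℝ) * hi + α * (j + 1)⌋ + 1 - ⌊(q : ℝ) * lo + α * j⌋ : ℤ) :=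
        Int.toNat_of_nonneg (by omega)
      exact_mod_cast congrArg (fun z : ℤ => (z : ℝ)) this
    rw [h1]
    push_cast
    have h2 := Int.floor_le ((q : ℝ) * hi + α * (j + 1))
    have h3 := Int.lt_floor_add_one ((q : ℝ) * lo + α * j)
    rw [hℓ]
    nlinarith
  have hsub : ((s N : Set ℕ) ∩ {n : ℕ | ∃ z : ℤ, lo ≤ α * ⌊v n⌋ + β - z ∧ α * ⌊v n⌋ + β - z ≤ hi}) ⊆
      (((range q).biUnion fun j => (I j).biUnion fun i => (s N).filter (fun n =>
        (q : ℤ) ∣ ⌊(q : ℝ) * (α * v n + β)⌋ - i ∧ (q : ℤ) ∣ ⌊(q : ℝ) * v n⌋ - j) : Finset ℕ) : Set ℕ) := by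
    rintro n ⟨hn, z, hz1, hz2⟩
    rw [Finset.mem_coe] at hn ⊢
    -- the cell of the fractional part
    set θ : ℝ := v n - ⌊v n⌋ with hθ
    have hθ0 : 0 ≤ θ := by rw [hθ]; linarith [Int.floor_le (v n)]
    have hθ1 : θ < 1 := by rw [hθ]; linarith [Int.lt_floor_add_one (v n)]
    set j : ℕ := ⌊(q : ℝ) * θ⌋₊ with hj
    have hqθ0 : 0 ≤ (q : ℝ) * θ := by positivity
    have hj1 : (j : ℝ) ≤ q * θ := Nat.floor_le hqθ0
    have hj2 : q * θ < j + 1 := Nat.lt_floor_add_one _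
    have hjq : j < q := by
      have : (j : ℝ) < q := by nlinarith
      exact_mod_cast this
    have hfl : ⌊(q : ℝ) * v n⌋ = q * ⌊v n⌋ + j := by
      rw [Int.floor_eq_iff]
      push_cast
      have : (q : ℝ) * v n = q * ⌊v n⌋ + q * θ := by rw [hθ]; ring
      rw [this]
      constructor <;> linarith
    set y : ℝ := (q : ℝ) * (α * v n + β) - q * z with hy
    have hy1 : y = q * (α * ⌊v n⌋ + β - z) + α * (q * θ) := by
      rw [hy, hθ]; ring
    have hylo : (q : ℝ) * lo + α * j ≤ y := by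
      rw [hy1]
      have h1 := mul_le_mul_of_nonneg_left hz1 hq0.le
      have h2 := mul_le_mul_of_nonneg_left hj1 hα.le
      linarith
    have hyhi : y ≤ (q : ℝ) * hi + α * (j + 1) := by
      rw [hy1]
      have h1 := mul_le_mul_of_nonneg_left hz2 hq0.le
      have h2 := mul_le_mul_of_nonneg_left hj2.le hα.le
      linarith
    refine Finset.mem_biUnion.2 ⟨j, Finset.mem_range.2 hjq, Finset.mem_biUnion.2 ⟨⌊y⌋, ?_, ?_⟩⟩
    · rw [hI, Finset.mem_Icc]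
      exact ⟨Int.floor_le_floor hylo, Int.floor_le_floor hyhi⟩
    · rw [Finset.mem_filter]
      refine ⟨hn, ?_, ?_⟩
      · have h3 : ⌊(q : ℝ) * (α * v n + β)⌋ = ⌊y⌋ + q * z := by
          have : (q : ℝ) * (α * v n + β) = y + ((q * z : ℤ) : ℝ) := by
            rw [hy]; push_cast; ring
          rw [this, Int.floor_add_intCast]
        rw [h3]
        exact ⟨z, by ring⟩
      · rw [hfl]
        exact ⟨⌊v n⌋, by ring⟩
  have h1 : (((s N : Set ℕ) ∩ {n : ℕ | ∃ z : ℤ, lo ≤ α * ⌊v n⌋ + β - z ∧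
      α * ⌊v n⌋ + β - z ≤ hi}).ncard : ℝ) ≤
      (((range q).biUnion fun j => (I j).biUnion fun i => (s N).filter (fun n =>
        (q : ℤ) ∣ ⌊(q : ℝ) * (α * v n + β)⌋ - i ∧ (q : ℤ) ∣ ⌊(q : ℝ) * v n⌋ - j)).card : ℝ) := by
    have := Set.ncard_le_ncard hsub (Finset.finite_toSet _)
    rw [Set.ncard_coe_finset] at this
    exact_mod_cast this
  refine h1.trans ?_
  have hS : (0 : ℝ) ≤ (s N).card := Nat.cast_nonneg _
  have hD0 : 0 ≤ (1 / (q : ℝ) ^ 2 + δ') * (s N).card := by positivity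
  calc _ ≤ ∑ j ∈ range q, (((I j).biUnion fun i => (s N).filter (fun n =>
        (q : ℤ) ∣ ⌊(q : ℝ) * (α * v n + β)⌋ - i ∧ (q : ℤ) ∣ ⌊(q : ℝ) * v n⌋ - (j : ℤ))).card : ℝ) := by
        exact_mod_cast Finset.card_biUnion_le
    _ ≤ ∑ j ∈ range q, (q * ℓ) * ((1 / (q : ℝ) ^ 2 + δ') * (s N).card) := by
        refine Finset.sum_le_sum fun j _ => ?_
        calc (((I j).biUnion fun i => (s N).filter (fun n =>
              (q : ℤ) ∣ ⌊(q : ℝ) * (α * v n + β)⌋ - i ∧ (q : ℤ) ∣ ⌊(q : ℝ) * v n⌋ - (j : ℤ))).card : ℝ)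
            ≤ ∑ i ∈ I j, (((s N).filter (fun n =>
              (q : ℤ) ∣ ⌊(q : ℝ) * (α * v n + β)⌋ - i ∧ (q : ℤ) ∣ ⌊(q : ℝ) * v n⌋ - (j : ℤ))).card : ℝ) := by
              exact_mod_cast Finset.card_biUnion_le
          _ ≤ ∑ i ∈ I j, ((1 / (q : ℝ) ^ 2 + δ') * (s N).card) :=
              Finset.sum_le_sum fun i _ => hN i j
          _ = (I j).card * ((1 / (q : ℝ) ^ 2 + δ') * (s N).card) := by
              rw [Finset.sum_const, nsmul_eq_mul]
          _ ≤ _ := mul_le_mul_of_nonneg_right (hIc j) hD0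
    _ = (ℓ + (q : ℝ) ^ 2 * ℓ * δ') * (s N).card := by
        rw [Finset.sum_const, Finset.card_range, nsmul_eq_mul]
        field_simp
    _ = (hi - lo + δ) * (s N).card := by
        have h5 : (q : ℝ) ^ 2 * ℓ * δ' = δ / 2 := by
          rw [hδ']
          field_simp
        rw [h5, hℓ]
        ring

/-- an exponential sum with power saving is small -/
theorem smallTo_of {s : ℕ → Finset ℕ} {x : ℕ → ℝ} {η : ℝ} (hη : 0 < η)
    (h : ∀ᶠ N : ℕ in atTop, ‖∑ n ∈ s N, e (x n)‖ ≤ (N : ℝ) ^ (1 - η))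
    (hs : ∀ᶠ N : ℕ in atTop, (N : ℝ) ^ (1 - η / 2) ≤ (s N).card) : SmallTo s x := by
  intro ε hε
  have h1 := ev_pow (1 - η) (1 - η / 2) (1 / ε) (by linarith)
  have h2 := tendsto_natCast_atTop_atTop.eventually h1
  filter_upwards [h, hs, h2] with N k1 k2 k3
  refine k1.trans ?_
  have k4 : (N : ℝ) ^ (1 - η) = ε * (1 / ε * (N : ℝ) ^ (1 - η)) := by
    field_simp
  rw [k4]
  exact mul_le_mul_of_nonneg_left (k3.trans k2) hε.le

/-- the conditions on a generalised polynomial -/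
def Adm1 (F : Finset ℝ) (a : ℝ → ℝ) (c : ℝ) : Prop :=
  c ∈ F ∧ (∀ x ∈ F, x ≤ c) ∧ 0 < c ∧ (∀ m : ℕ, c ≠ m) ∧ 0 < a c

/-- its values -/
noncomputable def gp (F : Finset ℝ) (a : ℝ → ℝ) (n : ℕ) : ℝ := ∑ x ∈ F, a x * (n : ℝ) ^ x

theorem gp_small_pos {F : Finset ℝ} {a : ℝ → ℝ} {c : ℝ} (h : Adm1 F a c) {γ : ℝ} (hγ : 0 < γ) :
    SmallTo (fun N => Ioc N (2 * N)) (fun n => γ * gp F a n) ∧
      SmallTo primes (fun n => γ * gp F a n) := by
  have H : Fam (r := 1) (fun _ => F) (fun _ x => γ * a x) (fun _ => c) :=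
    ⟨fun _ => h.1, fun _ => h.2.1, fun _ => mul_pos hγ h.2.2.2.2, fun _ => h.2.2.1,
      fun _ => h.2.2.2.1, fun i j _ => Subsingleton.elim i j⟩
  have hval : ∀ n : ℕ, ∑ j : Fin 1, (((1 : Fin 1 → ℤ) j : ℤ) : ℝ) *
      (Pool.Agent.N666.VE.val (fun _ => F) (fun _ x => γ * a x) n j / ((1 : ℕ) : ℝ)) = γ * gp F a n := by
    intro n
    rw [Fin.sum_univ_one]
    unfold Pool.Agent.N666.VE.val gp
    rw [mul_sum]
    simp only [Pi.one_apply, Int.cast_one, one_mul, Nat.cast_one, div_one]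
    exact sum_congr rfl fun x _ => by ring
  have key : ∀ s : ℕ → Finset ℕ, Small (r := 1) s (Pool.Agent.N666.VE.val (fun _ => F) (fun _ x => γ * a x)) →
      (∀ η : ℝ, 0 < η → ∀ᶠ N : ℕ in atTop, (N : ℝ) ^ (1 - η) ≤ (s N).card) →
      SmallTo s (fun n => γ * gp F a n) := by
    rintro s ⟨η, hη, -, N₀, hN₀⟩ hs
    refine smallTo_of hη ?_ (hs (η / 2) (by positivity))
    filter_upwards [eventually_ge_atTop (max N₀ 1)] with N hN
    have hN1 : 1 ≤ N := (le_max_right _ _).trans hN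
    have hp : (1 : ℝ) ≤ (N : ℝ) ^ η := Real.one_le_rpow (by exact_mod_cast hN1) hη.le
    have h1 := hN₀ N ((le_max_left _ _).trans hN) 1 one_ne_zero (fun j => by simpa using hp) 1 le_rfl
      (by simpa using hp)
    rw [sum_congr rfl fun n _ => by rw [hval n]] at h1
    exact h1
  refine ⟨key _ (small_ints le_rfl H) fun η hη => ?_, key _ (small_primes le_rfl H) fun η hη => ?_⟩
  · filter_upwards [eventually_ge_atTop 1] with N hN
    have hN1 : (1 : ℝ) ≤ N := by exact_mod_cast hN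
    rw [Nat.card_Ioc, show 2 * N - N = N by omega]
    calc (N : ℝ) ^ (1 - η) ≤ (N : ℝ) ^ (1 : ℝ) :=
          Real.rpow_le_rpow_of_exponent_le hN1 (by linarith)
      _ = N := Real.rpow_one _
  · have h1 := Pool.Agent.N666.VE.card_primes' (4 * η) (by positivity)
    filter_upwards [h1] with N hN
    refine le_trans (le_of_eq ?_) hN
    congr 1
    ring

theorem gp_small {F : Finset ℝ} {a : ℝ → ℝ} {c : ℝ} (h : Adm1 F a c) {γ : ℝ} (hγ : γ ≠ 0) :
    SmallTo (fun N => Ioc N (2 * N)) (fun n => γ * gp F a n) ∧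
      SmallTo primes (fun n => γ * gp F a n) := by
  rcases lt_or_gt_of_ne hγ with h1 | h1
  · obtain ⟨h2, h3⟩ := gp_small_pos h (show 0 < -γ by linarith)
    have e : (fun n => γ * gp F a n) = fun n => -(-γ * gp F a n) := by
      funext n
      ring
    rw [e]
    exact ⟨h2.neg, h3.neg⟩
  · exact gp_small_pos h h1

/-- **multiples of the integer parts of generalised polynomials in arcs**, integers and primes -/
theorem gp_arc {F : Finset ℝ} {a : ℝ → ℝ} {c : ℝ} (h : Adm1 F a c) {α : ℝ} (hα : 0 < α)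
    (hirr : Irrational α) (β : ℝ) {lo hi : ℝ} (hlh : lo ≤ hi) {δ : ℝ} (hδ : 0 < δ) :
    ∀ᶠ N : ℕ in atTop,
      ({n : ℕ | n ∈ Ioc N (2 * N) ∧ ∃ z : ℤ, lo ≤ α * ⌊gp F a n⌋ + β - z ∧
        α * ⌊gp F a n⌋ + β - z ≤ hi}.ncard : ℝ) ≤ (hi - lo + δ) * (Ioc N (2 * N)).card ∧
      ({n : ℕ | n ∈ (Ioc N (2 * N)).filter Nat.Prime ∧ ∃ z : ℤ, lo ≤ α * ⌊gp F a n⌋ + β - z ∧
        α * ⌊gp F a n⌋ + β - z ≤ hi}.ncard : ℝ) ≤
          (hi - lo + δ) * ((Ioc N (2 * N)).filter Nat.Prime).card := by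
  have hS : ∀ x y : ℤ, (x ≠ 0 ∨ y ≠ 0) →
      SmallTo (fun N => Ioc N (2 * N)) (fun n => x * (α * gp F a n + β) + y * gp F a n) ∧
      SmallTo primes (fun n => x * (α * gp F a n + β) + y * gp F a n) := by
    intro x y hxy
    have hne : (x : ℝ) * α + y ≠ 0 := by
      rcases eq_or_ne x 0 with hx | hx
      · subst hx
        have hy : y ≠ 0 := by
          rcases hxy with h1 | h1
          · exact absurd rfl h1
          · exact h1
        simp only [Int.cast_zero, zero_mul, zero_add]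
        exact_mod_cast hy
      · exact ((hirr.intCast_mul hx).add_intCast y).ne_zero
    obtain ⟨h1, h2⟩ := gp_small h hne
    have e : (fun n => (x : ℝ) * (α * gp F a n + β) + y * gp F a n) =
        fun n => ((x : ℝ) * α + y) * gp F a n + x * β := by
      funext n
      ring
    rw [e]
    exact ⟨h1.add_const _, h2.add_const _⟩
  filter_upwards [arc hα (fun x y hxy => (hS x y hxy).1) hlh hδ,
    arc hα (fun x y hxy => (hS x y hxy).2) hlh hδ] with N h1 h2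
  exact ⟨h1, h2⟩

end Pool.Agent.N141.SG
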