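import Pool.Agent.N141.SG.Seq7

/-! # Degrees for which no multiplicity is in a window -/

set_option autoImplicit false

namespace Pool.Agent.N141.SG

open Finset Filter
open Pool.Agent.H469R2.NK (e norm_e e_add)
open Pool.Agent.Results.MP_d03834_ag.EffectiveEveryField (Open generic)

/-! ## unions of boxes -/

theorem boxes_good {r : ℕ} (hr : 1 ≤ r) {s : ℕ → Finset ℕ} {x : ℕ → Fin r → ℝ}
    (h : ∀ g : Fin r → ℤ, g ≠ 0 → SmallTo s (fun n => ∑ j, (g j : ℝ) * x n j))
    {q : ℕ} (hq : 1 ≤ q) (G : Fin r → Finset ℤ) (hG : ∀ j, ∀ c ∈ G j, 0 ≤ c ∧ c < q)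
    {δ : ℝ} (hδ : 0 < δ) : ∀ᶠ N : ℕ in atTop,
      ((∏ j, (G j).card : ℕ) : ℝ) * (1 / (q : ℝ) ^ r - δ) * (s N).card ≤
        ({n : ℕ | n ∈ s N ∧ ∀ j, ∃ c ∈ G j, (q : ℤ) ∣ ⌊(q : ℝ) * x n j⌋ - c}.ncard : ℝ) := by
  classical
  filter_upwards [boxesR hr h hq hδ] with N hN
  have hdis : ∀ ρ ∈ Fintype.piFinset G, ∀ ρ' ∈ Fintype.piFinset G, ρ ≠ ρ' →
      Disjoint ((s N).filter (fun n => ∀ j, (q : ℤ) ∣ ⌊(q : ℝ) * x n j⌋ - ρ j))
        ((s N).filter (fun n => ∀ j, (q : ℤ) ∣ ⌊(q : ℝ) * x n j⌋ - ρ' j)) := by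
    intro ρ hρ ρ' hρ' hne
    rw [Finset.disjoint_left]
    intro n hn hn'
    rw [Finset.mem_filter] at hn hn'
    apply hne
    funext j
    have h1 := hG j _ (Fintype.mem_piFinset.1 hρ j)
    have h2 := hG j _ (Fintype.mem_piFinset.1 hρ' j)
    have h3 : (q : ℤ) ∣ ρ' j - ρ j := by
      have := dvd_sub (hn.2 j) (hn'.2 j)
      have e1 : ⌊(q : ℝ) * x n j⌋ - ρ j - (⌊(q : ℝ) * x n j⌋ - ρ' j) = ρ' j - ρ j := by ring
      rwa [e1] at this
    have h4 : |ρ' j - ρ j| < q := by
      rw [abs_lt]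
      constructor <;> omega
    have h5 := Int.eq_zero_of_abs_lt_dvd h3 h4
    omega
  have h1 : ((Fintype.piFinset G).biUnion fun ρ =>
      (s N).filter (fun n => ∀ j, (q : ℤ) ∣ ⌊(q : ℝ) * x n j⌋ - ρ j)).card =
      ∑ ρ ∈ Fintype.piFinset G,
        ((s N).filter (fun n => ∀ j, (q : ℤ) ∣ ⌊(q : ℝ) * x n j⌋ - ρ j)).card :=
    Finset.card_biUnion hdis
  have h2 : (((Fintype.piFinset G).biUnion fun ρ =>
      (s N).filter (fun n => ∀ j, (q : ℤ) ∣ ⌊(q : ℝ) * x n j⌋ - ρ j) : Finset ℕ) : Set ℕ) ⊆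
      {n : ℕ | n ∈ s N ∧ ∀ j, ∃ c ∈ G j, (q : ℤ) ∣ ⌊(q : ℝ) * x n j⌋ - c} := by
    intro n hn
    rw [Finset.mem_coe, Finset.mem_biUnion] at hn
    obtain ⟨ρ, hρ, hn⟩ := hn
    rw [Finset.mem_filter] at hn
    exact ⟨hn.1, fun j => ⟨ρ j, Fintype.mem_piFinset.1 hρ j, hn.2 j⟩⟩
  have h3 := Set.ncard_le_ncard h2 ((Finset.finite_toSet (s N)).subset fun n hn => hn.1)
  rw [Set.ncard_coe_finset, h1] at h3
  have h4 : (∑ ρ ∈ Fintype.piFinset G, (1 / (q : ℝ) ^ r - δ) * (s N).card) ≤
      ((∑ ρ ∈ Fintype.piFinset G,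
        ((s N).filter (fun n => ∀ j, (q : ℤ) ∣ ⌊(q : ℝ) * x n j⌋ - ρ j)).card : ℕ) : ℝ) := by
    push_cast
    exact Finset.sum_le_sum fun ρ _ => hN ρ
  rw [Finset.sum_const, Fintype.card_piFinset, nsmul_eq_mul] at h4
  refine le_trans (le_of_eq (by ring)) (h4.trans ?_)
  exact_mod_cast h3

/-! ## one window -/

theorem avoid {k : ℕ} (hk : 0 < k) {a b c : ℤ} (ha : 0 ≤ a) (hb : b < 200)
    (hc0 : 0 ≤ c) (hcq : c < 200)
    (hgood : ∀ i ∈ Finset.range k, (k : ℤ) * (c + 1) ≤ 200 * i + a ∨ 200 * i + b ≤ (k : ℤ) * c)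
    {y : ℝ} {z : ℤ} (h1 : (c : ℝ) ≤ 200 * (y - z)) (h2 : 200 * (y - z) < c + 1) {m : ℤ}
    (h3 : 200 * (m : ℝ) + a ≤ 200 * (k * y)) (h4 : 200 * (k * y) < 200 * m + b) : False := by
  have hk0 : (0 : ℝ) ≤ k := Nat.cast_nonneg k
  have hkr : (0 : ℝ) < k := by exact_mod_cast hk
  have h5 := mul_le_mul_of_nonneg_left h1 hk0
  have h6 := mul_lt_mul_of_pos_left h2 hkr
  have h7 : ((200 * (m - k * z) + a : ℤ) : ℝ) < ((k * (c + 1) : ℤ) : ℝ) := by
    push_cast
    linarith
  have h8 : ((k * c : ℤ) : ℝ) < ((200 * (m - k * z) + b : ℤ) : ℝ) := by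
    push_cast
    linarith
  have h7' : 200 * (m - k * z) + a < k * (c + 1) := by exact_mod_cast h7
  have h8' : k * c < 200 * (m - k * z) + b := by exact_mod_cast h8
  have hkc : 0 ≤ (k : ℤ) * c := by positivity
  have hkc' : (k : ℤ) * (c + 1) ≤ k * 200 := mul_le_mul_of_nonneg_left (by omega) (by positivity)
  have hi0 : 0 ≤ m - k * z := by
    by_contra hcon
    push Not at hcon
    omega
  have hik : m - k * z < k := by omega
  obtain ⟨i, hi⟩ := Int.eq_ofNat_of_zero_le hi0
  rw [hi] at h7' h8' hik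
  rcases hgood i (Finset.mem_range.2 (by omega)) with h9 | h9
  · omega
  · omega

/-- the denominators -/
def den (j : Fin 21) : ℕ :=
  ![1, 24, 18, 10, 12, 14, 10, 11, 14, 15, 17, 19, 22, 23, 26, 29, 30, 31, 33, 34, 35] j

/-- the windows: number of points, multiple, ends in units of one two-hundredth -/
def wins (j : Fin 21) : List (ℕ × ℕ × ℤ × ℤ) :=
  (![[], [(18, 4, 71, 118), (32, 3, 81, 113)], [(12, 3, 86, 114), (27, 2, 78, 114)],
    [(20, 1, 73, 117)], [(24, 1, 77, 115)], [(28, 1, 79, 114)], [(10, 1, 94, 106)],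
    [(11, 1, 90, 100)], [(14, 1, 80, 120)], [(15, 1, 77, 100)], [(17, 1, 72, 118)],
    [(19, 1, 72, 117)], [(22, 1, 75, 116)], [(23, 1, 76, 115)], [(26, 1, 78, 115)],
    [(29, 1, 79, 114)], [(30, 1, 80, 114)], [(31, 1, 80, 113)], [(33, 1, 81, 113)],
    [(34, 1, 81, 113)], [(35, 1, 82, 112)]] : Fin 21 → List (ℕ × ℕ × ℤ × ℤ)) j

/-- the good cells -/
def cells (j : Fin 21) : Finset ℕ := (Finset.range 200).filter fun c =>
  ∀ w ∈ wins j, ∀ i ∈ Finset.range w.2.1, (w.2.1 : ℤ) * ((c : ℤ) + 1) ≤ 200 * (i : ℤ) + w.2.2.1 ∨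
    200 * (i : ℤ) + w.2.2.2 ≤ (w.2.1 : ℤ) * (c : ℤ)

/-- the coordinate of a degree -/
noncomputable def yc (d : ℕ) (j : Fin 21) : ℝ := ((d : ℝ) + 3 / 2) * (√(rad j : ℝ) / den j)

/-- the target for a degree -/
def DTgt (d : ℕ) : Prop := ∀ j : Fin 20, ∃ c ∈ cells j.succ,
  (200 : ℤ) ∣ ⌊(200 : ℝ) * yc d j.succ⌋ - (c : ℤ)

theorem cell_of_dvd {y : ℝ} {c : ℤ} (h : (200 : ℤ) ∣ ⌊(200 : ℝ) * y⌋ - c) : ∃ z : ℤ,
    (c : ℝ) ≤ 200 * (y - z) ∧ 200 * (y - z) < c + 1 := by
  obtain ⟨z, hz⟩ := h
  have h1 : ⌊(200 : ℝ) * y⌋ = 200 * z + c := by linarith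
  have h2 := Int.floor_le ((200 : ℝ) * y)
  have h3 := Int.lt_floor_add_one ((200 : ℝ) * y)
  rw [h1] at h2 h3
  push_cast at h2 h3
  exact ⟨z, by linarith, by linarith⟩

theorem not_open_deg {d : ℕ} (h : DTgt d) {n m : ℕ} (j : Fin 21) (hj : j ≠ 0) (k s : ℕ)
    {a b : ℤ} (hw : (n, k, a, b) ∈ wins j) (ha : 0 ≤ a) (hb : b < 200)
    (hn : n = rad j * s ^ 2) (hs : 0 < s) (hr : 0 < rad j) (hks : den j = k * (rad j * s))
    (hk : 0 < k)
    (h3 : √(n : ℝ) * (2 * m + 1) - √(n : ℝ) * (1 - 2 * a / 200) ≤ 2 * (d : ℝ) + 3)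
    (h4 : 2 * (d : ℝ) + 3 < √(n : ℝ) * (2 * m + 1) + √(n : ℝ) * (2 * b / 200 - 1)) : False := by
  obtain ⟨i, rfl⟩ := Fin.exists_succ_eq.2 hj
  obtain ⟨c, hc, hdv⟩ := h i
  rw [cells, Finset.mem_filter, Finset.mem_range] at hc
  obtain ⟨z, h1, h2⟩ := cell_of_dvd hdv
  have hr0 : (0 : ℝ) < √(rad i.succ : ℝ) := Real.sqrt_pos.2 (by exact_mod_cast hr)
  have hrr : √(rad i.succ : ℝ) * √(rad i.succ : ℝ) = rad i.succ :=
    Real.mul_self_sqrt (Nat.cast_nonneg _)
  have hsr : (0 : ℝ) < s := by exact_mod_cast hs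
  have hkr : (0 : ℝ) < k := by exact_mod_cast hk
  have hrr0 : (0 : ℝ) < rad i.succ := by exact_mod_cast hr
  have hsq : √(n : ℝ) = √(rad i.succ : ℝ) * s := by
    rw [hn]
    push_cast
    rw [Real.sqrt_mul (Nat.cast_nonneg _), Real.sqrt_sq (Nat.cast_nonneg _)]
  have hn0 : 0 < √(n : ℝ) := by rw [hsq]; positivity
  have hu : √(n : ℝ) * (2 * (k * yc d i.succ)) = 2 * (d : ℝ) + 3 := by
    unfold yc
    rw [hks, hsq]
    push_cast
    have e1 : √(rad i.succ : ℝ) * s * (2 * (k * ((d + 3 / 2) * (√(rad i.succ : ℝ) /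
        (k * (rad i.succ * s)))))) = (√(rad i.succ : ℝ) * √(rad i.succ : ℝ)) *
          (2 * (d + 3 / 2)) / rad i.succ := by
      field_simp
    rw [e1, hrr]
    field_simp
  rw [← hu] at h3 h4
  refine avoid (k := k) hk (a := a) (b := b) (c := c) ha hb (by positivity) (by exact_mod_cast hc.1)
    (fun t ht => hc.2 _ hw t ht) h1 h2 (m := m) ?_ ?_
  · have h5 : √(n : ℝ) * (2 * m + 2 * a / 200) ≤ √(n : ℝ) * (2 * (k * yc d i.succ)) := by
      linarith
    have h6 := le_of_mul_le_mul_left h5 hn0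
    push_cast
    linarith
  · have h5 : √(n : ℝ) * (2 * (k * yc d i.succ)) < √(n : ℝ) * (2 * m + 2 * b / 200) := by
      linarith
    have h6 := lt_of_mul_lt_mul_left h5 hn0.le
    push_cast
    linarith

/-- a window with bounds for the ends -/
theorem not_open_win {d : ℕ} (h : DTgt d) {n m : ℕ} (j : Fin 21) (hj : j ≠ 0) (k s : ℕ)
    {a b : ℤ} (hw : (n, k, a, b) ∈ wins j) (ha : 0 ≤ a) (hb : b < 200)
    (hn : n = rad j * s ^ 2) (hs : 0 < s) (hr : 0 < rad j) (hks : den j = k * (rad j * s))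
    (hk : 0 < k) (S : ℝ) (hS0 : 0 < S) (hS : (n : ℝ) ≤ S ^ 2)
    (hA : S * (2 * a) ≤ 600 ∨ (2 / 3) * S + 9 / 4 ≤ n * (1 - 2 * a / 200))
    (hB : S * (400 - 2 * b) < 600 ∨ (2 / 3) * S + 1 / 4 < n * (2 * b / 200 - 1))
    (ho : Open n m d) : False := by
  obtain ⟨-, h3, h4, -⟩ := ho
  have hSn : √(n : ℝ) ≤ S := by
    rw [Real.sqrt_le_left hS0.le]
    exact hS
  have hn0 : 0 < √(n : ℝ) := by
    apply Real.sqrt_pos.2
    have : 0 < n := by
      rw [hn]
      positivity
    exact_mod_cast this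
  have hnn : √(n : ℝ) * √(n : ℝ) = n := Real.mul_self_sqrt (Nat.cast_nonneg _)
  have ha' : (0 : ℝ) ≤ a := by exact_mod_cast ha
  have hb' : (b : ℝ) < 200 := by exact_mod_cast hb
  refine not_open_deg h j hj k s hw ha hb hn hs hr hks hk (m := m) ?_ ?_
  · refine le_trans ?_ h3
    have h5 : min (√(n : ℝ) - 3) (2 / 3 + 9 / (4 * √(n : ℝ))) ≤ √(n : ℝ) * (1 - 2 * a / 200) := by
      rcases hA with hA | hA
      · refine (min_le_left _ _).trans ?_
        have := mul_le_mul_of_nonneg_right hSn (by positivity : (0 : ℝ) ≤ 2 * a)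
        linarith
      · refine (min_le_right _ _).trans ?_
        have e1 : 2 / 3 + 9 / (4 * √(n : ℝ)) = ((2 / 3) * √(n : ℝ) + 9 / 4) / √(n : ℝ) := by
          field_simp
        rw [e1, div_le_iff₀ hn0]
        have e2 : √(n : ℝ) * (1 - 2 * a / 200) * √(n : ℝ) = n * (1 - 2 * a / 200) := by
          linear_combination (1 - 2 * (a : ℝ) / 200) * hnn
        rw [e2]
        linarith
    linarith
  · refine lt_of_le_of_lt h4 ?_
    have h5 : min (√(n : ℝ) - 3) (2 / 3 + 1 / (4 * √(n : ℝ))) < √(n : ℝ) * (2 * b / 200 - 1) := by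
      rcases hB with hB | hB
      · refine lt_of_le_of_lt (min_le_left _ _) ?_
        have := mul_le_mul_of_nonneg_right hSn (by linarith : (0 : ℝ) ≤ 400 - 2 * b)
        linarith
      · refine lt_of_le_of_lt (min_le_right _ _) ?_
        have e1 : 2 / 3 + 1 / (4 * √(n : ℝ)) = ((2 / 3) * √(n : ℝ) + 1 / 4) / √(n : ℝ) := by
          field_simp
        rw [e1, div_lt_iff₀ hn0]
        have e2 : √(n : ℝ) * (2 * b / 200 - 1) * √(n : ℝ) = n * (2 * b / 200 - 1) := by
          linear_combination (2 * (b : ℝ) / 200 - 1) * hnn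
        rw [e2]
        linarith
    linarith

/-- the windows of eleven and fifteen points -/
theorem not_open_half {d : ℕ} (h : DTgt d) {n m : ℕ} (j : Fin 21) (hj : j ≠ 0) (k s : ℕ)
    {a : ℤ} (hw : (n, k, a, 100) ∈ wins j) (ha : 0 ≤ a)
    (hn : n = rad j * s ^ 2) (hs : 0 < s) (hr : 0 < rad j) (hks : den j = k * (rad j * s))
    (hk : 0 < k) (S : ℝ) (hS0 : 0 < S) (hS : (n : ℝ) ≤ S ^ 2)
    (hA : S * (2 * a) ≤ 600) (h11 : n = 11 ∨ n = 15) (ho : Open n m d) : False := by
  obtain ⟨-, -, -, h3⟩ := ho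
  obtain ⟨-, h4, h5⟩ := h3 h11
  have hSn : √(n : ℝ) ≤ S := by
    rw [Real.sqrt_le_left hS0.le]
    exact hS
  have ha' : (0 : ℝ) ≤ a := by exact_mod_cast ha
  refine not_open_deg h j hj k s hw ha (by norm_num) hn hs hr hks hk (m := m) ?_ ?_
  · have := mul_le_mul_of_nonneg_right hSn (by positivity : (0 : ℝ) ≤ 2 * a)
    linarith
  · push_cast
    linarith

/-- no degree of the target is in a window -/
theorem not_open_all {d : ℕ} (h : DTgt d) {n m : ℕ} (hn : 10 ≤ n) : ¬ Open n m d := by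
  intro ho
  have h1 := ho.1
  push Not at h1
  obtain ⟨h37, h13, h21, hsq⟩ := h1
  interval_cases n
  · exact not_open_win h 6 (by decide) 1 1 (a := 94) (b := 106) (by decide) (by norm_num)
      (by norm_num) (by decide) (by norm_num) (by decide) (by decide) (by norm_num) 3.1623
      (by norm_num) (by norm_num) (by norm_num) (by norm_num) ho
  · exact not_open_half h 7 (by decide) 1 1 (a := 90) (by decide) (by norm_num)
      (by decide) (by norm_num) (by decide) (by decide) (by norm_num) 3.3167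
      (by norm_num) (by norm_num) (by norm_num) (by norm_num) ho
  · exact not_open_win h 2 (by decide) 3 2 (a := 86) (b := 114) (by decide) (by norm_num)
      (by norm_num) (by decide) (by norm_num) (by decide) (by decide) (by norm_num) 3.4642
      (by norm_num) (by norm_num) (by norm_num) (by norm_num) ho
  · exact h13 rfl
  · exact not_open_win h 8 (by decide) 1 1 (a := 80) (b := 120) (by decide) (by norm_num)
      (by norm_num) (by decide) (by norm_num) (by decide) (by decide) (by norm_num) 3.7417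
      (by norm_num) (by norm_num) (by norm_num) (by norm_num) ho
  · exact not_open_half h 9 (by decide) 1 1 (a := 77) (by decide) (by norm_num)
      (by decide) (by norm_num) (by decide) (by decide) (by norm_num) 3.873
      (by norm_num) (by norm_num) (by norm_num) (by norm_num) ho
  · exact hsq ⟨4, rfl⟩
  · exact not_open_win h 10 (by decide) 1 1 (a := 72) (b := 118) (by decide) (by norm_num)
      (by norm_num) (by decide) (by norm_num) (by decide) (by decide) (by norm_num) 4.1232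
      (by norm_num) (by norm_num) (by norm_num) (by norm_num) ho
  · exact not_open_win h 1 (by decide) 4 3 (a := 71) (b := 118) (by decide) (by norm_num)
      (by norm_num) (by decide) (by norm_num) (by decide) (by decide) (by norm_num) 4.2427
      (by norm_num) (by norm_num) (by norm_num) (by norm_num) ho
  · exact not_open_win h 11 (by decide) 1 1 (a := 72) (b := 117) (by decide) (by norm_num)
      (by norm_num) (by decide) (by norm_num) (by decide) (by decide) (by norm_num) 4.359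
      (by norm_num) (by norm_num) (by norm_num) (by norm_num) ho
  · exact not_open_win h 3 (by decide) 1 2 (a := 73) (b := 117) (by decide) (by norm_num)
      (by norm_num) (by decide) (by norm_num) (by decide) (by decide) (by norm_num) 4.4722
      (by norm_num) (by norm_num) (by norm_num) (by norm_num) ho
  · exact h21 rfl
  · exact not_open_win h 12 (by decide) 1 1 (a := 75) (b := 116) (by decide) (by norm_num)
      (by norm_num) (by decide) (by norm_num) (by decide) (by decide) (by norm_num) 4.6905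
      (by norm_num) (by norm_num) (by norm_num) (by norm_num) ho
  · exact not_open_win h 13 (by decide) 1 1 (a := 76) (b := 115) (by decide) (by norm_num)
      (by norm_num) (by decide) (by norm_num) (by decide) (by decide) (by norm_num) 4.7959
      (by norm_num) (by norm_num) (by norm_num) (by norm_num) ho
  · exact not_open_win h 4 (by decide) 1 2 (a := 77) (b := 115) (by decide) (by norm_num)
      (by norm_num) (by decide) (by norm_num) (by decide) (by decide) (by norm_num) 4.899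
      (by norm_num) (by norm_num) (by norm_num) (by norm_num) ho
  · exact hsq ⟨5, rfl⟩
  · exact not_open_win h 14 (by decide) 1 1 (a := 78) (b := 115) (by decide) (by norm_num)
      (by norm_num) (by decide) (by norm_num) (by decide) (by decide) (by norm_num) 5.0991
      (by norm_num) (by norm_num) (by norm_num) (by norm_num) ho
  · exact not_open_win h 2 (by decide) 2 3 (a := 78) (b := 114) (by decide) (by norm_num)
      (by norm_num) (by decide) (by norm_num) (by decide) (by decide) (by norm_num) 5.1962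
      (by norm_num) (by norm_num) (by norm_num) (by norm_num) ho
  · exact not_open_win h 5 (by decide) 1 2 (a := 79) (b := 114) (by decide) (by norm_num)
      (by norm_num) (by decide) (by norm_num) (by decide) (by decide) (by norm_num) 5.2916
      (by norm_num) (by norm_num) (by norm_num) (by norm_num) ho
  · exact not_open_win h 15 (by decide) 1 1 (a := 79) (b := 114) (by decide) (by norm_num)
      (by norm_num) (by decide) (by norm_num) (by decide) (by decide) (by norm_num) 5.3852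
      (by norm_num) (by norm_num) (by norm_num) (by norm_num) ho
  · exact not_open_win h 16 (by decide) 1 1 (a := 80) (b := 114) (by decide) (by norm_num)
      (by norm_num) (by decide) (by norm_num) (by decide) (by decide) (by norm_num) 5.4773
      (by norm_num) (by norm_num) (by norm_num) (by norm_num) ho
  · exact not_open_win h 17 (by decide) 1 1 (a := 80) (b := 113) (by decide) (by norm_num)
      (by norm_num) (by decide) (by norm_num) (by decide) (by decide) (by norm_num) 5.5678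
      (by norm_num) (by norm_num) (by norm_num) (by norm_num) ho
  · exact not_open_win h 1 (by decide) 3 4 (a := 81) (b := 113) (by decide) (by norm_num)
      (by norm_num) (by decide) (by norm_num) (by decide) (by decide) (by norm_num) 5.6569
      (by norm_num) (by norm_num) (by norm_num) (by norm_num) ho
  · exact not_open_win h 18 (by decide) 1 1 (a := 81) (b := 113) (by decide) (by norm_num)
      (by norm_num) (by decide) (by norm_num) (by decide) (by decide) (by norm_num) 5.7446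
      (by norm_num) (by norm_num) (by norm_num) (by norm_num) ho
  · exact not_open_win h 19 (by decide) 1 1 (a := 81) (b := 113) (by decide) (by norm_num)
      (by norm_num) (by decide) (by norm_num) (by decide) (by decide) (by norm_num) 5.831
      (by norm_num) (by norm_num) (by norm_num) (by norm_num) ho
  · exact not_open_win h 20 (by decide) 1 1 (a := 82) (b := 112) (by decide) (by norm_num)
      (by norm_num) (by decide) (by norm_num) (by decide) (by decide) (by norm_num) 5.9161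
      (by norm_num) (by norm_num) (by norm_num) (by norm_num) ho
  · exact hsq ⟨6, rfl⟩

end Pool.Agent.N141.SG
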