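import Pool.Agent.N141.SG.Deg

/-! # A positive proportion of the degrees: all numbers of points and all multiplicities -/

set_option autoImplicit false

namespace Pool.Agent.N141.SG

open Finset Filter
open Pool.Agent.H469R2.NK (e norm_e e_add)
open Pool.Agent.Results.MP_d03834_ag.EffectiveEveryField (Open generic)

theorem rad_indepQ {g : Fin 21 → ℚ} (h : ∑ j, (g j : ℝ) * √(rad j : ℝ) = 0) : g = 0 := by
  have h1 : LinearIndependent ℚ (fun j : Fin 21 => √(rad j : ℝ)) :=
    Pool.Agent.H383.Gauss.sf_indep.comp (fun j : Fin 21 => ⟨rad j, rad_squarefree j⟩)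
      (fun i j hij => rad_injective (congrArg Subtype.val hij))
  rw [Fintype.linearIndependent_iff] at h1
  funext j
  exact h1 g (by
    rw [← h]
    refine sum_congr rfl fun j _ => ?_
    rw [Rat.smul_def]) j

theorem den_pos (j : Fin 21) : 0 < den j := by
  fin_cases j <;> decide

theorem irr_deg {g : Fin 20 → ℤ} (hg : g ≠ 0) :
    Irrational (∑ j : Fin 20, (g j : ℝ) * (√(rad j.succ : ℝ) / den j.succ)) := by
  rintro ⟨x, hx⟩
  apply hg
  have h2 := rad_indepQ (g := Fin.cons (-x) (fun j => (g j : ℚ) / den j.succ)) (by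
    rw [Fin.sum_univ_succ]
    simp only [Fin.cons_zero, Fin.cons_succ]
    have h3 : ∑ j : Fin 20, (((g j : ℚ) / den j.succ : ℚ) : ℝ) * √(rad j.succ : ℝ) = (x : ℝ) := by
      rw [hx]
      exact sum_congr rfl fun j _ => by push_cast; ring
    rw [h3]
    have : rad 0 = 1 := rfl
    rw [this]
    simp)
  funext j
  have h3 := congrFun h2 j.succ
  simp only [Fin.cons_succ, Pi.zero_apply, div_eq_zero_iff] at h3
  rcases h3 with h3 | h3
  · exact_mod_cast h3
  · exact absurd h3 (by exact_mod_cast (den_pos j.succ).ne')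

/-- long intervals -/
theorem smallTo_int {M K : ℕ → ℕ} (hK : Tendsto K atTop atTop) {θ : ℝ} (hθ : Irrational θ) :
    SmallTo (fun j => Ioc (M j) (M j + K j)) (fun n => θ * n) := by
  intro ε hε
  have hβ : ∀ k : ℤ, θ ≠ k := fun k hk => hθ ⟨k, by rw [hk]; simp⟩
  have h0 : 0 < ‖e θ - 1‖ := norm_pos_iff.2 (e_ne_one hβ)
  have h1 := (tendsto_natCast_atTop_atTop.comp hK).eventually_ge_atTop (2 / ‖e θ - 1‖ / ε)
  filter_upwards [h1] with j hj
  simp only [Function.comp_apply] at hj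
  rw [Nat.card_Ioc, show M j + K j - M j = K j by omega]
  have e1 : ∑ n ∈ Ioc (M j) (M j + K j), e (θ * (n : ℝ)) =
      ∑ i ∈ range (K j), e (θ * (M j + 1) + θ * i) := by
    have e2 : Ioc (M j) (M j + K j) = Ico (M j + 1) (M j + 1 + K j) := by
      ext n
      rw [Finset.mem_Ioc, Finset.mem_Ico]
      omega
    rw [e2, Finset.sum_Ico_eq_sum_range, Nat.add_sub_cancel_left]
    refine sum_congr rfl fun i _ => ?_
    congr 1
    push_cast
    ring
  rw [e1]
  refine (geo_le hβ _ _).trans ?_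
  rw [div_le_iff₀ hε] at hj
  linarith

theorem cells_card : ∏ j : Fin 20, (cells j.succ).card =
    149505592005956361232790896402942230528000000 := by
  decide +kernel

theorem dtgt_fam {M K : ℕ → ℕ} (hK : Tendsto K atTop atTop) : ∀ᶠ i : ℕ in atTop,
    14 / 1000 * (K i : ℝ) ≤ ({d : ℕ | d ∈ Ioc (M i) (M i + K i) ∧ DTgt d}.ncard : ℝ) := by
  classical
  have h1 := boxes_good (r := 20) (by norm_num) (s := fun i => Ioc (M i) (M i + K i))
    (x := fun d j => yc d j.succ)
    (by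
      intro g hg
      have h2 := (smallTo_int (M := M) hK (irr_deg hg)).add_const
        ((∑ j : Fin 20, (g j : ℝ) * (√(rad j.succ : ℝ) / den j.succ)) * (3 / 2))
      have e1 : (fun d : ℕ => ∑ j : Fin 20, (g j : ℝ) * yc d j.succ) = fun d : ℕ =>
          (∑ j : Fin 20, (g j : ℝ) * (√(rad j.succ : ℝ) / den j.succ)) * d +
            (∑ j : Fin 20, (g j : ℝ) * (√(rad j.succ : ℝ) / den j.succ)) * (3 / 2) := by
        funext d
        rw [sum_mul, sum_mul, ← sum_add_distrib]
        exact sum_congr rfl fun j _ => by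
          unfold yc
          ring
      rw [e1]
      exact h2) (q := 200) (by norm_num)
    (fun j => (cells j.succ).map ⟨fun c : ℕ => (c : ℤ), Nat.cast_injective⟩)
    (by
      intro j c hc
      rw [Finset.mem_map] at hc
      obtain ⟨c', hc', rfl⟩ := hc
      rw [cells, Finset.mem_filter, Finset.mem_range] at hc'
      simp only [Function.Embedding.coeFn_mk]
      have := hc'.1
      constructor
      · positivity
      · exact_mod_cast this) (δ := 1 / 200 ^ 20 / 1000) (by norm_num)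
  filter_upwards [h1] with i hi
  simp only [Finset.card_map] at hi
  rw [cells_card, Nat.card_Ioc, show M i + K i - M i = K i by omega] at hi
  have hK0 : (0 : ℝ) ≤ K i := Nat.cast_nonneg _
  have h2 : (14 / 1000 : ℝ) * K i ≤ ((149505592005956361232790896402942230528000000 : ℕ) : ℝ) *
      (1 / ((200 : ℕ) : ℝ) ^ 20 - 1 / 200 ^ 20 / 1000) * K i := by
    refine mul_le_mul_of_nonneg_right ?_ hK0
    norm_num
  refine h2.trans (hi.trans ?_)
  have hsub : {n : ℕ | n ∈ Ioc (M i) (M i + K i) ∧ ∀ j : Fin 20, ∃ c ∈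
      (cells j.succ).map ⟨fun c : ℕ => (c : ℤ), Nat.cast_injective⟩,
      ((200 : ℕ) : ℤ) ∣ ⌊((200 : ℕ) : ℝ) * yc n j.succ⌋ - c} ⊆
      {d : ℕ | d ∈ Ioc (M i) (M i + K i) ∧ DTgt d} := by
    rintro d ⟨hd, hd'⟩
    refine ⟨hd, fun j => ?_⟩
    obtain ⟨c, hc, hdv⟩ := hd' j
    rw [Finset.mem_map] at hc
    obtain ⟨c', hc', rfl⟩ := hc
    exact ⟨c', hc', by exact_mod_cast hdv⟩
  exact_mod_cast Set.ncard_le_ncard hsub
    ((Finset.finite_toSet (Ioc (M i) (M i + K i))).subset fun n hn => hn.1)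

/-- **every long interval of degrees** -/
theorem dtgt_long : ∃ K₀ : ℕ, ∀ K : ℕ, K₀ ≤ K → ∀ M : ℕ,
    14 / 1000 * (K : ℝ) ≤ ({d : ℕ | d ∈ Ioc M (M + K) ∧ DTgt d}.ncard : ℝ) := by
  by_contra hcon
  push Not at hcon
  choose Kf hK Mf hM using hcon
  obtain ⟨j, hj⟩ := (dtgt_fam (M := Mf) (tendsto_atTop_mono hK tendsto_id)).exists
  have h2 := hM j
  linarith

/-- all numbers of points and all multiplicities -/
theorem every_deg {d : ℕ} (h : DTgt d) {n m : ℕ} (hn : 10 ≤ n) (hm : 1 ≤ m) :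
    ∃ F : MvPolynomial (Fin n × Fin 2) ℚ, F ≠ 0 ∧ ∀ P : Fin n → Fin 2 → ℂ,
      MvPolynomial.aeval (fun ij : Fin n × Fin 2 => P ij.1 ij.2) F ≠ 0 →
      Pool.Agent.H932R3.ExpDim ℂ (fun _ => m) P d := by
  obtain ⟨F, hF, hF'⟩ := generic hn hm
  exact ⟨F, hF, fun P hP => hF' P hP d fun h1 => not_open_all h hn h1.2⟩

end Pool.Agent.N141.SG
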