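import Pool.Agent.N141.SG.Deg2

/-! # Ten points: near-uniform systems in half of the degrees -/

set_option autoImplicit false

namespace Pool.Agent.N141.SG

open Finset Filter
open Pool.Agent.TH885.NW (loW upW win_len exp_near2)

/-- the degree is good for all near-uniform vectors -/
def NearDeg (n d : ℕ) : Prop := ∀ m : ℕ, 0 < m → ∀ w : Fin n → ℕ, (∀ i, w i = m ∨ w i = m + 1) →
  ∃ F : MvPolynomial (Fin n × Fin 2) ℚ, F ≠ 0 ∧ ∀ P : Fin n → Fin 2 → ℂ,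
    MvPolynomial.aeval (fun ij : Fin n × Fin 2 => P ij.1 ij.2) F ≠ 0 →
      Pool.Agent.H932R3.ExpDim ℂ w P d

theorem window_deg {n : ℕ} (hn : 10 ≤ n) {d : ℕ} (h : ¬ NearDeg n d) : ∃ z : ℤ,
    -(√(n : ℝ) * (upW n / 2)) ≤ -√(n : ℝ) * d + √(n : ℝ) * ((√(n : ℝ) - 3) / 2) - z ∧
      -√(n : ℝ) * d + √(n : ℝ) * ((√(n : ℝ) - 3) / 2) - z ≤ √(n : ℝ) * (loW n / 2) := by
  by_contra hcon
  push Not at hcon
  apply h
  intro m hm w hw
  obtain ⟨F, hF, hF'⟩ := exp_near2 (L := ℂ) hn hm hw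
  refine ⟨F, hF, fun P hP => hF' P hP d ?_⟩
  have hs0 : 0 < √(n : ℝ) := by
    have := three_lt hn
    linarith
  set W : ℝ := ∑ i, (w i : ℝ) with hW
  have hWn : W = ((∑ i, w i : ℕ) : ℝ) := by
    rw [hW]
    push_cast
    rfl
  have h2 := hcon (-((∑ i, w i : ℕ) : ℤ))
  have e2 : ((-((∑ i, w i : ℕ) : ℤ) : ℤ) : ℝ) = -W := by
    rw [hWn]
    push_cast
    rfl
  rw [e2] at h2
  have e1 : -√(n : ℝ) * d + √(n : ℝ) * ((√(n : ℝ) - 3) / 2) - -W =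
      √(n : ℝ) * (W / √(n : ℝ) + (√(n : ℝ) - 3) / 2 - d) := by
    field_simp
    ring
  rw [e1] at h2
  have e3 : 2 * W / √(n : ℝ) = 2 * (W / √(n : ℝ)) := by ring
  rw [e3]
  rcases le_or_gt (-(upW n / 2)) (W / √(n : ℝ) + (√(n : ℝ) - 3) / 2 - d) with h4 | h4
  · have h5 : -(√(n : ℝ) * (upW n / 2)) ≤ √(n : ℝ) * (W / √(n : ℝ) + (√(n : ℝ) - 3) / 2 - d) := by
      have := mul_le_mul_of_nonneg_left h4 hs0.le
      linarith
    have h6 := lt_of_mul_lt_mul_left (h2 h5) hs0.le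
    right
    linarith
  · left
    linarith

theorem long_deg {p : ℕ → Prop} {c : ℝ}
    (h : ∀ M K : ℕ → ℕ, Tendsto K atTop atTop → ∀ᶠ j : ℕ in atTop,
      c * (K j : ℝ) ≤ ({n : ℕ | n ∈ Ioc (M j) (M j + K j) ∧ p n}.ncard : ℝ)) :
    ∃ K₀ : ℕ, ∀ K : ℕ, K₀ ≤ K → ∀ M : ℕ,
      c * (K : ℝ) ≤ ({n : ℕ | n ∈ Ioc M (M + K) ∧ p n}.ncard : ℝ) := by
  by_contra hcon
  push Not at hcon
  choose Kf hK Mf hM using hcon
  obtain ⟨j, hj⟩ := (h Mf Kf (tendsto_atTop_mono hK tendsto_id)).exists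
  have h2 := hM j
  linarith

/-- **ten points** -/
theorem ten_deg : ∃ K₀ : ℕ, ∀ K : ℕ, K₀ ≤ K → ∀ M : ℕ,
    486 / 1000 * (K : ℝ) ≤ ({d : ℕ | d ∈ Ioc M (M + K) ∧ NearDeg 10 d}.ncard : ℝ) := by
  classical
  apply long_deg
  intro M K hK
  have hirr : Irrational √((10 : ℕ) : ℝ) := by
    rw [irrational_sqrt_natCast_iff]
    rintro ⟨k, hk⟩
    have : k ≤ 3 := by nlinarith
    interval_cases k <;> omega
  obtain ⟨g1, g2, g3⟩ := win_len (le_refl 10)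
  have hs0 : 0 < √((10 : ℕ) : ℝ) := by
    have := three_lt (le_refl 10)
    linarith
  have hS : √((10 : ℕ) : ℝ) ≤ 3.16228 := by
    rw [Real.sqrt_le_left (by norm_num)]
    norm_num
  have hL : 3.16227 ≤ √((10 : ℕ) : ℝ) := by
    apply Real.le_sqrt_of_sq_le
    norm_num
  have hlo : loW 10 ≤ √((10 : ℕ) : ℝ) - 3 := by
    unfold loW
    exact min_le_left _ _
  have hup : upW 10 ≤ √((10 : ℕ) : ℝ) - 3 := by
    unfold upW
    exact min_le_left _ _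
  have h1 := arc1 (s := fun j => Ioc (M j) (M j + K j))
    (x := fun d => -√((10 : ℕ) : ℝ) * d + √((10 : ℕ) : ℝ) * ((√((10 : ℕ) : ℝ) - 3) / 2))
    (by
      intro k hk
      have h2 := (smallTo_int (M := M) hK (hirr.neg.intCast_mul hk)).add_const
        (k * (√((10 : ℕ) : ℝ) * ((√((10 : ℕ) : ℝ) - 3) / 2)))
      have e1 : (fun d : ℕ => (k : ℝ) * (-√((10 : ℕ) : ℝ) * d +
          √((10 : ℕ) : ℝ) * ((√((10 : ℕ) : ℝ) - 3) / 2))) = fun d : ℕ =>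
          (k : ℝ) * -√((10 : ℕ) : ℝ) * d + k * (√((10 : ℕ) : ℝ) * ((√((10 : ℕ) : ℝ) - 3) / 2)) := by
        funext d
        ring
      rw [e1]
      exact h2)
    (lo := -(√((10 : ℕ) : ℝ) * (upW 10 / 2))) (hi := √((10 : ℕ) : ℝ) * (loW 10 / 2))
    (by
      have : 0 ≤ √((10 : ℕ) : ℝ) * (upW 10 / 2) + √((10 : ℕ) : ℝ) * (loW 10 / 2) := by
        rw [← mul_add]
        exact mul_nonneg hs0.le (by linarith)
      linarith) (δ := 1 / 10000) (by norm_num)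
  filter_upwards [h1] with j hj
  rw [Nat.card_Ioc, show M j + K j - M j = K j by omega] at hj
  have hK0 : (0 : ℝ) ≤ K j := Nat.cast_nonneg _
  have hlen : √((10 : ℕ) : ℝ) * (loW 10 / 2) - -(√((10 : ℕ) : ℝ) * (upW 10 / 2)) + 1 / 10000 ≤
      514 / 1000 := by
    have h3 : √((10 : ℕ) : ℝ) * (loW 10 / 2) + √((10 : ℕ) : ℝ) * (upW 10 / 2) ≤
        √((10 : ℕ) : ℝ) * (√((10 : ℕ) : ℝ) - 3) := by
      rw [← mul_add]
      refine mul_le_mul_of_nonneg_left ?_ hs0.le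
      generalize √((10 : ℕ) : ℝ) = t at hlo hup ⊢
      generalize loW 10 = u at hlo ⊢
      generalize upW 10 = v at hup ⊢
      linarith
    have h4 : √((10 : ℕ) : ℝ) * √((10 : ℕ) : ℝ) = 10 := by
      rw [Real.mul_self_sqrt (Nat.cast_nonneg _)]
      norm_num
    nlinarith
  have hbad : ({d : ℕ | d ∈ Ioc (M j) (M j + K j) ∧ ¬ NearDeg 10 d}.ncard : ℝ) ≤
      514 / 1000 * K j := by
    have hsub : {d : ℕ | d ∈ Ioc (M j) (M j + K j) ∧ ¬ NearDeg 10 d} ⊆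
        {n : ℕ | n ∈ Ioc (M j) (M j + K j) ∧ ∃ z : ℤ, -(√((10 : ℕ) : ℝ) * (upW 10 / 2)) ≤
          -√((10 : ℕ) : ℝ) * n + √((10 : ℕ) : ℝ) * ((√((10 : ℕ) : ℝ) - 3) / 2) - z ∧
          -√((10 : ℕ) : ℝ) * n + √((10 : ℕ) : ℝ) * ((√((10 : ℕ) : ℝ) - 3) / 2) - z ≤
            √((10 : ℕ) : ℝ) * (loW 10 / 2)} :=
      fun d hd => ⟨hd.1, window_deg (le_refl 10) hd.2⟩
    have h5 := Set.ncard_le_ncard hsub
      ((Finset.finite_toSet (Ioc (M j) (M j + K j))).subset fun n hn => hn.1)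
    have h6 : ({d : ℕ | d ∈ Ioc (M j) (M j + K j) ∧ ¬ NearDeg 10 d}.ncard : ℝ) ≤
        ({n : ℕ | n ∈ Ioc (M j) (M j + K j) ∧ ∃ z : ℤ, -(√((10 : ℕ) : ℝ) * (upW 10 / 2)) ≤
          -√((10 : ℕ) : ℝ) * n + √((10 : ℕ) : ℝ) * ((√((10 : ℕ) : ℝ) - 3) / 2) - z ∧
          -√((10 : ℕ) : ℝ) * n + √((10 : ℕ) : ℝ) * ((√((10 : ℕ) : ℝ) - 3) / 2) - z ≤
            √((10 : ℕ) : ℝ) * (loW 10 / 2)}.ncard : ℝ) := by exact_mod_cast h5
    exact h6.trans (hj.trans (mul_le_mul_of_nonneg_right hlen hK0))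
  have hsplit : ({d : ℕ | d ∈ Ioc (M j) (M j + K j) ∧ NearDeg 10 d}.ncard : ℝ) +
      ({d : ℕ | d ∈ Ioc (M j) (M j + K j) ∧ ¬ NearDeg 10 d}.ncard : ℝ) = K j := by
    have e1 : {d : ℕ | d ∈ Ioc (M j) (M j + K j) ∧ NearDeg 10 d} =
        (((Ioc (M j) (M j + K j)).filter (fun d => NearDeg 10 d) : Finset ℕ) : Set ℕ) := by
      ext d
      simp
    have e2 : {d : ℕ | d ∈ Ioc (M j) (M j + K j) ∧ ¬ NearDeg 10 d} =
        (((Ioc (M j) (M j + K j)).filter (fun d => ¬ NearDeg 10 d) : Finset ℕ) : Set ℕ) := by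
      ext d
      simp
    rw [e1, e2, Set.ncard_coe_finset, Set.ncard_coe_finset]
    have h7 := Finset.card_filter_add_card_filter_not (s := Ioc (M j) (M j + K j))
      (fun d => NearDeg 10 d)
    rw [Nat.card_Ioc, show M j + K j - M j = K j by omega] at h7
    exact_mod_cast h7
  linarith

end Pool.Agent.N141.SG
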