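import Pool.Agent.N141.SG.Deg3
import Pool.Agent.N388.EFW.Near
import Pool.Agent.N388.EF.TEST2

/-! # Eleven points: near-uniform systems in almost all degrees -/

set_option autoImplicit false

namespace Pool.Agent.N141.SG

open Finset Filter
open Pool.Agent.TH885.NW (loW upW win_len exp_near2)

/-- ends of the windows -/
def wlo (s : Fin 11) : ℚ := ![0.045339, 0.138533, 0.229214, 0.319894, 0.410575, 0.501255, 0.591936,
  0.682617, 0.773297, 0.863978, 0.954658] s

/-- ends of the windows -/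
def whi (s : Fin 11) : ℚ := ![0.047734, 0.138643, 0.229552, 0.320461, 0.41137, 0.50228, 0.593189,
  0.684098, 0.775007, 0.865916, 0.956825] s

theorem sqrt_eleven : (3.31662 : ℝ) < √11 ∧ √11 < 3.31663 := by
  constructor
  · apply Real.lt_sqrt_of_sq_lt
    norm_num
  · rw [Real.sqrt_lt' (by norm_num)]
    norm_num

/-- one window of eleven points -/
theorem win11 {d m : ℕ} {s : ℕ} {e lo hi : ℝ} (he : e = (3 + √11) / 2 * (d - √11 * m) - s)
    (h1 : √11 * (2 * d + 3) < 11 + 2 * (11 * m + s)) (h2 : 0 ≤ e)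
    (h3 : (3 * √11 - 9) / 2 ≤ e ∨ 10 ≤ (10 + 3 * √11) * e + s)
    (hE1 : 10.474945 * lo - s ≤ 0.47493) (hE2 : 19.94989 * (10.474945 * lo - s) + s ≤ 10)
    (hU : (11 + 2 * (s : ℝ) - 9.94986) / 22 ≤ hi) :
    lo ≤ √11 / 11 * d - m ∧ √11 / 11 * d - m ≤ hi := by
  obtain ⟨r1, r2⟩ := sqrt_eleven
  have hr : √(11 : ℝ) * √11 = 11 := Real.mul_self_sqrt (by norm_num)
  set r : ℝ := √11 with hrd
  clear_value r
  have hx : (d : ℝ) - r * m = r * (r / 11 * d - m) := by
    have : r * (r / 11 * d - m) = (r * r) / 11 * d - r * m := by ring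
    rw [this, hr]
    ring
  set y : ℝ := r / 11 * d - m with hy
  have he' : e = (3 * r + 11) / 2 * y - s := by
    rw [he, hx]
    have : (3 + r) / 2 * (r * y) = (3 * r + r * r) / 2 * y := by ring
    rw [this, hr]
  constructor
  · by_contra hcon
    push Not at hcon
    have hs0 : (0 : ℝ) ≤ s := Nat.cast_nonneg s
    rcases le_or_gt y 0 with hy0 | hy0
    · have h5 : (3 * r + 11) / 2 * y ≤ 0 := mul_nonpos_of_nonneg_of_nonpos (by linarith) hy0
      have h6 : e = 0 := by linarith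
      rcases h3 with h3 | h3
      · linarith
      · rw [h6, mul_zero, zero_add] at h3
        linarith
    · have h5 : (3 * r + 11) / 2 * y < 10.474945 * lo := by
        calc (3 * r + 11) / 2 * y ≤ 10.474945 * y :=
              mul_le_mul_of_nonneg_right (by linarith) hy0.le
          _ < 10.474945 * lo := mul_lt_mul_of_pos_left hcon (by norm_num)
      have h6 : e < 10.474945 * lo - s := by linarith
      rcases h3 with h3 | h3
      · linarith
      · have h8 : (10 + 3 * r) * e ≤ 19.94989 * e :=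
          mul_le_mul_of_nonneg_right (by linarith) h2
        linarith
  · refine le_trans ?_ hU
    rw [le_div_iff₀ (by norm_num)]
    have h5 : y * 22 = 2 * r * d - 22 * m := by
      rw [hy]
      ring
    rw [h5]
    nlinarith

theorem win_tab (s : Fin 11) : 10.474945 * (wlo s : ℝ) - ((s : ℕ) : ℝ) ≤ 0.47493 ∧
    19.94989 * (10.474945 * (wlo s : ℝ) - ((s : ℕ) : ℝ)) + ((s : ℕ) : ℝ) ≤ 10 ∧
    (11 + 2 * ((s : ℕ) : ℝ) - 9.94986) / 22 ≤ (whi s : ℝ) ∧ (wlo s : ℝ) ≤ whi s := by
  fin_cases s <;> norm_num [wlo, whi]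

theorem win_sum : ∑ s : Fin 11, ((whi s : ℝ) - wlo s) = 13779 / 1000000 := by
  have h : ∑ s : Fin 11, (whi s - wlo s) = 13779 / 1000000 := by decide +kernel
  have h1 : ((∑ s : Fin 11, (whi s - wlo s) : ℚ) : ℝ) = ((13779 / 1000000 : ℚ) : ℝ) := by rw [h]
  rw [Rat.cast_sum] at h1
  simp only [Rat.cast_sub] at h1
  rw [h1]
  norm_num

/-- the bad degrees of eleven points -/
theorem window_eleven {d : ℕ} (hd : 100 ≤ d) (h : ¬ NearDeg 11 d) : ∃ k : ℕ, d = 3 * k ∧
    ∃ s : Fin 11, ∃ z : ℤ, (wlo s : ℝ) ≤ √11 / 11 * 3 * k - z ∧ √11 / 11 * 3 * k - z ≤ whi s := by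
  by_contra hcon
  push Not at hcon
  apply h
  -- vectors with a smallest entry
  have key : ∀ m : ℕ, 0 < m → ∀ w : Fin 11 → ℕ, (∀ i, w i = m ∨ w i = m + 1) → (∃ i, w i = m) →
      ∃ F : MvPolynomial (Fin 11 × Fin 2) ℚ, F ≠ 0 ∧ ∀ P : Fin 11 → Fin 2 → ℂ,
        MvPolynomial.aeval (fun ij : Fin 11 × Fin 2 => P ij.1 ij.2) F ≠ 0 →
          Pool.Agent.H932R3.ExpDim ℂ w P d := by
    intro m hm w hw hi
    have hle : ∑ i, w i ≤ 11 * (m + 1) := by
      calc ∑ i, w i ≤ ∑ _i : Fin 11, (m + 1) := Finset.sum_le_sum fun i _ => by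
            rcases hw i with h | h <;> omega
        _ = 11 * (m + 1) := by simp
    rcases lt_or_ge m 20 with hm20 | hm20
    · obtain ⟨F, hF, hF'⟩ := exp_near2 (L := ℂ) (n := 11) (by norm_num) hm hw
      refine ⟨F, hF, fun P hP => hF' P hP d (Or.inl ?_)⟩
      obtain ⟨r1, r2⟩ := sqrt_eleven
      have e0 : √((11 : ℕ) : ℝ) = √11 := by norm_num
      have hW : (∑ i, (w i : ℝ)) ≤ 220 := by
        have : ((∑ i, w i : ℕ) : ℝ) ≤ ((11 * 20 : ℕ) : ℝ) := by
          exact_mod_cast hle.trans (by omega)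
        push_cast at this
        linarith
      have hup : upW 11 ≤ √((11 : ℕ) : ℝ) - 3 := by
        unfold upW
        exact min_le_left _ _
      rw [e0] at hup ⊢
      have h5 : 2 * (∑ i, (w i : ℝ)) / √11 ≤ 133 := by
        rw [div_le_iff₀ (by linarith)]
        linarith
      have h6 : (100 : ℝ) ≤ d := by exact_mod_cast hd
      linarith
    · obtain ⟨F, hF, hF'⟩ := Pool.Agent.N388.EFW.expDim_near11 Pool.Agent.N388.EF.t_TEST2 hm20 w hw hi
      refine ⟨F, hF, fun P hP => ?_⟩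
      obtain ⟨s, hs⟩ : ∃ s, ∑ i, w i = 11 * m + s := by
        refine ⟨∑ i, w i - 11 * m, ?_⟩
        have : 11 * m ≤ ∑ i, w i := by
          calc 11 * m = ∑ _i : Fin 11, m := by simp
            _ ≤ ∑ i, w i := Finset.sum_le_sum fun i _ => by
              rcases hw i with h | h <;> omega
        omega
      have hs11 : s < 11 := by
        obtain ⟨i0, hi0⟩ := hi
        have h7 : ∑ i, w i < ∑ _i : Fin 11, (m + 1) := by
          apply Finset.sum_lt_sum
          · intro i _
            rcases hw i with h | h <;> omega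
          · exact ⟨i0, Finset.mem_univ _, by omega⟩
        simp at h7
        omega
      refine hF' P hP d s _ hs rfl ?_
      rintro ⟨⟨k, hk⟩, h1, h2, h3⟩
      obtain ⟨t2, t3, t4, -⟩ := win_tab ⟨s, hs11⟩
      obtain ⟨h8, h9⟩ := win11 (s := s) rfl h1 h2 h3 t2 t3 t4
      have h10 := hcon k hk ⟨s, hs11⟩ m
      have e1 : √(11 : ℝ) / 11 * (d : ℝ) = √11 / 11 * 3 * k := by
        rw [hk]
        push_cast
        ring
      rw [e1] at h8 h9
      have h11 := h10 (by exact_mod_cast h8)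
      push_cast at h11
      linarith
  intro m hm w hw
  by_cases hi : ∃ i, w i = m
  · exact key m hm w hw hi
  · push Not at hi
    have hw' : ∀ i, w i = m + 1 := fun i => (hw i).resolve_left (hi i)
    exact key (m + 1) (by omega) w (fun i => Or.inl (hw' i)) ⟨0, hw' 0⟩

end Pool.Agent.N141.SG
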