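import Pool.Agent.N141.SG.Deg4

/-! # Eleven points: near-uniform systems in almost all degrees, counting -/

set_option autoImplicit false

namespace Pool.Agent.N141.SG

open Finset Filter

/-- **eleven points** -/
theorem eleven_deg : ∃ K₀ : ℕ, ∀ K : ℕ, K₀ ≤ K → ∀ M : ℕ,
    995 / 1000 * (K : ℝ) ≤ ({d : ℕ | d ∈ Ioc M (M + K) ∧ NearDeg 11 d}.ncard : ℝ) := by
  classical
  apply long_deg
  intro M K hK
  have hirr : Irrational (√(11 : ℝ) / 11 * 3) := by
    have h0 : Irrational √((11 : ℕ) : ℝ) := by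
      rw [irrational_sqrt_natCast_iff]
      rintro ⟨k, hk⟩
      have : k ≤ 3 := by nlinarith
      interval_cases k <;> omega
    have h1 := (h0.div_natCast (m := 11) (by norm_num)).mul_natCast (m := 3) (by norm_num)
    push_cast at h1
    exact h1
  have hK' : Tendsto (fun j => (M j + K j) / 3 - M j / 3) atTop atTop := by
    refine tendsto_atTop_mono (f := fun j => K j / 3) (fun j => by omega) ?_
    exact (Nat.tendsto_div_const_atTop (by norm_num)).comp hK
  have harc : ∀ s : Fin 11, ∀ᶠ j : ℕ in atTop,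
      ({n : ℕ | n ∈ Ioc (M j / 3) (M j / 3 + ((M j + K j) / 3 - M j / 3)) ∧ ∃ z : ℤ,
        (wlo s : ℝ) ≤ √11 / 11 * 3 * n - z ∧ √11 / 11 * 3 * n - z ≤ whi s}.ncard : ℝ) ≤
        ((whi s : ℝ) - wlo s + 1 / 1000000) *
          (Ioc (M j / 3) (M j / 3 + ((M j + K j) / 3 - M j / 3))).card := by
    intro s
    refine arc1 (s := fun j => Ioc (M j / 3) (M j / 3 + ((M j + K j) / 3 - M j / 3)))
      (x := fun n => √11 / 11 * 3 * n) (fun k hk => ?_) (win_tab s).2.2.2 (by norm_num)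
    have h2 := smallTo_int (M := fun j => M j / 3) hK' (hirr.intCast_mul hk)
    have e1 : (fun n : ℕ => (k : ℝ) * (√11 / 11 * 3 * n)) =
        fun n : ℕ => (k : ℝ) * (√11 / 11 * 3) * n := by
      funext n
      ring
    rw [e1]
    exact h2
  filter_upwards [Filter.eventually_all.2 harc,
    hK.eventually_ge_atTop 1000000] with j hj hbig
  have hMK : M j / 3 ≤ (M j + K j) / 3 := Nat.div_le_div_right (by omega)
  have hlen : M j / 3 + ((M j + K j) / 3 - M j / 3) = (M j + K j) / 3 := by omega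
  rw [hlen] at hj
  have hcard : ((Ioc (M j / 3) ((M j + K j) / 3)).card : ℝ) ≤ K j / 3 + 1 := by
    rw [Nat.card_Ioc]
    have h1 : 3 * ((M j + K j) / 3 - M j / 3) ≤ K j + 3 := by omega
    have h2 : 3 * (((M j + K j) / 3 - M j / 3 : ℕ) : ℝ) ≤ K j + 3 := by exact_mod_cast h1
    linarith
  set A : Fin 11 → Finset ℕ := fun s => (Ioc (M j / 3) ((M j + K j) / 3)).filter (fun n =>
    ∃ z : ℤ, (wlo s : ℝ) ≤ √11 / 11 * 3 * n - z ∧ √11 / 11 * 3 * n - z ≤ whi s) with hA
  have hAc : ∀ s, ((A s).card : ℝ) ≤ ((whi s : ℝ) - wlo s + 1 / 1000000) * (K j / 3 + 1) := by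
    intro s
    have h1 := hj s
    have e1 : {n : ℕ | n ∈ Ioc (M j / 3) ((M j + K j) / 3) ∧ ∃ z : ℤ,
        (wlo s : ℝ) ≤ √11 / 11 * 3 * n - z ∧ √11 / 11 * 3 * n - z ≤ whi s} = ((A s : Finset ℕ) : Set ℕ) := by
      ext n
      simp [hA]
    rw [e1, Set.ncard_coe_finset] at h1
    refine h1.trans (mul_le_mul_of_nonneg_left hcard ?_)
    have := (win_tab s).2.2.2
    linarith
  have hbad : ({d : ℕ | d ∈ Ioc (M j) (M j + K j) ∧ ¬ NearDeg 11 d}.ncard : ℝ) ≤
      5 / 1000 * K j := by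
    have hsub : {d : ℕ | d ∈ Ioc (M j) (M j + K j) ∧ ¬ NearDeg 11 d} ⊆
        ((range 100 ∪ (Finset.univ.biUnion A).image (fun k => 3 * k) : Finset ℕ) : Set ℕ) := by
      rintro d ⟨hd, hd'⟩
      rw [Finset.mem_coe, Finset.mem_union]
      rcases lt_or_ge d 100 with h | h
      · exact Or.inl (Finset.mem_range.2 h)
      · right
        obtain ⟨k, hk, s, z, h1, h2⟩ := window_eleven h hd'
        rw [Finset.mem_image]
        refine ⟨k, Finset.mem_biUnion.2 ⟨s, Finset.mem_univ _, ?_⟩, hk.symm⟩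
        rw [hA, Finset.mem_filter, Finset.mem_Ioc]
        rw [Finset.mem_Ioc] at hd
        exact ⟨by omega, z, h1, h2⟩
    have h1 := Set.ncard_le_ncard hsub (Finset.finite_toSet _)
    rw [Set.ncard_coe_finset] at h1
    have h2 : (range 100 ∪ (Finset.univ.biUnion A).image (fun k => 3 * k)).card ≤
        100 + ∑ s, (A s).card := by
      refine (Finset.card_union_le _ _).trans ?_
      rw [Finset.card_range]
      exact Nat.add_le_add_left (Finset.card_image_le.trans Finset.card_biUnion_le) _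
    have h3 : (({d : ℕ | d ∈ Ioc (M j) (M j + K j) ∧ ¬ NearDeg 11 d}.ncard : ℕ) : ℝ) ≤
        100 + ∑ s, ((A s).card : ℝ) := by exact_mod_cast h1.trans h2
    have h4 : ∑ s, ((A s).card : ℝ) ≤
        ∑ s : Fin 11, ((whi s : ℝ) - wlo s + 1 / 1000000) * (K j / 3 + 1) :=
      Finset.sum_le_sum fun s _ => hAc s
    rw [← Finset.sum_mul, Finset.sum_add_distrib, win_sum, Finset.sum_const, Finset.card_univ,
      Fintype.card_fin, nsmul_eq_mul] at h4
    have h5 : (13779 / 1000000 + ((11 : ℕ) : ℝ) * (1 / 1000000)) * ((K j : ℝ) / 3 + 1) ≤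
        5 / 1000 * (K j : ℝ) - 100 := by
      have h6 : (13779 / 1000000 + ((11 : ℕ) : ℝ) * (1 / 1000000)) = 1379 / 100000 := by norm_num
      rw [h6]
      have h7 : (1000000 : ℝ) ≤ (K j : ℝ) := by exact_mod_cast hbig
      linarith
    have h8 := h3.trans (add_le_add_right (h4.trans h5) 100)
    refine h8.trans (le_of_eq (by ring))
  have hsplit : ({d : ℕ | d ∈ Ioc (M j) (M j + K j) ∧ NearDeg 11 d}.ncard : ℝ) +
      ({d : ℕ | d ∈ Ioc (M j) (M j + K j) ∧ ¬ NearDeg 11 d}.ncard : ℝ) = K j := by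
    have e1 : {d : ℕ | d ∈ Ioc (M j) (M j + K j) ∧ NearDeg 11 d} =
        (((Ioc (M j) (M j + K j)).filter (fun d => NearDeg 11 d) : Finset ℕ) : Set ℕ) := by
      ext d
      simp
    have e2 : {d : ℕ | d ∈ Ioc (M j) (M j + K j) ∧ ¬ NearDeg 11 d} =
        (((Ioc (M j) (M j + K j)).filter (fun d => ¬ NearDeg 11 d) : Finset ℕ) : Set ℕ) := by
      ext d
      simp
    rw [e1, e2, Set.ncard_coe_finset, Set.ncard_coe_finset]
    have h7 := Finset.card_filter_add_card_filter_not (s := Ioc (M j) (M j + K j))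
      (fun d => NearDeg 11 d)
    rw [Nat.card_Ioc, show M j + K j - M j = K j by omega] at h7
    exact_mod_cast h7
  linarith

end Pool.Agent.N141.SG
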