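import Pool.Agent.N141.SG.Arc
import Pool.Agent.H383.LinIndep

/-! # Joint distribution of multiples of integers by square roots -/

set_option autoImplicit false

namespace Pool.Agent.N141.SG

open Finset Filter
open Pool.Agent.H469R2.NK (e norm_e e_add conj_e)
open Pool.Agent.N666.VE (primes)
open Pool.Agent.Y961.JR (discJ)

/-- boxes modulo one in several dimensions -/
theorem boxesR {r : ℕ} (hr : 1 ≤ r) {s : ℕ → Finset ℕ} {x : ℕ → Fin r → ℝ}
    (h : ∀ g : Fin r → ℤ, g ≠ 0 → SmallTo s (fun n => ∑ j, (g j : ℝ) * x n j))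
    {q : ℕ} (hq : 1 ≤ q) {δ : ℝ} (hδ : 0 < δ) : ∀ᶠ N : ℕ in atTop, ∀ ρ : Fin r → ℤ,
      (1 / (q : ℝ) ^ r - δ) * (s N).card ≤
        (((s N).filter (fun n => ∀ j, (q : ℤ) ∣ ⌊(q : ℝ) * x n j⌋ - ρ j)).card : ℝ) := by
  classical
  have hq0 : (0 : ℝ) < q := by exact_mod_cast hq
  obtain ⟨K, hK⟩ := exists_nat_ge (3 * (q : ℝ) + 1 + 2 * (q : ℝ) ^ r * (3 * r + 4) / δ)
  have hp0 : 0 ≤ 2 * (q : ℝ) ^ r * (3 * r + 4) / δ := by positivity
  have hK0 : (0 : ℝ) < K := lt_of_lt_of_le (by positivity) hK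
  have hKn : 1 ≤ K := by exact_mod_cast hK0
  have h3q : 3 * q ≤ K := by
    have : 3 * (q : ℝ) ≤ K := by linarith
    exact_mod_cast this
  have hKδ : (q : ℝ) ^ r * ((3 * r + 4) / K) ≤ δ / 2 := by
    have h1 : 2 * (q : ℝ) ^ r * (3 * r + 4) / δ ≤ K := by linarith
    rw [div_le_iff₀ hδ] at h1
    rw [← mul_div_assoc, div_le_iff₀ hK0]
    nlinarith
  set E : ℝ := δ / 2 / ((q : ℝ) ^ r * (K : ℝ) ^ (3 * r)) with hE
  have hE0 : 0 < E := by positivity
  set B : Finset (Fin r → ℤ) := Fintype.piFinset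
    (fun _ => Finset.Ioo (-((K : ℤ) ^ 3)) ((K : ℤ) ^ 3)) with hB
  have hev : ∀ᶠ N : ℕ in atTop, ∀ g ∈ B, g ≠ 0 →
      ‖∑ n ∈ s N, e (∑ j, (g j : ℝ) * x n j)‖ ≤ E * (s N).card := by
    rw [Filter.eventually_all_finset]
    intro g _
    by_cases hg : g ≠ 0
    · filter_upwards [h g hg E hE0] with N hN _
      exact hN
    · exact Eventually.of_forall fun N hg' => absurd hg' hg
  filter_upwards [hev] with N hN ρ
  have h1 := discJ (r := r) hr (s N) (fun n j => (q : ℝ) * x n j) K q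
    hKn hq h3q (E * (s N).card) (by positivity) (by
      intro g hg hgK
      have h3 := hN g (Fintype.mem_piFinset.2 fun k => by
        have h2 := hgK k
        rw [Finset.mem_Ioo, ← abs_lt, Int.abs_eq_natAbs]
        exact_mod_cast h2) hg
      refine le_trans (le_of_eq ?_) h3
      congr 1
      refine sum_congr rfl fun n _ => ?_
      congr 1
      refine sum_congr rfl fun j _ => ?_
      field_simp) ρ
  have h3 := (abs_le.1 h1).1
  have h4 : (q : ℝ) ^ r * ((3 * r + 4) * (s N).card / K + (K : ℝ) ^ (3 * r) * (E * (s N).card)) =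
      ((q : ℝ) ^ r * ((3 * r + 4) / K) + (q : ℝ) ^ r * (K : ℝ) ^ (3 * r) * E) * (s N).card := by
    ring
  rw [h4] at h3
  have h5 : (q : ℝ) ^ r * (K : ℝ) ^ (3 * r) * E = δ / 2 := by
    rw [hE]
    field_simp
  rw [h5] at h3
  have h6 : ((q : ℝ) ^ r * ((3 * r + 4) / K) + δ / 2) * (s N).card ≤ δ * (s N).card :=
    mul_le_mul_of_nonneg_right (by linarith) (Nat.cast_nonneg _)
  have h7 : (1 / (q : ℝ) ^ r - δ) * (s N).card = (s N).card / (q : ℝ) ^ r - δ * (s N).card := by ring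
  rw [h7]
  linarith

/-- linear sequences -/
theorem smallTo_lin {θ : ℝ} (hθ : ∀ k : ℤ, θ ≠ k) : SmallTo (fun N => Ioc N (2 * N))
    (fun n => θ * n) := by
  have hne : e θ - 1 ≠ 0 := by
    rw [sub_ne_zero]
    intro h
    unfold Pool.Agent.H469R2.NK.e at h
    rw [Complex.exp_eq_one_iff] at h
    obtain ⟨k, hk⟩ := h
    apply hθ k
    have h1 : (((2 * Real.pi * θ : ℝ) : ℂ)) = ((2 * Real.pi * k : ℝ) : ℂ) := by
      have h2 : (((2 * Real.pi * θ : ℝ) : ℂ)) * Complex.I = ((2 * Real.pi * k : ℝ) : ℂ) * Complex.I := by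
        rw [hk]
        push_cast
        ring
      exact mul_right_cancel₀ Complex.I_ne_zero h2
    have h3 : 2 * Real.pi * θ = 2 * Real.pi * k := by exact_mod_cast h1
    have h4 : (2 * Real.pi) ≠ 0 := by positivity
    exact mul_left_cancel₀ h4 h3
  have hgeo : ∀ N K : ℕ, (e θ - 1) * ∑ n ∈ Ioc N (N + K), e (θ * n) =
      e (θ * (N + K + 1 : ℕ)) - e (θ * (N + 1 : ℕ)) := by
    intro N K
    induction K with
    | zero => simp
    | succ K ih =>
      have e1 : Ioc N (N + (K + 1)) = insert (N + K + 1) (Ioc N (N + K)) := by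
        ext y
        simp only [Finset.mem_Ioc, Finset.mem_insert]
        omega
      rw [e1, sum_insert (by simp), mul_add, ih]
      have e2 : e (θ * (N + (K + 1) + 1 : ℕ)) = e θ * e (θ * (N + K + 1 : ℕ)) := by
        rw [← e_add]
        congr 1
        push_cast
        ring
      rw [e2]
      ring
  have hn0 : 0 < ‖e θ - 1‖ := norm_pos_iff.2 hne
  intro ε hε
  have h1 : ∀ᶠ N : ℕ in atTop, 2 / ‖e θ - 1‖ / ε ≤ (N : ℝ) :=
    tendsto_natCast_atTop_atTop.eventually_ge_atTop _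
  filter_upwards [h1] with N hN
  have h2 := hgeo N N
  have h3 : ‖e θ - 1‖ * ‖∑ n ∈ Ioc N (N + N), e (θ * n)‖ ≤ 2 := by
    rw [← norm_mul, h2]
    refine (norm_sub_le _ _).trans ?_
    rw [norm_e, norm_e]
    norm_num
  rw [Nat.card_Ioc, show 2 * N - N = N by omega, show 2 * N = N + N by ring]
  rw [div_le_iff₀ hε, div_le_iff₀ hn0] at hN
  have h4 : ‖e θ - 1‖ * ‖∑ n ∈ Ioc N (N + N), e (θ * n)‖ ≤ ‖e θ - 1‖ * (ε * N) := by
    refine h3.trans (hN.trans (le_of_eq ?_))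
    ring
  exact le_of_mul_le_mul_left h4 hn0

/-- the radicands -/
def rad : Fin 21 → ℕ := ![1, 2, 3, 5, 6, 7, 10, 11, 14, 15, 17, 19, 22, 23, 26, 29, 30, 31, 33, 34, 35]

theorem rad_squarefree (j : Fin 21) : Squarefree (rad j) := by
  fin_cases j <;> simp only [rad] <;> decide +kernel

theorem rad_injective : Function.Injective rad := by
  decide +kernel

/-- the square roots are linearly independent -/
theorem rad_indep {g : Fin 21 → ℤ} (h : ∑ j, (g j : ℝ) * √(rad j : ℝ) = 0) : g = 0 := by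
  have h1 : LinearIndependent ℚ (fun j : Fin 21 => √(rad j : ℝ)) :=
    Pool.Agent.H383.Gauss.sf_indep.comp (fun j : Fin 21 => ⟨rad j, rad_squarefree j⟩)
      (fun i j hij => rad_injective (congrArg Subtype.val hij))
  rw [Fintype.linearIndependent_iff] at h1
  have h2 := h1 (fun j => (g j : ℚ)) (by
    rw [← h]
    refine sum_congr rfl fun j _ => ?_
    rw [Rat.smul_def]
    push_cast
    rfl)
  funext j
  exact_mod_cast h2 j

/-- the cells -/
def cell (j : Fin 21) : ℤ := if (j : ℕ) = 0 then 0 else if (j : ℕ) ≤ 2 then 350 else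
  if (j : ℕ) ≤ 5 then 600 else 1200

/-- the target for a multiplicity -/
def Tgt (m : ℤ) : Prop := ∀ j : Fin 21, (j : ℕ) ≠ 0 → ∃ z : ℤ,
  ((cell j : ℝ) - 6) / 10000 ≤ √(rad j : ℝ) * m + √(rad j : ℝ) / 2 - z ∧
    √(rad j : ℝ) * m + √(rad j : ℝ) / 2 - z ≤ ((cell j : ℝ) + 1) / 10000

theorem rad_le (j : Fin 21) : √(rad j : ℝ) ≤ 6 := by
  rw [show (6 : ℝ) = √(36 : ℝ) by
    rw [show (36 : ℝ) = 6 ^ 2 by norm_num, Real.sqrt_sq (by norm_num)]]
  apply Real.sqrt_le_sqrt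
  have : rad j ≤ 36 := by
    fin_cases j <;> simp [rad]
  exact_mod_cast this

theorem of_dvd {x : ℝ} {ρ : ℤ} (h : ((10000 : ℕ) : ℤ) ∣ ⌊((10000 : ℕ) : ℝ) * x⌋ - ρ) :
    ∃ z : ℤ, (ρ : ℝ) / 10000 ≤ x - z ∧ x - z < ((ρ : ℝ) + 1) / 10000 := by
  obtain ⟨z, hz⟩ := h
  have h1 : ⌊((10000 : ℕ) : ℝ) * x⌋ = 10000 * z + ρ := by
    push_cast at hz ⊢
    linarith
  have h2 := Int.floor_le (((10000 : ℕ) : ℝ) * x)
  have h3 := Int.lt_floor_add_one (((10000 : ℕ) : ℝ) * x)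
  rw [h1] at h2 h3
  push_cast at h2 h3
  refine ⟨z, ?_, ?_⟩
  · rw [div_le_iff₀ (by norm_num)]
    linarith
  · rw [lt_div_iff₀ (by norm_num)]
    linarith

/-- thin sequences and primes -/
theorem tgt_of_small {s : ℕ → Finset ℕ} {v : ℕ → ℝ}
    (h : ∀ γ : ℝ, γ ≠ 0 → SmallTo s (fun n => γ * v n)) : ∀ᶠ N : ℕ in atTop,
      1 / 10000 ^ 22 * ((s N).card : ℝ) ≤ (((s N : Set ℕ) ∩ {n : ℕ | Tgt ⌊v n⌋}).ncard : ℝ) := by
  classical
  have h1 := boxesR (r := 21) (by norm_num) (s := s)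
    (x := fun n j => √(rad j : ℝ) * v n + (if (j : ℕ) = 0 then 0 else √(rad j : ℝ) / 2))
    (by
      intro g hg
      have hγ : ∑ j, (g j : ℝ) * √(rad j : ℝ) ≠ 0 := fun h0 => hg (rad_indep h0)
      have h2 := (h _ hγ).add_const
        (∑ j, (g j : ℝ) * (if (j : ℕ) = 0 then 0 else √(rad j : ℝ) / 2))
      have e1 : (fun n => ∑ j, (g j : ℝ) * (√(rad j : ℝ) * v n +
          (if (j : ℕ) = 0 then 0 else √(rad j : ℝ) / 2))) = fun n =>
          (∑ j, (g j : ℝ) * √(rad j : ℝ)) * v n +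
            ∑ j, (g j : ℝ) * (if (j : ℕ) = 0 then 0 else √(rad j : ℝ) / 2) := by
        funext n
        rw [sum_mul, ← sum_add_distrib]
        exact sum_congr rfl fun j _ => by ring
      rw [e1]
      exact h2) (q := 10000) (by norm_num) (δ := 1 / 10000 ^ 21 - 1 / 10000 ^ 22) (by norm_num)
  filter_upwards [h1] with N hN
  have h2 := hN cell
  have e1 : (1 / ((10000 : ℕ) : ℝ) ^ 21 - (1 / 10000 ^ 21 - 1 / 10000 ^ 22)) = 1 / 10000 ^ 22 := by
    push_cast
    ring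
  rw [e1] at h2
  refine h2.trans ?_
  rw [← Set.ncard_coe_finset]
  have hfin : ((s N : Set ℕ) ∩ {n : ℕ | Tgt ⌊v n⌋}).Finite :=
    (Finset.finite_toSet (s N)).inter_of_left _
  have hsub : (((s N).filter (fun n => ∀ j, ((10000 : ℕ) : ℤ) ∣
      ⌊((10000 : ℕ) : ℝ) * (√(rad j : ℝ) * v n + (if (j : ℕ) = 0 then 0 else √(rad j : ℝ) / 2))⌋ -
        cell j) : Finset ℕ) : Set ℕ) ⊆ (s N : Set ℕ) ∩ {n : ℕ | Tgt ⌊v n⌋} := by
    intro n hn
    rw [Finset.mem_coe, Finset.mem_filter] at hn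
    obtain ⟨hn1, hn2⟩ := hn
    refine ⟨hn1, ?_⟩
    -- the cell of `v n`
    obtain ⟨z0, h3, h4⟩ := of_dvd (hn2 0)
    have hc0 : cell 0 = 0 := rfl
    have hr0 : √(rad 0 : ℝ) = 1 := by
      have : rad 0 = 1 := rfl
      rw [this]
      simp
    rw [hc0, hr0] at h3 h4
    simp only [Fin.val_zero, if_true, one_mul, add_zero, Int.cast_zero, zero_div, zero_add] at h3 h4
    have hfl : ⌊v n⌋ = z0 := by
      rw [Int.floor_eq_iff]
      constructor
      · linarith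
      · linarith
    intro j hj
    obtain ⟨z, h5, h6⟩ := of_dvd (hn2 j)
    rw [if_neg hj] at h5 h6
    refine ⟨z, ?_, ?_⟩
    · rw [hfl]
      have h7 := rad_le j
      have h8 : √(rad j : ℝ) * (v n - z0) ≤ 6 * (1 / 10000) :=
        mul_le_mul h7 h4.le h3 (by norm_num)
      have e2 : ((cell j : ℝ) - 6) / 10000 = (cell j : ℝ) / 10000 - 6 * (1 / 10000) := by ring
      rw [e2]
      nlinarith
    · rw [hfl]
      have h8 : 0 ≤ √(rad j : ℝ) * (v n - z0) := mul_nonneg (Real.sqrt_nonneg _) h3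
      nlinarith
  exact_mod_cast Set.ncard_le_ncard hsub hfin

/-- all integers -/
theorem tgt_ints : ∀ᶠ N : ℕ in atTop, 1 / 10000 ^ 22 * (N : ℝ) ≤
    ({m : ℕ | m ∈ Ioc N (2 * N) ∧ Tgt m}.ncard : ℝ) := by
  classical
  have h1 := boxesR (r := 20) (by norm_num) (s := fun N => Ioc N (2 * N))
    (x := fun n j => √(rad j.succ : ℝ) * n + √(rad j.succ : ℝ) / 2)
    (by
      intro g hg
      have hγ : ∀ k : ℤ, ∑ j : Fin 20, (g j : ℝ) * √(rad j.succ : ℝ) ≠ k := by
        intro k hk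
        apply hg
        have h2 := rad_indep (g := Fin.cons (-k) g) (by
          rw [Fin.sum_univ_succ]
          simp only [Fin.cons_zero, Fin.cons_succ]
          rw [hk]
          have : rad 0 = 1 := rfl
          rw [this]
          simp)
        funext j
        have h3 := congrFun h2 j.succ
        simpa using h3
      have h2 := (smallTo_lin hγ).add_const (∑ j : Fin 20, (g j : ℝ) * (√(rad j.succ : ℝ) / 2))
      have e1 : (fun n : ℕ => ∑ j : Fin 20, (g j : ℝ) * (√(rad j.succ : ℝ) * n + √(rad j.succ : ℝ) / 2)) =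
          fun n : ℕ => (∑ j : Fin 20, (g j : ℝ) * √(rad j.succ : ℝ)) * n +
            ∑ j : Fin 20, (g j : ℝ) * (√(rad j.succ : ℝ) / 2) := by
        funext n
        rw [sum_mul, ← sum_add_distrib]
        exact sum_congr rfl fun j _ => by ring
      rw [e1]
      exact h2) (q := 10000) (by norm_num) (δ := 1 / 10000 ^ 20 - 1 / 10000 ^ 22) (by norm_num)
  filter_upwards [h1] with N hN
  have h2 := hN (fun j => cell j.succ)
  have e1 : (1 / ((10000 : ℕ) : ℝ) ^ 20 - (1 / 10000 ^ 20 - 1 / 10000 ^ 22)) = 1 / 10000 ^ 22 := by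
    push_cast
    ring
  rw [e1, Nat.card_Ioc, show 2 * N - N = N by omega] at h2
  refine h2.trans ?_
  rw [← Set.ncard_coe_finset]
  have hfin : {m : ℕ | m ∈ Ioc N (2 * N) ∧ Tgt m}.Finite :=
    (Finset.finite_toSet (Ioc N (2 * N))).subset fun m hm => hm.1
  have hsub : (((Ioc N (2 * N)).filter (fun n : ℕ => ∀ j : Fin 20, ((10000 : ℕ) : ℤ) ∣
      ⌊((10000 : ℕ) : ℝ) * (√(rad j.succ : ℝ) * n + √(rad j.succ : ℝ) / 2)⌋ -
        cell j.succ) : Finset ℕ) : Set ℕ) ⊆ {m : ℕ | m ∈ Ioc N (2 * N) ∧ Tgt m} := by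
    intro n hn
    rw [Finset.mem_coe, Finset.mem_filter] at hn
    refine ⟨hn.1, fun j hj => ?_⟩
    have hj0 : j ≠ 0 := fun h0 => hj (by rw [h0]; rfl)
    obtain ⟨i, rfl⟩ := Fin.exists_succ_eq.2 hj0
    obtain ⟨z, h5, h6⟩ := of_dvd (hn.2 i)
    refine ⟨z, ?_, ?_⟩
    · push_cast
      refine le_trans ?_ h5
      have : ((cell i.succ : ℝ) - 6) / 10000 ≤ (cell i.succ : ℝ) / 10000 := by
        apply div_le_div_of_nonneg_right _ (by norm_num)
        linarith
      exact this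
    · push_cast
      exact h6.le
  exact_mod_cast Set.ncard_le_ncard hsub hfin

end Pool.Agent.N141.SG
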