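import Pool.Agent.N141.SG.One
import Pool.Agent.TH885.NW.Exp2
import Pool.Agent.H932R3.NearFinal

/-! # Near-uniform multiplicities, thin sequences of sums -/

set_option autoImplicit false

namespace Pool.Agent.N141.SG

open Finset Filter
open Pool.Agent.TH885.NW (loW upW win_len exp_near2)

/-- expected dimension in every degree -/
def ExN {n : ℕ} (w : Fin n → ℕ) : Prop := ∃ F : MvPolynomial (Fin n × Fin 2) ℚ, F ≠ 0 ∧
  ∀ P : Fin n → Fin 2 → ℂ, MvPolynomial.aeval (fun ij : Fin n × Fin 2 => P ij.1 ij.2) F ≠ 0 →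
    ∀ d : ℕ, Pool.Agent.H932R3.ExpDim ℂ w P d

/-- all near-uniform vectors of sum `W` -/
def GoodN (n W : ℕ) : Prop :=
  ∀ m : ℕ, 0 < m → ∀ w : Fin n → ℕ, (∀ i, w i = m ∨ w i = m + 1) → ∑ i, w i = W → ExN w

open Classical in
/-- the bound for the proportion of the bad sums -/
noncomputable def badN (n : ℕ) : ℝ :=
  if IsSquare n then 0
  else (min (√(n : ℝ) - 3) (2 / 3 + 9 / (4 * √(n : ℝ))) +
    min (√(n : ℝ) - 3) (2 / 3 + 1 / (4 * √(n : ℝ)))) / 2

theorem good_sq {n : ℕ} (hn : 10 ≤ n) (hsq : IsSquare n) (W : ℕ) : GoodN n W := by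
  intro m hm w hw _
  obtain ⟨s, hs⟩ := hsq
  have hs2 : 2 ≤ s := by
    by_contra hcon
    have : s ≤ 1 := by omega
    have := Nat.mul_le_mul this this
    omega
  exact H932R3.near_points (L := ℂ) (w := w) hn hm hw
    (H932R3.near_cond (by omega) hw (Or.inr ⟨s, 0, hs2, by rw [hs]; ring, Or.inl rfl⟩))

theorem window_near {n : ℕ} (hn : 10 ≤ n) {W : ℕ} (h : ¬ GoodN n W) : ∃ z : ℤ,
    -(upW n / 2) ≤ (√(n : ℝ))⁻¹ * W + (√(n : ℝ) - 3) / 2 - z ∧
      (√(n : ℝ))⁻¹ * W + (√(n : ℝ) - 3) / 2 - z ≤ loW n / 2 := by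
  by_contra hcon
  push Not at hcon
  apply h
  intro m hm w hw hsum
  obtain ⟨F, hF, hF'⟩ := exp_near2 (L := ℂ) hn hm hw
  refine ⟨F, hF, fun P hP d => hF' P hP d ?_⟩
  have e0 : (∑ i, (w i : ℝ)) = (W : ℝ) := by
    rw [← hsum]
    push_cast
    rfl
  have e1 : 2 * (∑ i, (w i : ℝ)) / √(n : ℝ) = 2 * ((√(n : ℝ))⁻¹ * W) := by
    rw [e0, div_eq_mul_inv]
    ring
  rw [e1]
  have h2 := hcon (d : ℤ)
  push_cast at h2
  rcases le_or_gt (-(upW n / 2)) ((√(n : ℝ))⁻¹ * W + (√(n : ℝ) - 3) / 2 - d) with h4 | h4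
  · right
    have := h2 h4
    linarith
  · left
    linarith

/-- **near-uniform vectors** -/
theorem near_one {n : ℕ} (hn : 10 ≤ n) {F : Finset ℝ} {a : ℝ → ℝ} {c : ℝ} (h : Adm1 F a c)
    {δ : ℝ} (hδ : 0 < δ) : ∀ᶠ N : ℕ in atTop,
      ({t : ℕ | t ∈ Ioc N (2 * N) ∧ ¬ GoodN n ⌊gp F a t⌋₊}.ncard : ℝ) ≤
        (badN n + δ) * (Ioc N (2 * N)).card ∧
      ({t : ℕ | t ∈ (Ioc N (2 * N)).filter Nat.Prime ∧ ¬ GoodN n ⌊gp F a t⌋₊}.ncard : ℝ) ≤
        (badN n + δ) * ((Ioc N (2 * N)).filter Nat.Prime).card := by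
  classical
  have hs3 := three_lt hn
  by_cases hsq : IsSquare n
  · have e : badN n = 0 := by
      unfold badN
      rw [if_pos hsq]
    rw [e, zero_add]
    exact count_none h (bad := fun m => ¬ GoodN n m) (fun m _ hbad => hbad (good_sq hn hsq m)) hδ.le
  · have hirr : Irrational (√(n : ℝ))⁻¹ := (irrational_sqrt_natCast_iff.2 hsq).inv
    obtain ⟨g1, g2, g3⟩ := win_len hn
    have e : badN n = loW n / 2 - (-(upW n / 2)) := by
      unfold badN loW upW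
      rw [if_neg hsq]
      ring
    rw [e]
    exact count_of h (by positivity) hirr ((√(n : ℝ) - 3) / 2) (by linarith)
      (bad := fun m => ¬ GoodN n m) (fun m _ hbad => window_near hn hbad) hδ

theorem badN_lt {n : ℕ} (hn : 10 ≤ n) : badN n < 1 := by
  obtain ⟨g1, g2, g3⟩ := win_len hn
  unfold loW upW at g3
  unfold badN
  split_ifs
  · norm_num
  · linarith

end Pool.Agent.N141.SG
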