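import Pool.Agent.N141.SG.Joint
import Pool.Agent.Results.MP_d03834_ag.EffectiveEveryField

/-! # The multiplicities for which no degree is in a window -/

set_option autoImplicit false

namespace Pool.Agent.N141.SG

open Finset Filter
open Pool.Agent.Results.MP_d03834_ag.EffectiveEveryField (Open generic)

theorem lo_le {s : ℝ} (_ : 3 ≤ s) : min (s - 3) (2 / 3 + 9 / (4 * s)) ≤ 1.203 := by
  rcases le_or_gt s 4.2 with h | h
  · exact (min_le_left _ _).trans (by linarith)
  · refine (min_le_right _ _).trans ?_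
    have h1 : 9 / (4 * s) ≤ 9 / (4 * 4.2) := by
      apply div_le_div_of_nonneg_left (by norm_num) (by norm_num) (by linarith)
    have h2 : (9 : ℝ) / (4 * 4.2) ≤ 0.5358 := by norm_num
    linarith

theorem up_le {s : ℝ} (_ : 3 ≤ s) : min (s - 3) (2 / 3 + 1 / (4 * s)) ≤ 0.75 := by
  rcases le_or_gt s 3.75 with h | h
  · exact (min_le_left _ _).trans (by linarith)
  · refine (min_le_right _ _).trans ?_
    have h1 : 1 / (4 * s) ≤ 1 / (4 * 3.75) := by
      apply div_le_div_of_nonneg_left (by norm_num) (by norm_num) (by linarith)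
    have h2 : (1 : ℝ) / (4 * 3.75) ≤ 0.067 := by norm_num
    linarith

theorem window {m : ℕ} (h : Tgt m) {n : ℕ} (j : Fin 21) (hj : (j : ℕ) ≠ 0) (t : ℕ)
    (hn : n = rad j * t ^ 2) {lo up : ℝ} (hlo : lo < 1 + 2 * t * (((cell j : ℝ) - 6) / 10000))
    (hup : up < 1 - 2 * t * (((cell j : ℝ) + 1) / 10000)) (d : ℕ)
    (h1 : √(n : ℝ) * (2 * m + 1) - lo ≤ 2 * (d : ℝ) + 3)
    (h2 : 2 * (d : ℝ) + 3 ≤ √(n : ℝ) * (2 * m + 1) + up) : False := by
  obtain ⟨z, h3, h4⟩ := h j hj
  have hsq : √(n : ℝ) = √(rad j : ℝ) * t := by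
    rw [hn]
    push_cast
    rw [Real.sqrt_mul (Nat.cast_nonneg _), Real.sqrt_sq (Nat.cast_nonneg _)]
  have e1 : √(n : ℝ) * (2 * m + 1) =
      2 * t * (√(rad j : ℝ) * m + √(rad j : ℝ) / 2 - z) + ((2 * t * z : ℤ) : ℝ) := by
    rw [hsq]
    push_cast
    ring
  have ht : (0 : ℝ) ≤ 2 * t := by positivity
  push_cast at h3 h4
  have h5 := mul_le_mul_of_nonneg_left h3 ht
  have h6 := mul_le_mul_of_nonneg_left h4 ht
  rw [e1] at h1 h2
  have h7 : ((2 * t * z : ℤ) : ℝ) - 1 < ((2 * (d : ℤ) + 3 : ℤ) : ℝ) := by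
    push_cast at h1 ⊢
    linarith
  have h8 : ((2 * (d : ℤ) + 3 : ℤ) : ℝ) < ((2 * t * z : ℤ) : ℝ) + 1 := by
    push_cast at h2 ⊢
    linarith
  have h7' : 2 * (t : ℤ) * z - 1 < 2 * (d : ℤ) + 3 := by exact_mod_cast h7
  have h8' : 2 * (d : ℤ) + 3 < 2 * (t : ℤ) * z + 1 := by exact_mod_cast h8
  have h9 : 2 * (t : ℤ) * z = 2 * (t * z) := by ring
  rw [h9] at h7' h8'
  omega

theorem not_open {m : ℕ} (h : Tgt m) {n : ℕ} (hn : 10 ≤ n) (d : ℕ) : ¬ Open n m d := by
  rintro ⟨h1, h2, h3, -⟩
  push Not at h1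
  obtain ⟨h37, h13, h21, hsq⟩ := h1
  have hs3 : (3 : ℝ) ≤ √(n : ℝ) := by
    apply Real.le_sqrt_of_sq_le
    have : (10 : ℝ) ≤ n := by exact_mod_cast hn
    linarith
  have hlo := lo_le hs3
  have hup := up_le hs3
  have key : ∀ (j : Fin 21) (t : ℕ), (j : ℕ) ≠ 0 → n = rad j * t ^ 2 →
      (1.203 : ℝ) < 1 + 2 * t * (((cell j : ℝ) - 6) / 10000) →
      (0.75 : ℝ) < 1 - 2 * t * (((cell j : ℝ) + 1) / 10000) → False := by
    intro j t hj hnj hA hB
    exact window h j hj t hnj (lt_of_le_of_lt hlo hA) (lt_of_le_of_lt hup hB) d (by linarith)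
      (by linarith)
  interval_cases n
  · exact key 6 1 (by decide) (by decide) (by norm_num [cell]) (by norm_num [cell])
  · exact key 7 1 (by decide) (by decide) (by norm_num [cell]) (by norm_num [cell])
  · -- twelve
    have h4 : √((12 : ℕ) : ℝ) ≤ 3.5 := by
      rw [Real.sqrt_le_left (by norm_num)]
      norm_num
    refine window h (n := 12) 2 (by decide) 2 (by decide) (lo := 0.5) (up := 0.5) (by norm_num [cell])
      (by norm_num [cell]) d ?_ ?_
    · refine le_trans ?_ h2
      have := min_le_left (√((12 : ℕ) : ℝ) - 3) (2 / 3 + 9 / (4 * √((12 : ℕ) : ℝ)))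
      linarith
    · refine h3.trans ?_
      have := min_le_left (√((12 : ℕ) : ℝ) - 3) (2 / 3 + 1 / (4 * √((12 : ℕ) : ℝ)))
      linarith
  · exact h13 rfl
  · exact key 8 1 (by decide) (by decide) (by norm_num [cell]) (by norm_num [cell])
  · exact key 9 1 (by decide) (by decide) (by norm_num [cell]) (by norm_num [cell])
  · exact hsq ⟨4, rfl⟩
  · exact key 10 1 (by decide) (by decide) (by norm_num [cell]) (by norm_num [cell])
  · exact key 1 3 (by decide) (by decide) (by norm_num [cell]) (by norm_num [cell])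
  · exact key 11 1 (by decide) (by decide) (by norm_num [cell]) (by norm_num [cell])
  · exact key 3 2 (by decide) (by decide) (by norm_num [cell]) (by norm_num [cell])
  · exact h21 rfl
  · exact key 12 1 (by decide) (by decide) (by norm_num [cell]) (by norm_num [cell])
  · exact key 13 1 (by decide) (by decide) (by norm_num [cell]) (by norm_num [cell])
  · exact key 4 2 (by decide) (by decide) (by norm_num [cell]) (by norm_num [cell])
  · exact hsq ⟨5, rfl⟩
  · exact key 14 1 (by decide) (by decide) (by norm_num [cell]) (by norm_num [cell])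
  · exact key 2 3 (by decide) (by decide) (by norm_num [cell]) (by norm_num [cell])
  · exact key 5 2 (by decide) (by decide) (by norm_num [cell]) (by norm_num [cell])
  · exact key 15 1 (by decide) (by decide) (by norm_num [cell]) (by norm_num [cell])
  · exact key 16 1 (by decide) (by decide) (by norm_num [cell]) (by norm_num [cell])
  · exact key 17 1 (by decide) (by decide) (by norm_num [cell]) (by norm_num [cell])
  · -- thirty-two
    have h4 : (5 : ℝ) ≤ √((32 : ℕ) : ℝ) := by
      apply Real.le_sqrt_of_sq_le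
      norm_num
    have h5 : 1 / (4 * √((32 : ℕ) : ℝ)) ≤ 1 / 20 := by
      apply div_le_div_of_nonneg_left (by norm_num) (by norm_num) (by linarith)
    refine window h (n := 32) 1 (by decide) 4 (by decide) (lo := 1.203) (up := 0.717) (by norm_num [cell])
      (by norm_num [cell]) d ?_ ?_
    · linarith
    · refine h3.trans ?_
      have := min_le_right (√((32 : ℕ) : ℝ) - 3) (2 / 3 + 1 / (4 * √((32 : ℕ) : ℝ)))
      linarith
  · exact key 18 1 (by decide) (by decide) (by norm_num [cell]) (by norm_num [cell])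
  · exact key 19 1 (by decide) (by decide) (by norm_num [cell]) (by norm_num [cell])
  · exact key 20 1 (by decide) (by decide) (by norm_num [cell]) (by norm_num [cell])
  · exact hsq ⟨6, rfl⟩

/-- **every number of points and every degree** -/
theorem every {m : ℕ} (h : Tgt m) (hm : 1 ≤ m) {n : ℕ} (hn : 10 ≤ n) :
    ∃ F : MvPolynomial (Fin n × Fin 2) ℚ, F ≠ 0 ∧ ∀ P : Fin n → Fin 2 → ℂ,
      MvPolynomial.aeval (fun ij : Fin n × Fin 2 => P ij.1 ij.2) F ≠ 0 →
      ∀ d : ℕ, Pool.Agent.H932R3.ExpDim ℂ (fun _ => m) P d := by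
  obtain ⟨F, hF, hF'⟩ := generic hn hm
  exact ⟨F, hF, fun P hP d => hF' P hP d fun h1 => not_open h hn d h1.2⟩

end Pool.Agent.N141.SG
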