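import Pool.Agent.N141.SG.Pos
import Pool.Agent.N141.SG.Num

/-! # One number of points, thin sequences of multiplicities -/

set_option autoImplicit false

namespace Pool.Agent.N141.SG

open Finset Filter
open Pool.Agent.Results.MP_d03834_ag.EffectiveEveryField (Open generic)

/-- for general points with rational coefficients of the open condition the space of the curves with
`n` points of multiplicity `m` has the expected dimension in every degree -/
def Ex (n m : ℕ) : Prop := ∃ F : MvPolynomial (Fin n × Fin 2) ℚ, F ≠ 0 ∧ ∀ P : Fin n → Fin 2 → ℂ,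
  MvPolynomial.aeval (fun ij : Fin n × Fin 2 => P ij.1 ij.2) F ≠ 0 →
    ∀ d : ℕ, Pool.Agent.H932R3.ExpDim ℂ (fun _ => m) P d

open Classical in
/-- the bound for the proportion of the bad multiplicities -/
noncomputable def badU (n : ℕ) : ℝ :=
  if 37 ≤ n ∨ n = 13 ∨ n = 21 ∨ IsSquare n then 0
  else if n = 11 ∨ n = 15 then (√(n : ℝ) - 3) / 6
  else (min (√(n : ℝ) - 3) (2 / 3 + 9 / (4 * √(n : ℝ))) +
    min (√(n : ℝ) - 3) (2 / 3 + 1 / (4 * √(n : ℝ)))) / 2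

theorem three_lt {n : ℕ} (hn : 10 ≤ n) : (3 : ℝ) < √(n : ℝ) := by
  apply Real.lt_sqrt_of_sq_lt
  have : (10 : ℝ) ≤ n := by exact_mod_cast hn
  linarith

theorem open_of {n m : ℕ} (hn : 10 ≤ n) (hm : 1 ≤ m) (h : ¬ Ex n m) : ∃ d, Open n m d := by
  by_contra hcon
  push Not at hcon
  apply h
  obtain ⟨F, hF, hF'⟩ := generic hn hm
  exact ⟨F, hF, fun P hP d => hF' P hP d fun h1 => hcon d h1.2⟩

/-- counting the bad members of thin sequences -/
theorem count_of {F : Finset ℝ} {a : ℝ → ℝ} {c : ℝ} (h : Adm1 F a c) {α : ℝ} (hα : 0 < α)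
    (hirr : Irrational α) (β : ℝ) {lo hi : ℝ} (hlh : lo ≤ hi) {bad : ℕ → Prop}
    (hbad : ∀ m : ℕ, 1 ≤ m → bad m → ∃ z : ℤ, lo ≤ α * m + β - z ∧ α * m + β - z ≤ hi)
    {δ : ℝ} (hδ : 0 < δ) : ∀ᶠ N : ℕ in atTop,
      ({t : ℕ | t ∈ Ioc N (2 * N) ∧ bad ⌊gp F a t⌋₊}.ncard : ℝ) ≤
        (hi - lo + δ) * (Ioc N (2 * N)).card ∧
      ({t : ℕ | t ∈ (Ioc N (2 * N)).filter Nat.Prime ∧ bad ⌊gp F a t⌋₊}.ncard : ℝ) ≤
        (hi - lo + δ) * ((Ioc N (2 * N)).filter Nat.Prime).card := by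
  filter_upwards [gp_arc h hα hirr β hlh hδ, gp_large h 1] with N h1 h2
  have key : ∀ s : Finset ℕ, s ⊆ Ioc N (2 * N) →
      ({t : ℕ | t ∈ s ∧ bad ⌊gp F a t⌋₊}.ncard : ℝ) ≤
      ({n : ℕ | n ∈ s ∧ ∃ z : ℤ, lo ≤ α * ⌊gp F a n⌋ + β - z ∧
        α * ⌊gp F a n⌋ + β - z ≤ hi}.ncard : ℝ) := by
    intro s hs
    have : {t : ℕ | t ∈ s ∧ bad ⌊gp F a t⌋₊} ⊆ {n : ℕ | n ∈ s ∧ ∃ z : ℤ,
        lo ≤ α * ⌊gp F a n⌋ + β - z ∧ α * ⌊gp F a n⌋ + β - z ≤ hi} := by
      rintro n ⟨hn, hn'⟩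
      have h4 := h2 n (hs hn)
      obtain ⟨z, h5, h6⟩ := hbad _ (Nat.one_le_floor_iff _ |>.2 h4) hn'
      have h7 : ((⌊gp F a n⌋₊ : ℕ) : ℝ) = ((⌊gp F a n⌋ : ℤ) : ℝ) := by
        have := floor_nat (zero_le_one.trans h4)
        exact_mod_cast congrArg (fun z : ℤ => (z : ℝ)) this
      rw [h7] at h5 h6
      exact ⟨hn, z, h5, h6⟩
    exact_mod_cast Set.ncard_le_ncard this ((Finset.finite_toSet s).subset fun n hn => hn.1)
  exact ⟨(key _ (Finset.Subset.refl _)).trans h1.1, (key _ (Finset.filter_subset _ _)).trans h1.2⟩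

/-- nothing is bad -/
theorem count_none {F : Finset ℝ} {a : ℝ → ℝ} {c : ℝ} (h : Adm1 F a c) {bad : ℕ → Prop}
    (hbad : ∀ m : ℕ, 1 ≤ m → ¬ bad m) {δ : ℝ} (hδ : 0 ≤ δ) : ∀ᶠ N : ℕ in atTop,
      ({t : ℕ | t ∈ Ioc N (2 * N) ∧ bad ⌊gp F a t⌋₊}.ncard : ℝ) ≤ δ * (Ioc N (2 * N)).card ∧
      ({t : ℕ | t ∈ (Ioc N (2 * N)).filter Nat.Prime ∧ bad ⌊gp F a t⌋₊}.ncard : ℝ) ≤
        δ * ((Ioc N (2 * N)).filter Nat.Prime).card := by
  filter_upwards [gp_large h 1] with N h2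
  have key : ∀ s : Finset ℕ, s ⊆ Ioc N (2 * N) →
      {t : ℕ | t ∈ s ∧ bad ⌊gp F a t⌋₊} = ∅ := by
    intro s hs
    rw [Set.eq_empty_iff_forall_notMem]
    rintro t ⟨ht, ht'⟩
    exact hbad _ (Nat.one_le_floor_iff _ |>.2 (h2 t (hs ht))) ht'
  rw [key _ (Finset.Subset.refl _), key _ (Finset.filter_subset _ _), Set.ncard_empty, Nat.cast_zero]
  constructor <;> positivity

theorem win_nonneg {n : ℕ} (hn : 10 ≤ n) :
    0 ≤ min (√(n : ℝ) - 3) (2 / 3 + 9 / (4 * √(n : ℝ))) ∧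
      0 ≤ min (√(n : ℝ) - 3) (2 / 3 + 1 / (4 * √(n : ℝ))) := by
  have h3 := three_lt hn
  constructor <;> refine le_min (by linarith) (by positivity)

/-- **one number of points** -/
theorem one {n : ℕ} (hn : 10 ≤ n) {F : Finset ℝ} {a : ℝ → ℝ} {c : ℝ} (h : Adm1 F a c)
    {δ : ℝ} (hδ : 0 < δ) : ∀ᶠ N : ℕ in atTop,
      ({t : ℕ | t ∈ Ioc N (2 * N) ∧ ¬ Ex n ⌊gp F a t⌋₊}.ncard : ℝ) ≤
        (badU n + δ) * (Ioc N (2 * N)).card ∧
      ({t : ℕ | t ∈ (Ioc N (2 * N)).filter Nat.Prime ∧ ¬ Ex n ⌊gp F a t⌋₊}.ncard : ℝ) ≤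
        (badU n + δ) * ((Ioc N (2 * N)).filter Nat.Prime).card := by
  classical
  have hs3 := three_lt hn
  by_cases hC : 37 ≤ n ∨ n = 13 ∨ n = 21 ∨ IsSquare n
  · have e : badU n = 0 := by
      unfold badU
      rw [if_pos hC]
    rw [e, zero_add]
    refine count_none h (bad := fun m => ¬ Ex n m) (fun m hm hbad => ?_) hδ.le
    obtain ⟨d, hd⟩ := open_of hn hm hbad
    exact hd.1 hC
  · have hsq : ¬ IsSquare n := fun h0 => hC (Or.inr (Or.inr (Or.inr h0)))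
    have hirr : Irrational √(n : ℝ) := irrational_sqrt_natCast_iff.2 hsq
    by_cases h11 : n = 11 ∨ n = 15
    · have e : badU n = 0 - (-((√(n : ℝ) - 3) / 6)) := by
        unfold badU
        rw [if_neg hC, if_pos h11]
        ring
      rw [e]
      have hirr3 : Irrational (√(n : ℝ) / 3) := by
        have := hirr.div_natCast (m := 3) (by norm_num)
        simpa using this
      refine count_of h (by linarith) hirr3 0 (by linarith) (bad := fun m => ¬ Ex n m)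
        (fun m hm hbad => ?_) hδ
      obtain ⟨d, -, h1, h2, h3⟩ := open_of hn hm hbad
      obtain ⟨⟨z, rfl⟩, h4, h5⟩ := h3 h11
      push_cast at h4 h5
      refine ⟨z, ?_, ?_⟩
      · push_cast
        linarith
      · push_cast
        linarith
    · obtain ⟨g1, g2⟩ := win_nonneg hn
      have e : badU n = min (√(n : ℝ) - 3) (2 / 3 + 9 / (4 * √(n : ℝ))) / 2 -
          (-(min (√(n : ℝ) - 3) (2 / 3 + 1 / (4 * √(n : ℝ))) / 2)) := by
        unfold badU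
        rw [if_neg hC, if_neg h11]
        ring
      rw [e]
      refine count_of h (by linarith) hirr ((√(n : ℝ) - 3) / 2) (by linarith)
        (bad := fun m => ¬ Ex n m)
        (fun m hm hbad => ?_) hδ
      obtain ⟨d, -, h1, h2, -⟩ := open_of hn hm hbad
      refine ⟨d, ?_, ?_⟩
      · push_cast
        linarith
      · push_cast
        linarith

theorem badU_lt {n : ℕ} (hn : 10 ≤ n) : badU n < 1 := by
  have hs3 := three_lt hn
  unfold badU
  split_ifs with h1 h2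
  · norm_num
  · have : √(n : ℝ) < 4 := by
      rw [Real.sqrt_lt' (by norm_num)]
      rcases h2 with rfl | rfl <;> norm_num
    linarith
  · have h3 := lo_le hs3.le
    have h4 := up_le hs3.le
    linarith

theorem badU_vals : badU 10 < 0.163 ∧ badU 11 < 0.053 ∧ badU 12 < 0.465 ∧ badU 14 < 0.738 ∧
    badU 15 < 0.146 := by
  have hns : ∀ n : ℕ, 9 < n → n < 16 → ¬ IsSquare n := by
    rintro n h1 h2 ⟨k, hk⟩
    have : k ≤ 3 := by nlinarith
    interval_cases k <;> omega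
  have hC : ∀ n : ℕ, 9 < n → n < 16 → n ≠ 13 → ¬ (37 ≤ n ∨ n = 13 ∨ n = 21 ∨ IsSquare n) := by
    intro n h1 h2 h3 h4
    rcases h4 with h4 | h4 | h4 | h4
    · omega
    · exact h3 h4
    · omega
    · exact hns n h1 h2 h4
  have hA : ∀ n : ℕ, 9 < n → n < 16 → n ≠ 13 → n ≠ 11 → n ≠ 15 → ∀ s : ℝ, √(n : ℝ) < s →
      badU n < s - 3 := by
    intro n h1 h2 h3 h4 h5 s hs
    unfold badU
    rw [if_neg (hC n h1 h2 h3), if_neg (by tauto)]
    have g1 := min_le_left (√(n : ℝ) - 3) (2 / 3 + 9 / (4 * √(n : ℝ)))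
    have g2 := min_le_left (√(n : ℝ) - 3) (2 / 3 + 1 / (4 * √(n : ℝ)))
    linarith
  have hB : ∀ n : ℕ, n = 11 ∨ n = 15 → ∀ s : ℝ, √(n : ℝ) < s → badU n < (s - 3) / 6 := by
    intro n h1 s hs
    unfold badU
    rw [if_neg (hC n (by omega) (by omega) (by omega)), if_pos h1]
    linarith
  refine ⟨?_, ?_, ?_, ?_, ?_⟩
  · refine (hA 10 (by norm_num) (by norm_num) (by norm_num) (by norm_num) (by norm_num) 3.1623
      (by rw [Real.sqrt_lt' (by norm_num)]; norm_num)).trans (by norm_num)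
  · refine (hB 11 (Or.inl rfl) 3.3168 (by rw [Real.sqrt_lt' (by norm_num)]; norm_num)).trans
      (by norm_num)
  · refine (hA 12 (by norm_num) (by norm_num) (by norm_num) (by norm_num) (by norm_num) 3.4642
      (by rw [Real.sqrt_lt' (by norm_num)]; norm_num)).trans (by norm_num)
  · have h14 : √((14 : ℕ) : ℝ) < 3.7417 := by rw [Real.sqrt_lt' (by norm_num)]; norm_num
    have h14' : 3.7 < √((14 : ℕ) : ℝ) := by
      apply Real.lt_sqrt_of_sq_lt
      norm_num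
    unfold badU
    rw [if_neg (hC 14 (by norm_num) (by norm_num) (by norm_num)), if_neg (by norm_num)]
    have g1 := min_le_left (√((14 : ℕ) : ℝ) - 3) (2 / 3 + 9 / (4 * √((14 : ℕ) : ℝ)))
    have g2 := min_le_right (√((14 : ℕ) : ℝ) - 3) (2 / 3 + 1 / (4 * √((14 : ℕ) : ℝ)))
    have g3 : 1 / (4 * √((14 : ℕ) : ℝ)) ≤ 1 / (4 * 3.7) := by
      apply div_le_div_of_nonneg_left (by norm_num) (by norm_num) (by linarith)
    have g4 : (1 : ℝ) / (4 * 3.7) ≤ 0.0676 := by norm_num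
    linarith
  · refine (hB 15 (Or.inr rfl) 3.873 (by rw [Real.sqrt_lt' (by norm_num)]; norm_num)).trans
      (by norm_num)

end Pool.Agent.N141.SG
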