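import Pool.Agent.N141.SG.Joint

/-! # Growth of generalised polynomials -/

set_option autoImplicit false

namespace Pool.Agent.N141.SG

open Finset Filter

theorem gp_tendsto {F : Finset ℝ} {a : ℝ → ℝ} {c : ℝ} (h : Adm1 F a c) :
    Tendsto (fun n : ℕ => gp F a n) atTop atTop := by
  classical
  obtain ⟨h1, h2, h3, -, h5⟩ := h
  have hf : Tendsto (fun t : ℝ => ∑ x ∈ F, a x * t ^ (x - c)) atTop
      (nhds (∑ x ∈ F, if x = c then a c else 0)) := by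
    refine tendsto_finsetSum _ fun x hx => ?_
    rcases eq_or_lt_of_le (h2 x hx) with he | hl
    · subst he
      rw [if_pos rfl]
      refine Tendsto.congr (fun t => ?_) tendsto_const_nhds
      rw [sub_self, Real.rpow_zero, mul_one]
    · rw [if_neg hl.ne]
      have e1 := (tendsto_rpow_neg_atTop (show 0 < c - x by linarith)).const_mul (a x)
      rw [mul_zero] at e1
      refine Tendsto.congr (fun t => ?_) e1
      rw [neg_sub]
  rw [Finset.sum_ite_eq' F c, if_pos h1] at hf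
  have hg : Tendsto (fun t : ℝ => (∑ x ∈ F, a x * t ^ (x - c)) * t ^ c) atTop atTop :=
    hf.pos_mul_atTop h5 (tendsto_rpow_atTop h3)
  have hh := hg.comp tendsto_natCast_atTop_atTop
  refine hh.congr' ?_
  filter_upwards [eventually_ge_atTop 1] with n hn
  have hn0 : (0 : ℝ) < n := by exact_mod_cast hn
  simp only [Function.comp]
  unfold gp
  rw [sum_mul]
  refine sum_congr rfl fun x _ => ?_
  rw [mul_assoc, ← Real.rpow_add hn0, sub_add_cancel]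

/-- the values are large on the whole interval -/
theorem gp_large {F : Finset ℝ} {a : ℝ → ℝ} {c : ℝ} (h : Adm1 F a c) (K : ℝ) :
    ∀ᶠ N : ℕ in atTop, ∀ n ∈ Ioc N (2 * N), K ≤ gp F a n := by
  obtain ⟨M, hM⟩ := eventually_atTop.1 ((gp_tendsto h).eventually_ge_atTop K)
  filter_upwards [eventually_ge_atTop M] with N hN n hn
  exact hM n (hN.trans (Finset.mem_Ioc.1 hn).1.le)

theorem floor_nat {x : ℝ} (hx : 0 ≤ x) : ((⌊x⌋₊ : ℕ) : ℤ) = ⌊x⌋ := by
  exact Int.natCast_floor_eq_floor hx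

/-- **All the radicands at once along thin sequences** -/
theorem tgt_thin {F : Finset ℝ} {a : ℝ → ℝ} {c : ℝ} (h : Adm1 F a c) : ∀ᶠ N : ℕ in atTop,
    1 / 10000 ^ 22 * ((Ioc N (2 * N)).card : ℝ) ≤
      ({n : ℕ | n ∈ Ioc N (2 * N) ∧ 1 ≤ ⌊gp F a n⌋₊ ∧ Tgt (⌊gp F a n⌋₊ : ℕ)}.ncard : ℝ) ∧
    1 / 10000 ^ 22 * (((Ioc N (2 * N)).filter Nat.Prime).card : ℝ) ≤
      ({n : ℕ | n ∈ (Ioc N (2 * N)).filter Nat.Prime ∧ 1 ≤ ⌊gp F a n⌋₊ ∧
        Tgt (⌊gp F a n⌋₊ : ℕ)}.ncard : ℝ) := by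
  filter_upwards [tgt_of_small (fun γ hγ => (gp_small h hγ).1),
    tgt_of_small (fun γ hγ => (gp_small h hγ).2), gp_large h 1] with N h1 h2 h3
  have key : ∀ s : Finset ℕ, s ⊆ Ioc N (2 * N) →
      (((s : Set ℕ) ∩ {n : ℕ | Tgt ⌊gp F a n⌋}).ncard : ℝ) ≤
      ({n : ℕ | n ∈ s ∧ 1 ≤ ⌊gp F a n⌋₊ ∧ Tgt (⌊gp F a n⌋₊ : ℕ)}.ncard : ℝ) := by
    intro s hs
    have : (s : Set ℕ) ∩ {n : ℕ | Tgt ⌊gp F a n⌋} ⊆
        {n : ℕ | n ∈ s ∧ 1 ≤ ⌊gp F a n⌋₊ ∧ Tgt (⌊gp F a n⌋₊ : ℕ)} := by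
      rintro n ⟨hn, hn'⟩
      rw [Finset.mem_coe] at hn
      have h4 := h3 n (hs hn)
      refine ⟨hn, ?_, ?_⟩
      · rw [Nat.one_le_floor_iff]
        exact h4
      · rw [floor_nat (zero_le_one.trans h4)]
        exact hn'
    exact_mod_cast Set.ncard_le_ncard this ((Finset.finite_toSet s).subset fun n hn => hn.1)
  exact ⟨h1.trans (key _ (Finset.Subset.refl _)), h2.trans (key _ (Finset.filter_subset _ _))⟩

end Pool.Agent.N141.SG
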