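import Pool.Agent.N141.SG.Joint

/-! # Joint distribution of square roots times integers along sequences of integers -/

set_option autoImplicit false

namespace Pool.Agent.N141.SG

open Finset Filter
open Pool.Agent.H469R2.NK (e norm_e e_add)

theorem sqrt_int (n : ℕ) : IsIntegral ℤ (√(n : ℝ)) := by
  apply IsIntegral.of_pow (n := 2) (by norm_num)
  rw [Real.sq_sqrt (Nat.cast_nonneg n)]
  exact isIntegral_algebraMap (R := ℤ) (A := ℝ) (x := (n : ℤ))

/-- a frequency of the box condition -/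
def Freq (θ : ℝ) : Prop := Irrational θ ∧ IsIntegral ℤ θ

theorem freq_of {g : Fin 20 → ℤ} (hg : g ≠ 0) :
    Freq (∑ j : Fin 20, (g j : ℝ) * √(rad j.succ : ℝ)) := by
  constructor
  · rintro ⟨x, hx⟩
    apply hg
    have hd : (x.den : ℝ) ≠ 0 := by exact_mod_cast x.den_nz
    have h2 := rad_indep (g := Fin.cons (-x.num) (fun j => (x.den : ℤ) * g j)) (by
      rw [Fin.sum_univ_succ]
      simp only [Fin.cons_zero, Fin.cons_succ]
      have h3 : ∑ j : Fin 20, (((x.den : ℤ) * g j : ℤ) : ℝ) * √(rad j.succ : ℝ) =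
          x.den * (x : ℝ) := by
        rw [hx, mul_sum]
        exact sum_congr rfl fun j _ => by push_cast; ring
      rw [h3]
      have h4 : (x.den : ℝ) * (x : ℝ) = x.num := by
        rw [mul_comm]
        exact_mod_cast Rat.mul_den_eq_num x
      rw [h4]
      have : rad 0 = 1 := rfl
      rw [this]
      simp)
    funext j
    have h3 := congrFun h2 j.succ
    simp only [Fin.cons_succ, Pi.zero_apply, mul_eq_zero] at h3
    rcases h3 with h3 | h3
    · exact absurd h3 (by exact_mod_cast x.den_nz)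
    · exact h3
  · refine IsIntegral.sum _ fun j _ => IsIntegral.mul ?_ (sqrt_int _)
    exact isIntegral_algebraMap (R := ℤ) (A := ℝ) (x := g j)

/-- all radicands at once along a sequence of integers -/
theorem tgt_of_freq {s : ℕ → Finset ℕ} {v : ℕ → ℤ}
    (h : ∀ θ : ℝ, Freq θ → SmallTo s (fun n => θ * v n)) : ∀ᶠ N : ℕ in atTop,
      1 / 10000 ^ 22 * ((s N).card : ℝ) ≤ ({n : ℕ | n ∈ s N ∧ Tgt (v n)}.ncard : ℝ) := by
  classical
  have h1 := boxesR (r := 20) (by norm_num) (s := s)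
    (x := fun n j => √(rad j.succ : ℝ) * v n + √(rad j.succ : ℝ) / 2)
    (by
      intro g hg
      have h2 := (h _ (freq_of hg)).add_const (∑ j : Fin 20, (g j : ℝ) * (√(rad j.succ : ℝ) / 2))
      have e1 : (fun n : ℕ => ∑ j : Fin 20, (g j : ℝ) * (√(rad j.succ : ℝ) * v n + √(rad j.succ : ℝ) / 2)) =
          fun n : ℕ => (∑ j : Fin 20, (g j : ℝ) * √(rad j.succ : ℝ)) * v n +
            ∑ j : Fin 20, (g j : ℝ) * (√(rad j.succ : ℝ) / 2) := by
        funext n
        rw [sum_mul, ← sum_add_distrib]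
        exact sum_congr rfl fun j _ => by ring
      rw [e1]
      exact h2) (q := 10000) (by norm_num) (δ := 1 / 10000 ^ 20 - 1 / 10000 ^ 22) (by norm_num)
  filter_upwards [h1] with N hN
  have h2 := hN (fun j => cell j.succ)
  have e1 : (1 / ((10000 : ℕ) : ℝ) ^ 20 - (1 / 10000 ^ 20 - 1 / 10000 ^ 22)) = 1 / 10000 ^ 22 := by
    push_cast
    ring
  rw [e1] at h2
  refine h2.trans ?_
  rw [← Set.ncard_coe_finset]
  have hfin : {m : ℕ | m ∈ s N ∧ Tgt (v m)}.Finite :=
    (Finset.finite_toSet (s N)).subset fun m hm => hm.1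
  have hsub : (((s N).filter (fun n : ℕ => ∀ j : Fin 20, ((10000 : ℕ) : ℤ) ∣
      ⌊((10000 : ℕ) : ℝ) * (√(rad j.succ : ℝ) * v n + √(rad j.succ : ℝ) / 2)⌋ -
        cell j.succ) : Finset ℕ) : Set ℕ) ⊆ {m : ℕ | m ∈ s N ∧ Tgt (v m)} := by
    intro n hn
    rw [Finset.mem_coe, Finset.mem_filter] at hn
    refine ⟨hn.1, fun j hj => ?_⟩
    have hj0 : j ≠ 0 := fun h0 => hj (by rw [h0]; rfl)
    obtain ⟨i, rfl⟩ := Fin.exists_succ_eq.2 hj0
    obtain ⟨z, h5, h6⟩ := of_dvd (hn.2 i)
    refine ⟨z, ?_, ?_⟩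
    · refine le_trans ?_ h5
      apply div_le_div_of_nonneg_right _ (by norm_num)
      linarith
    · exact h6.le
  exact_mod_cast Set.ncard_le_ncard hsub hfin

/-! ## Progressions in intervals -/

theorem e_ne_one {θ : ℝ} (hθ : ∀ k : ℤ, θ ≠ k) : e θ - 1 ≠ 0 := by
  rw [sub_ne_zero]
  intro h
  unfold Pool.Agent.H469R2.NK.e at h
  rw [Complex.exp_eq_one_iff] at h
  obtain ⟨k, hk⟩ := h
  apply hθ k
  have h1 : (((2 * Real.pi * θ : ℝ) : ℂ)) = ((2 * Real.pi * k : ℝ) : ℂ) := by
    have h2 : (((2 * Real.pi * θ : ℝ) : ℂ)) * Complex.I = ((2 * Real.pi * k : ℝ) : ℂ) * Complex.I := by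
      rw [hk]
      push_cast
      ring
    exact mul_right_cancel₀ Complex.I_ne_zero h2
  have h3 : 2 * Real.pi * θ = 2 * Real.pi * k := by exact_mod_cast h1
  have h4 : (2 * Real.pi) ≠ 0 := by positivity
  exact mul_left_cancel₀ h4 h3

/-- geometric sums -/
theorem geo_le {β : ℝ} (hβ : ∀ k : ℤ, β ≠ k) (α : ℝ) (L : ℕ) :
    ‖∑ i ∈ range L, e (α + β * i)‖ ≤ 2 / ‖e β - 1‖ := by
  have hne := e_ne_one hβ
  have hn0 : 0 < ‖e β - 1‖ := norm_pos_iff.2 hne
  have hgeo : (e β - 1) * ∑ i ∈ range L, e (α + β * i) = e (α + β * L) - e α := by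
    induction L with
    | zero => simp
    | succ L ih =>
      rw [sum_range_succ, mul_add, ih]
      have e2 : e (α + β * ((L + 1 : ℕ) : ℝ)) = e β * e (α + β * L) := by
        rw [← e_add]
        congr 1
        push_cast
        ring
      rw [e2]
      ring
  rw [le_div_iff₀ hn0, mul_comm, ← norm_mul, hgeo]
  refine (norm_sub_le _ _).trans ?_
  rw [norm_e, norm_e]
  norm_num

/-- progressions of difference `q` with arbitrary first terms -/
theorem smallTo_prog {q : ℕ} (hq : 1 ≤ q) (m₀ : ℕ → ℕ) {θ : ℝ} (hθ : Irrational θ) :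
    SmallTo (fun L => (range L).image fun i => m₀ L + q * i) (fun n => θ * ((n : ℤ) : ℝ)) := by
  have hq0 : (q : ℝ) ≠ 0 := by
    have : q ≠ 0 := by omega
    exact_mod_cast this
  have hβ : ∀ k : ℤ, θ * q ≠ k := by
    intro k hk
    have h1 : Irrational (θ * q) := by
      have := hθ.mul_natCast (show q ≠ 0 by omega)
      exact this
    exact h1 ⟨k, by rw [hk]; simp⟩
  have hn0 : 0 < ‖e (θ * q) - 1‖ := norm_pos_iff.2 (e_ne_one hβ)
  intro ε hε
  filter_upwards [tendsto_natCast_atTop_atTop.eventually_ge_atTop (2 / ‖e (θ * q) - 1‖ / ε)]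
    with L hL
  have hinj : Function.Injective (fun i => m₀ L + q * i) := by
    intro i j hij
    have h1 : q * i = q * j := by
      have : m₀ L + q * i = m₀ L + q * j := hij
      omega
    exact Nat.eq_of_mul_eq_mul_left (by omega) h1
  rw [card_image_of_injective _ hinj, card_range, sum_image fun i _ j _ h => hinj h]
  have e1 : ∑ i ∈ range L, e (θ * (((m₀ L + q * i : ℕ) : ℤ) : ℝ)) =
      ∑ i ∈ range L, e (θ * m₀ L + θ * q * i) := by
    refine sum_congr rfl fun i _ => ?_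
    congr 1
    push_cast
    ring
  rw [e1]
  refine (geo_le hβ _ L).trans ?_
  rw [div_le_iff₀ hε] at hL
  linarith

/-- **bounded gaps in every residue class** -/
theorem tgt_gaps {q : ℕ} (hq : 1 ≤ q) : ∃ K : ℕ, ∀ M a : ℕ, ∃ m : ℕ, M < m ∧ m ≤ M + K ∧
    m ≡ a [MOD q] ∧ Tgt m := by
  by_contra hcon
  push Not at hcon
  have hfirst : ∀ M a : ℕ, ∃ m : ℕ, M < m ∧ m ≤ M + q ∧ m ≡ a [MOD q] := by
    intro M a
    refine ⟨M + 1 + (a + (q - 1) * (M + 1)) % q, by omega, ?_, ?_⟩
    · have := Nat.mod_lt (a + (q - 1) * (M + 1)) (show 0 < q by omega)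
      omega
    · have h1 : M + 1 + (a + (q - 1) * (M + 1)) % q ≡ M + 1 + (a + (q - 1) * (M + 1)) [MOD q] :=
        Nat.ModEq.add_left _ (Nat.mod_modEq _ _)
      refine h1.trans ?_
      have h2 : M + 1 + (a + (q - 1) * (M + 1)) = a + q * (M + 1) := by
        obtain ⟨p, rfl⟩ : ∃ p, q = p + 1 := ⟨q - 1, by omega⟩
        simp only [Nat.add_sub_cancel]
        ring
      rw [h2]
      have h3 : q * (M + 1) ≡ 0 [MOD q] := (Nat.modEq_zero_iff_dvd.2 (dvd_mul_right _ _))
      simpa using Nat.ModEq.add_left a h3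
  choose Mf af hMa using hcon
  choose m₀ h0a h0b h0c using fun L => hfirst (Mf (q * (L + 1))) (af (q * (L + 1)))
  have h1 := tgt_of_freq (s := fun L => (range L).image fun i => m₀ L + q * i)
    (v := fun n => (n : ℤ)) (fun θ hθ => smallTo_prog hq m₀ hθ.1)
  obtain ⟨L, hL1, hL⟩ := ((eventually_ge_atTop 1).and h1).exists
  have hinj : Function.Injective (fun i => m₀ L + q * i) := by
    intro i j hij
    have h1 : q * i = q * j := by
      have : m₀ L + q * i = m₀ L + q * j := hij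
      omega
    exact Nat.eq_of_mul_eq_mul_left (by omega) h1
  simp only [card_image_of_injective _ hinj, card_range] at hL
  have hpos : (0 : ℝ) < ({n : ℕ | n ∈ (range L).image (fun i => m₀ L + q * i) ∧
      Tgt ((n : ℕ) : ℤ)}.ncard : ℝ) := by
    refine lt_of_lt_of_le ?_ hL
    have : (0 : ℝ) < L := by exact_mod_cast hL1
    positivity
  have hne : {n : ℕ | n ∈ (range L).image (fun i => m₀ L + q * i) ∧ Tgt ((n : ℕ) : ℤ)}.Nonempty := by
    by_contra h
    rw [Set.not_nonempty_iff_eq_empty] at h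
    rw [h] at hpos
    simp at hpos
  obtain ⟨n, hn, hT⟩ := hne
  rw [Finset.mem_image] at hn
  obtain ⟨i, hi, rfl⟩ := hn
  rw [Finset.mem_range] at hi
  refine hMa (q * (L + 1)) (m₀ L + q * i) (by have := h0a L; omega) ?_ ?_ hT
  · have h2 : q * i ≤ q * L := Nat.mul_le_mul_left _ (by omega)
    have h3 := h0b L
    have h4 : q * (L + 1) = q * L + q := by ring
    omega
  · have h3 : q * i ≡ 0 [MOD q] := (Nat.modEq_zero_iff_dvd.2 (dvd_mul_right _ _))
    have h4 := (h0c L).add h3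
    simpa using h4

end Pool.Agent.N141.SG
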