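import Pool.Agent.N141.SG.Seq1
import Pool.Agent.H767R2.Weyl

/-! # Polynomial sequences -/

set_option autoImplicit false

namespace Pool.Agent.N141.SG

open Finset Filter
open Pool.Agent.H469R2.NK (e norm_e e_add)

theorem ee_eq (t : ℝ) : Pool.Agent.H767R2.ee t = e t := by
  unfold Pool.Agent.H767R2.ee Pool.Agent.H469R2.NK.e
  congr 1
  push_cast
  ring

/-- Weyl sums of integral polynomials at irrational frequencies -/
theorem smallTo_poly {Q : Polynomial ℤ} (hQ : 1 ≤ Q.natDegree) {θ : ℝ} (hθ : Irrational θ) :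
    SmallTo (fun N => Ioc N (2 * N)) (fun n => θ * ((Q.eval (n : ℤ) : ℤ) : ℝ)) := by
  set β : Polynomial ℝ := Polynomial.C θ * Q.map (Int.castRingHom ℝ) with hβ
  have hval : ∀ n : ℕ, β.eval (n : ℝ) = θ * ((Q.eval (n : ℤ) : ℤ) : ℝ) := by
    intro n
    rw [hβ, Polynomial.eval_mul, Polynomial.eval_C]
    congr 1
    have := Polynomial.eval_map (Int.castRingHom ℝ) (p := Q) ((n : ℤ) : ℝ)
    have h2 := Polynomial.eval_intCast_map (Int.castRingHom ℝ) Q (n : ℤ)
    simpa using h2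
  have hirr : ∃ i, 1 ≤ i ∧ Irrational (β.coeff i) := by
    refine ⟨Q.natDegree, hQ, ?_⟩
    rw [hβ, Polynomial.coeff_C_mul, Polynomial.coeff_map]
    have h1 : Q.coeff Q.natDegree ≠ 0 := by
      rw [Polynomial.coeff_natDegree, Polynomial.leadingCoeff_ne_zero]
      rintro rfl
      simp at hQ
    simpa using hθ.mul_intCast h1
  have h1 := Pool.Agent.H767R2.weyl_poly β hirr
  rw [Pool.Agent.H767R2.tendsto_cav_iff] at h1
  intro ε hε
  have h2 := (h1.eventually (gt_mem_nhds (show (0 : ℝ) < ε / 8 by positivity)))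
  obtain ⟨M, hM⟩ := eventually_atTop.1 h2
  filter_upwards [eventually_ge_atTop (max M 1)] with N hN
  have hNM : M ≤ N := (le_max_left _ _).trans hN
  have hN1 : 1 ≤ N := (le_max_right _ _).trans hN
  have hNr : (1 : ℝ) ≤ N := by exact_mod_cast hN1
  have key : ∀ K : ℕ, N ≤ K → ‖∑ n ∈ range K, e (θ * ((Q.eval (n : ℤ) : ℤ) : ℝ))‖ ≤ ε / 8 * K := by
    intro K hK
    have h3 := hM K (hNM.trans hK)
    have hK0 : (0 : ℝ) < K := lt_of_lt_of_le (by linarith) (show (N : ℝ) ≤ K by exact_mod_cast hK)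
    rw [div_lt_iff₀ hK0] at h3
    have e1 : ∑ n ∈ range K, e (θ * ((Q.eval (n : ℤ) : ℤ) : ℝ)) =
        ∑ n ∈ range K, Pool.Agent.H767R2.ee (β.eval (n : ℝ)) :=
      sum_congr rfl fun n _ => by rw [ee_eq, hval]
    rw [e1]
    exact h3.le
  have e2 : ∑ n ∈ Ioc N (2 * N), e (θ * ((Q.eval (n : ℤ) : ℤ) : ℝ)) =
      ∑ n ∈ range (2 * N + 1), e (θ * ((Q.eval (n : ℤ) : ℤ) : ℝ)) -
        ∑ n ∈ range (N + 1), e (θ * ((Q.eval (n : ℤ) : ℤ) : ℝ)) := by
    rw [eq_sub_iff_add_eq, add_comm]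
    have h5 : range (2 * N + 1) = range (N + 1) ∪ Ioc N (2 * N) := by
      ext y
      simp only [Finset.mem_range, Finset.mem_union, Finset.mem_Ioc]
      omega
    rw [h5, sum_union]
    rw [Finset.disjoint_left]
    intro y hy hy2
    rw [Finset.mem_range] at hy
    rw [Finset.mem_Ioc] at hy2
    omega
  rw [e2, Nat.card_Ioc, show 2 * N - N = N by omega]
  refine (norm_sub_le _ _).trans ?_
  have k1 := key (2 * N + 1) (by omega)
  have k2 := key (N + 1) (by omega)
  push_cast at k1 k2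
  nlinarith

/-- the values at the integers of `(N, 2 N]` of an integral polynomial -/
theorem tgt_poly {Q : Polynomial ℤ} (hQ : 1 ≤ Q.natDegree) : ∀ᶠ N : ℕ in atTop,
    1 / 10000 ^ 22 * (N : ℝ) ≤
      ({t : ℕ | t ∈ Ioc N (2 * N) ∧ Tgt (Q.eval (t : ℤ))}.ncard : ℝ) := by
  filter_upwards [tgt_of_freq (s := fun N => Ioc N (2 * N)) (v := fun n => Q.eval (n : ℤ))
    (fun θ hθ => smallTo_poly hQ hθ.1)] with N hN
  rw [Nat.card_Ioc, show 2 * N - N = N by omega] at hN
  exact hN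

/-- the values of an integral polynomial with positive leading coefficient are large -/
theorem poly_large {Q : Polynomial ℤ} (hQ : 1 ≤ Q.natDegree) (hl : 0 < Q.leadingCoeff) :
    ∀ᶠ N : ℕ in atTop, ∀ t ∈ Ioc N (2 * N), 1 ≤ Q.eval (t : ℤ) := by
  have h1 : Tendsto (fun x : ℝ => (Q.map (Int.castRingHom ℝ)).eval x) atTop atTop := by
    apply Polynomial.tendsto_atTop_of_leadingCoeff_nonneg
    · rw [Polynomial.degree_map_eq_of_injective (RingHom.injective_int _)]
      rw [Polynomial.natDegree_pos_iff_degree_pos.symm]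
      omega
    · rw [Polynomial.leadingCoeff_map_of_injective (RingHom.injective_int _)]
      have : (0 : ℝ) ≤ (Q.leadingCoeff : ℝ) := by exact_mod_cast hl.le
      simpa using this
  have h2 := (h1.comp tendsto_natCast_atTop_atTop).eventually_ge_atTop 1
  obtain ⟨M, hM⟩ := eventually_atTop.1 h2
  filter_upwards [eventually_ge_atTop M] with N hN t ht
  have h3 := hM t (hN.trans (Finset.mem_Ioc.1 ht).1.le)
  have h4 := Polynomial.eval_intCast_map (Int.castRingHom ℝ) Q (t : ℤ)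
  simp only [Function.comp_apply] at h3
  have h5 : (Q.map (Int.castRingHom ℝ)).eval (t : ℝ) = ((Q.eval (t : ℤ) : ℤ) : ℝ) := by
    simpa using h4
  rw [h5] at h3
  exact_mod_cast h3

end Pool.Agent.N141.SG
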