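import Pool.Agent.N141.SG.Seq1
import Pool.Agent.Y961.JR.PrimesFix

/-! # Primes in residue classes -/

set_option autoImplicit false

namespace Pool.Agent.N141.SG

open Finset Filter
open Pool.Agent.H469R2.NK (e norm_e e_add)
open Pool.Agent.W147.PS (ev_pow)
open Pool.Agent.TH915.PW (prime_bound abel_bound card_primes)
open Pool.Agent.Y961.JR (mangoldtJ dio_ev)
open Pool.Agent.N666.VE (primes)

/-- Liouville's inequality -/
theorem liouville {θ : ℝ} (hθ : Irrational θ) (ha : IsAlgebraic ℤ θ) : ∃ τ : ℝ, 0 ≤ τ ∧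
    ∃ c : ℝ, 0 < c ∧ ∀ (H : ℕ) (h : Fin 1 → ℤ), h ≠ 0 → (∀ j, |h j| ≤ H) → ∀ m : ℤ,
      c * (H : ℝ) ^ (-τ) ≤ |∑ j, (h j : ℝ) * (fun _ : Fin 1 => θ) j - m| := by
  obtain ⟨f, f0, fa⟩ := ha
  obtain ⟨A, hA, hL⟩ := Liouville.exists_pos_real_of_irrational_root hθ f0 (by
    rw [Polynomial.eval_map_algebraMap]
    exact fa)
  refine ⟨f.natDegree, Nat.cast_nonneg _, 1 / A, by positivity, ?_⟩
  intro H h hh hH m
  have hk : h 0 ≠ 0 := by
    intro h0
    apply hh
    funext j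
    rw [Subsingleton.elim j 0, h0]
    rfl
  obtain ⟨b, hb⟩ : ∃ b : ℕ, (h 0).natAbs = b + 1 := ⟨(h 0).natAbs - 1, by
    have := Int.natAbs_pos.2 hk
    omega⟩
  have hbr : ((b : ℝ) + 1) = |(h 0 : ℝ)| := by
    have h1 : (((h 0).natAbs : ℕ) : ℝ) = |(h 0 : ℝ)| := by
      rw [Nat.cast_natAbs]
      push_cast
      rfl
    rw [← h1, hb]
    push_cast
    ring
  have hb1 : (1 : ℝ) ≤ (b : ℝ) + 1 := by
    have : (0 : ℝ) ≤ b := Nat.cast_nonneg _
    linarith
  have hbH : ((b : ℝ) + 1) ≤ H := by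
    rw [hbr]
    exact_mod_cast hH 0
  rw [Fin.sum_univ_one]
  have h2 := hL ((h 0).sign * m) b
  have h3 : |θ - (((h 0).sign * m : ℤ) : ℝ) / (b + 1)| * (b + 1) = |(h 0 : ℝ) * θ - m| := by
    have h4 : ((h 0 : ℤ) : ℝ) = ((h 0).sign : ℝ) * (b + 1) := by
      have h5 : (h 0).sign * |h 0| = h 0 := by
        rw [Int.abs_eq_natAbs]
        exact Int.sign_mul_natAbs (h 0)
      have h6 : (((h 0).sign : ℤ) : ℝ) * (((h 0).natAbs : ℕ) : ℝ) = ((h 0 : ℤ) : ℝ) := by
        rw [Nat.cast_natAbs]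
        exact_mod_cast h5
      rw [← h6, hb]
      push_cast
      ring
    have h7 : ((h 0).sign : ℝ) * ((h 0).sign : ℝ) = 1 := by
      have : (h 0).sign * (h 0).sign = 1 := by
        rcases lt_or_gt_of_ne hk with h8 | h8
        · rw [Int.sign_eq_neg_one_of_neg h8]
          norm_num
        · rw [Int.sign_eq_one_of_pos h8]
          norm_num
      exact_mod_cast this
    have h8 : |((h 0).sign : ℝ)| = 1 := by
      have := abs_mul_abs_self ((h 0).sign : ℝ)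
      rw [h7] at this
      nlinarith [abs_nonneg ((h 0).sign : ℝ)]
    have h9 : (b : ℝ) + 1 ≠ 0 := by positivity
    calc |θ - (((h 0).sign * m : ℤ) : ℝ) / (b + 1)| * (b + 1)
        = |θ - (((h 0).sign * m : ℤ) : ℝ) / (b + 1)| * |(b : ℝ) + 1| := by
          rw [abs_of_pos (show (0 : ℝ) < (b : ℝ) + 1 by linarith)]
      _ = |θ * (b + 1) - ((h 0).sign : ℝ) * m| := by
          rw [← abs_mul]
          congr 1
          push_cast
          field_simp
      _ = |((h 0).sign : ℝ)| * |θ * (b + 1) - ((h 0).sign : ℝ) * m| := by rw [h8, one_mul]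
      _ = |(h 0 : ℝ) * θ - m| := by
          rw [← abs_mul, h4]
          congr 1
          linear_combination (-(m : ℝ)) * h7
  have h4 : 1 / A * ((b : ℝ) + 1) ^ (-(f.natDegree : ℝ)) ≤
      |θ - (((h 0).sign * m : ℤ) : ℝ) / (b + 1)| := by
    rw [Real.rpow_neg (by linarith), Real.rpow_natCast]
    have h5 : 0 < ((b : ℝ) + 1) ^ f.natDegree := by positivity
    rw [one_div, ← mul_inv, inv_le_iff_one_le_mul₀ (by positivity)]
    refine h2.trans (le_of_eq ?_)
    ring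
  have h5 : 1 / A * (H : ℝ) ^ (-(f.natDegree : ℝ)) ≤
      1 / A * ((b : ℝ) + 1) ^ (-(f.natDegree : ℝ)) := by
    apply mul_le_mul_of_nonneg_left _ (by positivity)
    exact Real.rpow_le_rpow_of_nonpos (by linarith) hbH (by
      have : (0 : ℝ) ≤ f.natDegree := Nat.cast_nonneg _
      linarith)
  refine h5.trans (h4.trans ?_)
  rw [← h3]
  exact le_mul_of_one_le_right (abs_nonneg _) hb1

/-- the exponential sums over the primes -/
theorem prime_sum {θ : ℝ} (hθ : Irrational θ) (ha : IsAlgebraic ℤ θ) : ∃ η : ℝ, 0 < η ∧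
    ∀ᶠ N : ℕ in atTop, ‖∑ p ∈ primes N, e (θ * p)‖ ≤ (N : ℝ) ^ (1 - η) := by
  classical
  obtain ⟨τ, hτ, hc⟩ := liouville hθ ha
  set ε : ℝ := 1 / (τ + 2) with hε
  have hε0 : 0 < ε := by positivity
  have hε1 : ε ≤ 1 / 2 := one_div_le_one_div_of_le (by norm_num) (by linarith)
  have hετ : ε * (τ + 1) < 1 := by
    rw [hε, div_mul_eq_mul_div, one_mul, div_lt_one (by linarith)]
    linarith
  have hD := dio_ev τ ε hτ hε0 hετ (fun _ : Fin 1 => θ) hc
  have hM := mangoldtJ 1 ε hε0 hε1 1 le_rfl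
  set κ : ℝ := 9 / 20 * (ε / 8) with hκ
  have hκ0 : 0 < κ := by positivity
  have hκ1 : κ < 1 / 4 := by
    rw [hκ]
    linarith
  have hlogev : ∀ᶠ Z : ℝ in atTop, Real.log (2 * Z) ≤ Z ^ (1 / 4 : ℝ) := by
    have e1 := (isLittleO_log_rpow_atTop (show (0 : ℝ) < 1 / 8 by norm_num)).def
      (show (0 : ℝ) < 1 by norm_num)
    have e2 : Tendsto (fun Z : ℝ => 2 * Z) atTop atTop := tendsto_id.const_mul_atTop (by norm_num)
    filter_upwards [e2.eventually e1, eventually_ge_atTop (1 : ℝ),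
      ev_pow (1 / 8) (1 / 4) (2 ^ (1 / 8 : ℝ)) (by norm_num)] with Z e3 e4 e5
    rw [Real.norm_eq_abs, Real.norm_eq_abs, abs_of_nonneg (Real.log_nonneg (by linarith)),
      abs_of_nonneg (by positivity), one_mul, Real.mul_rpow (by norm_num) (by linarith)] at e3
    linarith
  refine ⟨κ / 2, by positivity, ?_⟩
  have hev : ∀ᶠ Z : ℝ in atTop, Real.log (2 * Z) ≤ Z ^ (1 / 4 : ℝ) ∧ 4 ≤ Z ∧
      4 * Z ^ (3 / 4 : ℝ) ≤ Z ^ (1 - κ) ∧ 5 * Z ^ (1 - κ) ≤ Z ^ (1 - κ / 2) := by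
    filter_upwards [hlogev, eventually_ge_atTop (4 : ℝ), ev_pow (3 / 4) (1 - κ) 4 (by linarith),
      ev_pow (1 - κ) (1 - κ / 2) 5 (by linarith)] with Z h1 h2 h4 h5
    exact ⟨h1, h2, h4, h5⟩
  have hall := ((hev.and hM).and hD)
  filter_upwards [tendsto_natCast_atTop_atTop.eventually hall] with N hN
  obtain ⟨⟨⟨hlog, hN4, hp1, hp2⟩, hM1⟩, hD1⟩ := hN
  have hN4' : 4 ≤ N := by exact_mod_cast hN4
  have hN0 : (0 : ℝ) < N := by linarith
  have hN1 : (1 : ℝ) ≤ N := by linarith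
  have hvm := hM1 (fun _ => θ) hD1 (fun _ => 1) (by
    intro h
    have := congrFun h 0
    simp at this) (fun _ => by
      rw [Int.cast_one, abs_one]
      exact Real.one_le_rpow hN1 (by positivity)) 1 le_rfl (by
      rw [Nat.cast_one]
      exact Real.one_le_rpow hN1 (by positivity)) 0
  set E : ℝ := 5 * (N : ℝ) ^ (1 - κ) with hE
  set A : ℕ → ℂ := fun n => (((if n.Prime then Real.log n else 0 : ℝ)) : ℂ) * e (θ * n) with hA
  have hcls : ∀ t : ℕ, N < t → t ≤ 2 * N → ‖∑ n ∈ Ioc N t, A n‖ ≤ E := by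
    intro t ht1 ht2
    have htr : (t : ℝ) ≤ 2 * N := by exact_mod_cast ht2
    have ht0 : 1 ≤ t := by omega
    have htlog : 2 * √(t : ℝ) * Real.log t ≤ (N : ℝ) ^ (1 - κ) := by
      have h7 : √(t : ℝ) ≤ 2 * (N : ℝ) ^ (1 / 2 : ℝ) := by
        rw [← Real.sqrt_eq_rpow]
        calc √(t : ℝ) ≤ √(2 ^ 2 * N) := Real.sqrt_le_sqrt (by linarith)
          _ = 2 * √N := by rw [Real.sqrt_mul (by norm_num), Real.sqrt_sq (by norm_num)]
      have h8 : Real.log (t : ℝ) ≤ (N : ℝ) ^ (1 / 4 : ℝ) := by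
        refine le_trans ?_ hlog
        apply Real.log_le_log _ htr
        exact_mod_cast ht0
      have h9 : 0 ≤ Real.log (t : ℝ) := Real.log_nonneg (by exact_mod_cast ht0)
      calc 2 * √(t : ℝ) * Real.log t ≤ 2 * (2 * (N : ℝ) ^ (1 / 2 : ℝ)) * (N : ℝ) ^ (1 / 4 : ℝ) := by
            gcongr
        _ = 4 * ((N : ℝ) ^ (1 / 2 : ℝ) * (N : ℝ) ^ (1 / 4 : ℝ)) := by ring
        _ = 4 * (N : ℝ) ^ (3 / 4 : ℝ) := by rw [← Real.rpow_add hN0]; norm_num
        _ ≤ _ := hp1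
    have h10 := hvm t (by rw [Nat.floor_natCast]; exact ht1.le) htr
    rw [Nat.floor_natCast] at h10
    have e1 : ∑ n ∈ Ioc N t, ((ArithmeticFunction.vonMangoldt n : ℝ) : ℂ) *
        e (((∑ i : Fin 1, (((fun _ : Fin 1 => (1 : ℤ)) i : ℤ) : ℝ) * θ) / ((1 : ℕ) : ℝ) +
          ((0 : ℤ) : ℝ) / ((1 : ℕ) : ℝ)) * n) =
        ∑ n ∈ Ioc N t, ((ArithmeticFunction.vonMangoldt n : ℝ) : ℂ) * e (θ * n) := by
      refine sum_congr rfl fun n _ => ?_
      congr 2
      simp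
    rw [e1] at h10
    have h2 := prime_bound N t ht0 (fun n => e (θ * n)) (fun n => (norm_e _).le) _ h10
    refine h2.trans ?_
    rw [hE]
    linarith
  set w : ℕ → ℝ := fun n => (Real.log n)⁻¹ with hw
  have hlogpos : ∀ n : ℕ, N < n → 1 ≤ Real.log n := by
    intro n hn
    rw [Real.le_log_iff_exp_le (by
      have : 0 < n := by omega
      exact_mod_cast this)]
    have h1 := Real.exp_one_lt_d9
    have h2 : (5 : ℝ) ≤ n := by exact_mod_cast (by omega : 5 ≤ n)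
    linarith
  have hab := abel_bound w A N E (fun n hn => by
      have := hlogpos n hn
      rw [hw]
      positivity) (fun n hn => by
      have h1 := hlogpos n hn
      rw [hw]
      simp only
      apply inv_anti₀ (by linarith)
      apply Real.log_le_log
      · have : 0 < n := by omega
        exact_mod_cast this
      · push_cast
        linarith) (2 * N) (by omega) (fun t ht1 ht2 => hcls t ht1 ht2)
  have hsum : ∑ p ∈ primes N, e (θ * p) = ∑ i ∈ Ioc N (2 * N), (w i : ℂ) * A i := by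
    rw [primes, sum_filter]
    refine sum_congr rfl fun n hn => ?_
    have hn0 := hlogpos n (Finset.mem_Ioc.mp hn).1
    rw [hA, hw]
    simp only
    by_cases h2 : n.Prime
    · rw [if_pos h2, if_pos h2, ← mul_assoc]
      rw [← Complex.ofReal_mul, inv_mul_cancel₀ (by linarith), Complex.ofReal_one, one_mul]
    · rw [if_neg h2, if_neg h2]
      simp
  rw [hsum]
  refine hab.trans ?_
  have hw1 : w (N + 1) ≤ 1 := by
    rw [hw]
    exact inv_le_one_of_one_le₀ (hlogpos (N + 1) (by omega))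
  have hE0 : 0 ≤ E := by positivity
  calc w (N + 1) * E ≤ 1 * E := mul_le_mul_of_nonneg_right hw1 hE0
    _ = 5 * (N : ℝ) ^ (1 - κ) := by rw [one_mul]
    _ ≤ _ := hp2

end Pool.Agent.N141.SG
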