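import Pool.Agent.N141.SG.Seq3

/-! # Primes in residue classes: all radicands at once -/

set_option autoImplicit false

namespace Pool.Agent.N141.SG

open Finset Filter
open Pool.Agent.H469R2.NK (e norm_e e_add)
open Pool.Agent.W147.PS (ev_pow)
open Pool.Agent.TH915.PW (class_bound card_primes)
open Pool.Agent.N666.VE (primes)

/-- the primes of a residue class -/
def clPrimes (d b N : ℕ) : Finset ℕ :=
  ((Ioc N (2 * N)).filter Nat.Prime).filter (fun p => p ≡ b [MOD d])

theorem smallTo_class {d b : ℕ} (hd : 0 < d) (hb : b.Coprime d) {θ : ℝ} (hθ : Irrational θ)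
    (ha : IsAlgebraic ℤ θ) : SmallTo (clPrimes d b) (fun p => θ * ((p : ℤ) : ℝ)) := by
  classical
  have hd0 : (d : ℝ) ≠ 0 := by exact_mod_cast hd.ne'
  have hirr : ∀ j : ℕ, Irrational (θ + (j : ℝ) / d) := by
    intro j
    have h1 := hθ.add_ratCast ((j : ℚ) / d)
    push_cast at h1
    exact h1
  have halg : ∀ j : ℕ, IsAlgebraic ℤ (θ + (j : ℝ) / d) := by
    intro j
    refine ha.add ?_
    refine ⟨Polynomial.C (d : ℤ) * Polynomial.X - Polynomial.C (j : ℤ), ?_, ?_⟩
    · intro h0
      have h1 := congrArg (fun Q : Polynomial ℤ => Q.coeff 1) h0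
      simp at h1
      omega
    · simp
      field_simp
      ring
  choose ηf hη0 hη using fun j => prime_sum (hirr j) (halg j)
  have hne : (range d).Nonempty := ⟨0, Finset.mem_range.2 hd⟩
  set η : ℝ := (range d).inf' hne ηf with hηd
  have hη1 : 0 < η := by
    rw [hηd, Finset.lt_inf'_iff]
    exact fun j _ => hη0 j
  have hle : ∀ j ∈ range d, η ≤ ηf j := fun j hj => Finset.inf'_le _ hj
  have hall : ∀ᶠ N : ℕ in atTop, ∀ j ∈ range d,
      ‖∑ p ∈ primes N, e ((θ + (j : ℝ) / d) * p)‖ ≤ (N : ℝ) ^ (1 - ηf j) :=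
    (Filter.eventually_all_finset (range d)).2 fun j _ => hη j
  refine smallTo_of hη1 ?_ ?_
  · filter_upwards [hall, eventually_ge_atTop 1] with N hN hN1
    have hNr : (1 : ℝ) ≤ N := by exact_mod_cast hN1
    have h1 := class_bound (primes N) (fun p => e (θ * ((p : ℤ) : ℝ))) d hd b ((N : ℝ) ^ (1 - η)) (by
      intro j hj
      have h2 := hN j (Finset.mem_range.2 hj)
      have e1 : ∑ n ∈ primes N, e (θ * ((n : ℤ) : ℝ)) * e ((j : ℝ) / d * n) =
          ∑ p ∈ primes N, e ((θ + (j : ℝ) / d) * p) := by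
        refine sum_congr rfl fun n _ => ?_
        rw [← e_add]
        congr 1
        push_cast
        ring
      rw [e1]
      refine h2.trans (Real.rpow_le_rpow_of_exponent_le hNr ?_)
      have := hle j (Finset.mem_range.2 hj)
      linarith)
    exact h1
  · have h1 := card_primes d hd b hb 1 (η / 2) one_pos le_rfl (by positivity)
    filter_upwards [tendsto_natCast_atTop_atTop.eventually h1] with N hN
    refine hN.trans ?_
    have e1 : ⌊(1 + 1) * (N : ℝ)⌋₊ = 2 * N := by
      have : (1 + 1) * (N : ℝ) = ((2 * N : ℕ) : ℝ) := by push_cast; ring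
      rw [this, Nat.floor_natCast]
    rw [e1, Nat.floor_natCast]
    apply le_of_eq
    congr 2
    unfold clPrimes
    rw [Finset.filter_filter]

/-- **primes of a residue class** -/
theorem tgt_primes {d b : ℕ} (hd : 0 < d) (hb : b.Coprime d) : ∀ᶠ N : ℕ in atTop,
    1 / 10000 ^ 22 * ((clPrimes d b N).card : ℝ) ≤
      ({p : ℕ | p ∈ clPrimes d b N ∧ Tgt ((p : ℕ) : ℤ)}.ncard : ℝ) :=
  tgt_of_freq (s := clPrimes d b) (v := fun n => (n : ℤ))
    (fun θ hθ => smallTo_class hd hb hθ.1 hθ.2.isAlgebraic)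

end Pool.Agent.N141.SG
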