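import Pool.Agent.N141.SG.Near
import Pool.Agent.N141.SG.Seq2
import Pool.Agent.N141.SG.Seq4

/-! # One number of points: sequences of integers -/

set_option autoImplicit false

namespace Pool.Agent.N141.SG

open Finset Filter
open Pool.Agent.H469R2.NK (e norm_e e_add)
open Pool.Agent.Y961.JR (discJ)
open Pool.Agent.TH885.NW (loW upW win_len exp_near2)
open Pool.Agent.Results.MP_d03834_ag.EffectiveEveryField (Open generic)

/-- cells modulo one, upper bounds -/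
theorem cellsU {s : ℕ → Finset ℕ} {x : ℕ → ℝ}
    (h : ∀ k : ℤ, k ≠ 0 → SmallTo s (fun n => (k : ℝ) * x n))
    {q : ℕ} (hq : 1 ≤ q) {δ : ℝ} (hδ : 0 < δ) : ∀ᶠ N : ℕ in atTop, ∀ i : ℤ,
      (((s N).filter (fun n => (q : ℤ) ∣ ⌊(q : ℝ) * x n⌋ - i)).card : ℝ) ≤
        (1 / (q : ℝ) + δ) * (s N).card := by
  classical
  have hq0 : (0 : ℝ) < q := by exact_mod_cast hq
  obtain ⟨K, hK⟩ := exists_nat_ge (3 * (q : ℝ) + 1 + 14 * (q : ℝ) / δ)
  have hp0 : 0 ≤ 14 * (q : ℝ) / δ := by positivity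
  have hK0 : (0 : ℝ) < K := lt_of_lt_of_le (by positivity) hK
  have hKn : 1 ≤ K := by exact_mod_cast hK0
  have h3q : 3 * q ≤ K := by
    have : 3 * (q : ℝ) ≤ K := by linarith
    exact_mod_cast this
  have hKδ : (q : ℝ) * (7 / K) ≤ δ / 2 := by
    have h1 : 14 * (q : ℝ) / δ ≤ K := by linarith
    rw [div_le_iff₀ hδ] at h1
    rw [← mul_div_assoc, div_le_iff₀ hK0]
    nlinarith
  set E : ℝ := δ / 2 / ((q : ℝ) * (K : ℝ) ^ 3) with hE
  have hE0 : 0 < E := by positivity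
  have hev : ∀ᶠ N : ℕ in atTop, ∀ k ∈ Finset.Ioo (-((K : ℤ) ^ 3)) ((K : ℤ) ^ 3), k ≠ 0 →
      ‖∑ n ∈ s N, e ((k : ℝ) * x n)‖ ≤ E * (s N).card := by
    rw [Filter.eventually_all_finset]
    intro g _
    by_cases hg : g ≠ 0
    · filter_upwards [h g hg E hE0] with N hN _
      exact hN
    · exact Eventually.of_forall fun N hg' => absurd hg' hg
  filter_upwards [hev] with N hN i
  have h1 := discJ (r := 1) le_rfl (s N) (fun n _ => (q : ℝ) * x n) K q
    hKn hq h3q (E * (s N).card) (by positivity) (by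
      intro g hg hgK
      have h3 := hN (g 0) (by
        have h2 := hgK 0
        rw [Finset.mem_Ioo, ← abs_lt, Int.abs_eq_natAbs]
        exact_mod_cast h2) (by
          intro h0
          apply hg
          funext k
          have : k = 0 := Subsingleton.elim _ _
          rw [this, h0]
          rfl)
      refine le_trans (le_of_eq ?_) h3
      congr 1
      refine sum_congr rfl fun n _ => ?_
      congr 1
      rw [Fin.sum_univ_one]
      field_simp) (fun _ => i)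
  have h2 : ((s N).filter (fun n => ∀ _ : Fin 1, (q : ℤ) ∣ ⌊(q : ℝ) * x n⌋ - i)) =
      (s N).filter (fun n => (q : ℤ) ∣ ⌊(q : ℝ) * x n⌋ - i) := by
    refine Finset.filter_congr fun n _ => ?_
    exact ⟨fun h => h 0, fun h _ => h⟩
  rw [h2] at h1
  have h3 := (abs_le.1 h1).2
  have h4 : (q : ℝ) ^ 1 * ((3 * ((1 : ℕ) : ℝ) + 4) * (s N).card / K + (K : ℝ) ^ (3 * 1) * (E * (s N).card)) =
      ((q : ℝ) * (7 / K) + (q : ℝ) * (K : ℝ) ^ 3 * E) * (s N).card := by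
    push_cast
    norm_num
    ring
  rw [h4] at h3
  have h5 : (q : ℝ) * (K : ℝ) ^ 3 * E = δ / 2 := by
    rw [hE]
    field_simp
  rw [h5] at h3
  have h6 : ((q : ℝ) * (7 / K) + δ / 2) * (s N).card ≤ δ * (s N).card := by
    refine mul_le_mul_of_nonneg_right (by linarith) (Nat.cast_nonneg _)
  have h7 : (1 / (q : ℝ) + δ) * (s N).card = (s N).card / (q : ℝ) ^ 1 + δ * (s N).card := by ring
  rw [h7]
  linarith

/-- arcs -/
theorem arc1 {s : ℕ → Finset ℕ} {x : ℕ → ℝ}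
    (h : ∀ k : ℤ, k ≠ 0 → SmallTo s (fun n => (k : ℝ) * x n))
    {lo hi : ℝ} (hlh : lo ≤ hi) {δ : ℝ} (hδ : 0 < δ) : ∀ᶠ N : ℕ in atTop,
      ({n : ℕ | n ∈ s N ∧ ∃ z : ℤ, lo ≤ x n - z ∧ x n - z ≤ hi}.ncard : ℝ) ≤
        (hi - lo + δ) * (s N).card := by
  classical
  obtain ⟨q, hq⟩ := exists_nat_ge (4 / δ + 1)
  have hp0 : 0 ≤ 4 / δ := by positivity
  have hq0 : (0 : ℝ) < q := by linarith
  have hqn : 1 ≤ q := by exact_mod_cast hq0
  have hqδ : 2 ≤ δ / 2 * q := by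
    have h1 : 4 / δ ≤ q := by linarith
    rw [div_le_iff₀ hδ] at h1
    linarith
  set ℓ : ℝ := hi - lo + δ / 2 with hℓ
  have hℓ0 : 0 < ℓ := by rw [hℓ]; linarith
  set δ' : ℝ := δ / 2 / ((q : ℝ) * ℓ) with hδ'
  have hδ'0 : 0 < δ' := by positivity
  filter_upwards [cellsU h hqn hδ'0] with N hN
  set I : Finset ℤ := Finset.Icc ⌊(q : ℝ) * lo⌋ ⌊(q : ℝ) * hi⌋ with hI
  have hmono : ⌊(q : ℝ) * lo⌋ ≤ ⌊(q : ℝ) * hi⌋ :=
    Int.floor_le_floor (mul_le_mul_of_nonneg_left hlh hq0.le)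
  have hIc : (I.card : ℝ) ≤ q * ℓ := by
    rw [hI, Int.card_Icc]
    have h1 : ((⌊(q : ℝ) * hi⌋ + 1 - ⌊(q : ℝ) * lo⌋).toNat : ℝ) =
        ((⌊(q : ℝ) * hi⌋ + 1 - ⌊(q : ℝ) * lo⌋ : ℤ) : ℝ) := by
      have : (((⌊(q : ℝ) * hi⌋ + 1 - ⌊(q : ℝ) * lo⌋).toNat : ℤ)) =
        (⌊(q : ℝ) * hi⌋ + 1 - ⌊(q : ℝ) * lo⌋ : ℤ) :=
        Int.toNat_of_nonneg (by omega)
      exact_mod_cast congrArg (fun z : ℤ => (z : ℝ)) this
    rw [h1]
    push_cast
    have h2 := Int.floor_le ((q : ℝ) * hi)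
    have h3 := Int.lt_floor_add_one ((q : ℝ) * lo)
    rw [hℓ]
    linarith
  have hsub : {n : ℕ | n ∈ s N ∧ ∃ z : ℤ, lo ≤ x n - z ∧ x n - z ≤ hi} ⊆
      ((I.biUnion fun i => (s N).filter (fun n => (q : ℤ) ∣ ⌊(q : ℝ) * x n⌋ - i) :
        Finset ℕ) : Set ℕ) := by
    rintro n ⟨hn, z, hz1, hz2⟩
    rw [Finset.mem_coe]
    have hfl : ⌊(q : ℝ) * x n⌋ = ⌊(q : ℝ) * (x n - z)⌋ + q * z := by
      have : (q : ℝ) * x n = (q : ℝ) * (x n - z) + ((q * z : ℤ) : ℝ) := by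
        push_cast
        ring
      rw [this, Int.floor_add_intCast]
    refine Finset.mem_biUnion.2 ⟨⌊(q : ℝ) * (x n - z)⌋, ?_, ?_⟩
    · rw [hI, Finset.mem_Icc]
      exact ⟨Int.floor_le_floor (mul_le_mul_of_nonneg_left hz1 hq0.le),
        Int.floor_le_floor (mul_le_mul_of_nonneg_left hz2 hq0.le)⟩
    · rw [Finset.mem_filter]
      refine ⟨hn, ?_⟩
      rw [hfl]
      exact ⟨z, by ring⟩
  have h1 : ({n : ℕ | n ∈ s N ∧ ∃ z : ℤ, lo ≤ x n - z ∧ x n - z ≤ hi}.ncard : ℝ) ≤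
      ((I.biUnion fun i => (s N).filter (fun n => (q : ℤ) ∣ ⌊(q : ℝ) * x n⌋ - i)).card : ℝ) := by
    have := Set.ncard_le_ncard hsub (Finset.finite_toSet _)
    rw [Set.ncard_coe_finset] at this
    exact_mod_cast this
  refine h1.trans ?_
  have hD0 : 0 ≤ (1 / (q : ℝ) + δ') * (s N).card := by positivity
  calc ((I.biUnion fun i => (s N).filter (fun n => (q : ℤ) ∣ ⌊(q : ℝ) * x n⌋ - i)).card : ℝ)
      ≤ ∑ i ∈ I, (((s N).filter (fun n => (q : ℤ) ∣ ⌊(q : ℝ) * x n⌋ - i)).card : ℝ) := by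
        exact_mod_cast Finset.card_biUnion_le
    _ ≤ ∑ i ∈ I, ((1 / (q : ℝ) + δ') * (s N).card) := Finset.sum_le_sum fun i _ => hN i
    _ = I.card * ((1 / (q : ℝ) + δ') * (s N).card) := by rw [Finset.sum_const, nsmul_eq_mul]
    _ ≤ (q * ℓ) * ((1 / (q : ℝ) + δ') * (s N).card) := mul_le_mul_of_nonneg_right hIc hD0
    _ = (ℓ + (q : ℝ) * ℓ * δ') * (s N).card := by field_simp
    _ = (hi - lo + δ) * (s N).card := by
        have h5 : (q : ℝ) * ℓ * δ' = δ / 2 := by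
          rw [hδ']
          field_simp
        rw [h5, hℓ]
        ring

/-- the exponential sums over the sequence are small at all irrational algebraic frequencies -/
def AlgSmall (s : ℕ → Finset ℕ) (v : ℕ → ℤ) : Prop :=
  ∀ θ : ℝ, Irrational θ → IsAlgebraic ℤ θ → SmallTo s (fun t => θ * v t)

/-- the bad members of a sequence of integers -/
theorem count_seq {s : ℕ → Finset ℕ} {v : ℕ → ℤ} (h : AlgSmall s v) {α : ℝ}
    (hirr : Irrational α) (halg : IsAlgebraic ℤ α) (β : ℝ) {lo hi : ℝ} (hlh : lo ≤ hi)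
    {bad : ℕ → Prop}
    (hbad : ∀ m : ℕ, 1 ≤ m → bad m → ∃ z : ℤ, lo ≤ α * m + β - z ∧ α * m + β - z ≤ hi)
    {δ : ℝ} (hδ : 0 < δ) : ∀ᶠ N : ℕ in atTop,
      ({t : ℕ | t ∈ s N ∧ ∃ m : ℕ, 1 ≤ m ∧ (m : ℤ) = v t ∧ bad m}.ncard : ℝ) ≤
        (hi - lo + δ) * (s N).card := by
  have h1 : ∀ k : ℤ, k ≠ 0 → SmallTo s (fun t => (k : ℝ) * (α * v t + β)) := by
    intro k hk
    have h2 := (h ((k : ℝ) * α) (hirr.intCast_mul hk)
      ((isAlgebraic_intCast k).mul halg)).add_const (k * β)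
    have e1 : (fun t => (k : ℝ) * (α * v t + β)) = fun t => (k : ℝ) * α * v t + k * β := by
      funext t
      ring
    rw [e1]
    exact h2
  filter_upwards [arc1 h1 hlh hδ] with N hN
  refine le_trans ?_ hN
  have hsub : {t : ℕ | t ∈ s N ∧ ∃ m : ℕ, 1 ≤ m ∧ (m : ℤ) = v t ∧ bad m} ⊆
      {n : ℕ | n ∈ s N ∧ ∃ z : ℤ, lo ≤ α * v n + β - z ∧ α * v n + β - z ≤ hi} := by
    rintro t ⟨ht, m, hm, hmv, hb⟩
    obtain ⟨z, h3, h4⟩ := hbad m hm hb
    refine ⟨ht, z, ?_, ?_⟩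
    · rw [← hmv]
      exact_mod_cast h3
    · rw [← hmv]
      exact_mod_cast h4
  exact_mod_cast Set.ncard_le_ncard hsub ((Finset.finite_toSet (s N)).subset fun n hn => hn.1)

/-- nothing is bad -/
theorem count_zero {s : ℕ → Finset ℕ} {v : ℕ → ℤ} {bad : ℕ → Prop}
    (hbad : ∀ m : ℕ, 1 ≤ m → ¬ bad m) {δ : ℝ} (hδ : 0 ≤ δ) (N : ℕ) :
      ({t : ℕ | t ∈ s N ∧ ∃ m : ℕ, 1 ≤ m ∧ (m : ℤ) = v t ∧ bad m}.ncard : ℝ) ≤
        δ * (s N).card := by
  have : {t : ℕ | t ∈ s N ∧ ∃ m : ℕ, 1 ≤ m ∧ (m : ℤ) = v t ∧ bad m} = ∅ := by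
    rw [Set.eq_empty_iff_forall_notMem]
    rintro t ⟨_, m, hm, _, hb⟩
    exact hbad m hm hb
  rw [this, Set.ncard_empty, Nat.cast_zero]
  positivity

theorem alg_inv_sqrt {n : ℕ} (hn : 1 ≤ n) : IsAlgebraic ℤ (√(n : ℝ))⁻¹ := by
  refine ⟨Polynomial.C (n : ℤ) * Polynomial.X ^ 2 - Polynomial.C 1, ?_, ?_⟩
  · intro h0
    have h1 := congrArg (fun Q : Polynomial ℤ => Q.coeff 2) h0
    simp [Polynomial.coeff_one] at h1
    omega
  · have h1 : (√(n : ℝ)) ^ 2 = n := Real.sq_sqrt (Nat.cast_nonneg n)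
    have h2 : (n : ℝ) ≠ 0 := by
      have : n ≠ 0 := by omega
      exact_mod_cast this
    simp only [map_sub, map_mul, map_pow, Polynomial.aeval_X, map_natCast, map_one]
    rw [inv_pow, h1, mul_inv_cancel₀ h2, sub_self]

/-- **near-uniform vectors, sequences of sums** -/
theorem near_seq {n : ℕ} (hn : 10 ≤ n) {s : ℕ → Finset ℕ} {v : ℕ → ℤ} (h : AlgSmall s v)
    {δ : ℝ} (hδ : 0 < δ) : ∀ᶠ N : ℕ in atTop,
      ({t : ℕ | t ∈ s N ∧ ∃ W : ℕ, 1 ≤ W ∧ (W : ℤ) = v t ∧ ¬ GoodN n W}.ncard : ℝ) ≤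
        (badN n + δ) * (s N).card := by
  classical
  have hs3 := three_lt hn
  by_cases hsq : IsSquare n
  · have e : badN n = 0 := by
      unfold badN
      rw [if_pos hsq]
    rw [e, zero_add]
    exact Eventually.of_forall fun N =>
      count_zero (bad := fun m => ¬ GoodN n m) (fun m _ hbad => hbad (good_sq hn hsq m)) hδ.le N
  · have hirr : Irrational (√(n : ℝ))⁻¹ := (irrational_sqrt_natCast_iff.2 hsq).inv
    obtain ⟨g1, g2, g3⟩ := win_len hn
    have e : badN n = loW n / 2 - (-(upW n / 2)) := by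
      unfold badN loW upW
      rw [if_neg hsq]
      ring
    rw [e]
    exact count_seq h hirr (alg_inv_sqrt (by omega)) ((√(n : ℝ) - 3) / 2) (by linarith)
      (bad := fun m => ¬ GoodN n m) (fun m _ hbad => window_near hn hbad) hδ

/-- **one number of points, sequences of multiplicities** -/
theorem one_seq {n : ℕ} (hn : 10 ≤ n) {s : ℕ → Finset ℕ} {v : ℕ → ℤ} (h : AlgSmall s v)
    {δ : ℝ} (hδ : 0 < δ) : ∀ᶠ N : ℕ in atTop,
      ({t : ℕ | t ∈ s N ∧ ∃ m : ℕ, 1 ≤ m ∧ (m : ℤ) = v t ∧ ¬ Ex n m}.ncard : ℝ) ≤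
        (badU n + δ) * (s N).card := by
  classical
  have hs3 := three_lt hn
  by_cases hC : 37 ≤ n ∨ n = 13 ∨ n = 21 ∨ IsSquare n
  · have e : badU n = 0 := by
      unfold badU
      rw [if_pos hC]
    rw [e, zero_add]
    refine Eventually.of_forall fun N =>
      count_zero (bad := fun m => ¬ Ex n m) (fun m hm hbad => ?_) hδ.le N
    obtain ⟨d, hd⟩ := open_of hn hm hbad
    exact hd.1 hC
  · have hsq : ¬ IsSquare n := fun h0 => hC (Or.inr (Or.inr (Or.inr h0)))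
    have hirr : Irrational √(n : ℝ) := irrational_sqrt_natCast_iff.2 hsq
    have halg : IsAlgebraic ℤ √(n : ℝ) := (sqrt_int n).isAlgebraic
    by_cases h11 : n = 11 ∨ n = 15
    · have e : badU n = 0 - (-((√(n : ℝ) - 3) / 6)) := by
        unfold badU
        rw [if_neg hC, if_pos h11]
        ring
      rw [e]
      have hirr3 : Irrational (√(n : ℝ) / 3) := by
        have := hirr.div_natCast (m := 3) (by norm_num)
        simpa using this
      have halg3 : IsAlgebraic ℤ (√(n : ℝ) / 3) := by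
        refine ⟨Polynomial.C 9 * Polynomial.X ^ 2 - Polynomial.C (n : ℤ), ?_, ?_⟩
        · intro h0
          have h1 := congrArg (fun Q : Polynomial ℤ => Q.coeff 2) h0
          rw [Polynomial.coeff_sub, Polynomial.coeff_C_mul, Polynomial.coeff_X_pow,
            Polynomial.coeff_C] at h1
          norm_num at h1
        · have h1 : (√(n : ℝ)) ^ 2 = n := Real.sq_sqrt (Nat.cast_nonneg n)
          simp only [map_sub, map_mul, map_pow, Polynomial.aeval_X, map_natCast, map_ofNat]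
          rw [div_pow, h1]
          norm_num
          ring
      refine count_seq h hirr3 halg3 0 (by linarith) (bad := fun m => ¬ Ex n m)
        (fun m hm hbad => ?_) hδ
      obtain ⟨d, -, h1, h2, h3⟩ := open_of hn hm hbad
      obtain ⟨⟨z, rfl⟩, h4, h5⟩ := h3 h11
      push_cast at h4 h5
      refine ⟨z, ?_, ?_⟩
      · push_cast
        linarith
      · push_cast
        linarith
    · obtain ⟨g1, g2⟩ := win_nonneg hn
      have e : badU n = min (√(n : ℝ) - 3) (2 / 3 + 9 / (4 * √(n : ℝ))) / 2 -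
          (-(min (√(n : ℝ) - 3) (2 / 3 + 1 / (4 * √(n : ℝ))) / 2)) := by
        unfold badU
        rw [if_neg hC, if_neg h11]
        ring
      rw [e]
      refine count_seq h hirr halg ((√(n : ℝ) - 3) / 2) (by linarith)
        (bad := fun m => ¬ Ex n m)
        (fun m hm hbad => ?_) hδ
      obtain ⟨d, -, h1, h2, -⟩ := open_of hn hm hbad
      refine ⟨d, ?_, ?_⟩
      · push_cast
        linarith
      · push_cast
        linarith

/-! ## Sequences -/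

theorem algSmall_poly {Q : Polynomial ℤ} (hQ : 1 ≤ Q.natDegree) :
    AlgSmall (fun N => Ioc N (2 * N)) (fun n => Q.eval (n : ℤ)) :=
  fun _ hθ _ => smallTo_poly hQ hθ

theorem algSmall_primes {d b : ℕ} (hd : 0 < d) (hb : b.Coprime d) :
    AlgSmall (clPrimes d b) (fun n => (n : ℤ)) :=
  fun _ hθ ha => smallTo_class hd hb hθ ha

/-- long intervals -/
theorem algSmall_int {M K : ℕ → ℕ} (hK : Tendsto K atTop atTop) :
    AlgSmall (fun j => Ioc (M j) (M j + K j)) (fun n => (n : ℤ)) := by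
  intro θ hθ _ ε hε
  have hβ : ∀ k : ℤ, θ ≠ k := fun k hk => hθ ⟨k, by rw [hk]; simp⟩
  have h0 : 0 < ‖e θ - 1‖ := norm_pos_iff.2 (e_ne_one hβ)
  have h1 := (tendsto_natCast_atTop_atTop.comp hK).eventually_ge_atTop (2 / ‖e θ - 1‖ / ε)
  filter_upwards [h1] with j hj
  simp only [Function.comp_apply] at hj
  rw [Nat.card_Ioc, show M j + K j - M j = K j by omega]
  have e1 : ∑ n ∈ Ioc (M j) (M j + K j), e (θ * ((n : ℤ) : ℝ)) =
      ∑ i ∈ range (K j), e (θ * (M j + 1) + θ * i) := by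
    have e2 : Ioc (M j) (M j + K j) = Ico (M j + 1) (M j + 1 + K j) := by
      ext n
      rw [Finset.mem_Ioc, Finset.mem_Ico]
      omega
    rw [e2, Finset.sum_Ico_eq_sum_range, Nat.add_sub_cancel_left]
    refine sum_congr rfl fun i _ => ?_
    congr 1
    push_cast
    ring
  rw [e1]
  refine (geo_le hβ _ _).trans ?_
  rw [div_le_iff₀ hε] at hj
  linarith

end Pool.Agent.N141.SG
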