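import Pool.Agent.N141.SG.Seq5

/-! # All long intervals -/

set_option autoImplicit false

namespace Pool.Agent.N141.SG

open Finset Filter

/-- from families of long intervals to all long intervals -/
theorem long_of {p : ℕ → Prop} {c : ℝ}
    (h : ∀ M K : ℕ → ℕ, Tendsto K atTop atTop → ∀ᶠ j : ℕ in atTop,
      ({n : ℕ | n ∈ Ioc (M j) (M j + K j) ∧ p n}.ncard : ℝ) ≤ c * (Ioc (M j) (M j + K j)).card) :
    ∃ K₀ : ℕ, ∀ K : ℕ, K₀ ≤ K → ∀ M : ℕ,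
      ({n : ℕ | n ∈ Ioc M (M + K) ∧ p n}.ncard : ℝ) ≤ c * K := by
  by_contra hcon
  push Not at hcon
  choose Kf hK Mf hM using hcon
  have h1 := h Mf Kf (tendsto_atTop_mono hK tendsto_id)
  obtain ⟨j, hj⟩ := h1.exists
  have h2 := hM j
  rw [Nat.card_Ioc, show Mf j + Kf j - Mf j = Kf j by omega] at hj
  linarith

/-- near-uniform vectors: the bad sums in a long interval -/
theorem near_long {n : ℕ} (hn : 10 ≤ n) {δ : ℝ} (hδ : 0 < δ) : ∃ K₀ : ℕ, ∀ K : ℕ, K₀ ≤ K →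
    ∀ M : ℕ, ({W : ℕ | W ∈ Ioc M (M + K) ∧ ¬ GoodN n W}.ncard : ℝ) ≤ (badN n + δ) * K := by
  apply long_of
  intro M K hK
  filter_upwards [near_seq hn (algSmall_int (M := M) hK) hδ] with j hj
  refine le_trans ?_ hj
  have hsub : {W : ℕ | W ∈ Ioc (M j) (M j + K j) ∧ ¬ GoodN n W} ⊆
      {t : ℕ | t ∈ Ioc (M j) (M j + K j) ∧ ∃ W : ℕ, 1 ≤ W ∧ (W : ℤ) = (t : ℤ) ∧ ¬ GoodN n W} := by
    rintro W ⟨hW, hb⟩
    refine ⟨hW, W, ?_, rfl, hb⟩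
    have := (Finset.mem_Ioc.1 hW).1
    omega
  exact_mod_cast Set.ncard_le_ncard hsub
    ((Finset.finite_toSet (Ioc (M j) (M j + K j))).subset fun n hn => hn.1)

/-- one number of points: the bad multiplicities in a long interval -/
theorem one_long {n : ℕ} (hn : 10 ≤ n) {δ : ℝ} (hδ : 0 < δ) : ∃ K₀ : ℕ, ∀ K : ℕ, K₀ ≤ K →
    ∀ M : ℕ, ({m : ℕ | m ∈ Ioc M (M + K) ∧ ¬ Ex n m}.ncard : ℝ) ≤ (badU n + δ) * K := by
  apply long_of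
  intro M K hK
  filter_upwards [one_seq hn (algSmall_int (M := M) hK) hδ] with j hj
  refine le_trans ?_ hj
  have hsub : {m : ℕ | m ∈ Ioc (M j) (M j + K j) ∧ ¬ Ex n m} ⊆
      {t : ℕ | t ∈ Ioc (M j) (M j + K j) ∧ ∃ m : ℕ, 1 ≤ m ∧ (m : ℤ) = (t : ℤ) ∧ ¬ Ex n m} := by
    rintro W ⟨hW, hb⟩
    refine ⟨hW, W, ?_, rfl, hb⟩
    have := (Finset.mem_Ioc.1 hW).1
    omega
  exact_mod_cast Set.ncard_le_ncard hsub
    ((Finset.finite_toSet (Ioc (M j) (M j + K j))).subset fun n hn => hn.1)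

/-- near-uniform vectors: polynomial sums -/
theorem near_poly {n : ℕ} (hn : 10 ≤ n) {Q : Polynomial ℤ} (hQ : 1 ≤ Q.natDegree)
    (hl : 0 < Q.leadingCoeff) {δ : ℝ} (hδ : 0 < δ) : ∀ᶠ N : ℕ in atTop,
      ({t : ℕ | t ∈ Ioc N (2 * N) ∧ ¬ ∃ W : ℕ, 1 ≤ W ∧ (W : ℤ) = Q.eval (t : ℤ) ∧
        GoodN n W}.ncard : ℝ) ≤ (badN n + δ) * N := by
  filter_upwards [near_seq hn (algSmall_poly hQ) hδ, poly_large hQ hl] with N hN hN'
  rw [Nat.card_Ioc, show 2 * N - N = N by omega] at hN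
  refine le_trans ?_ hN
  have hsub : {t : ℕ | t ∈ Ioc N (2 * N) ∧ ¬ ∃ W : ℕ, 1 ≤ W ∧ (W : ℤ) = Q.eval (t : ℤ) ∧
        GoodN n W} ⊆ {t : ℕ | t ∈ Ioc N (2 * N) ∧ ∃ W : ℕ, 1 ≤ W ∧ (W : ℤ) = Q.eval (t : ℤ) ∧
          ¬ GoodN n W} := by
    rintro t ⟨ht, hb⟩
    have h1 := hN' t ht
    have h2 : ((Q.eval (t : ℤ)).toNat : ℤ) = Q.eval (t : ℤ) := Int.toNat_of_nonneg (by omega)
    refine ⟨ht, (Q.eval (t : ℤ)).toNat, by omega, h2, fun h3 => hb ⟨_, by omega, h2, h3⟩⟩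
  exact_mod_cast Set.ncard_le_ncard hsub
    ((Finset.finite_toSet (Ioc N (2 * N))).subset fun n hn => hn.1)

/-- near-uniform vectors: prime sums -/
theorem near_primes {n : ℕ} (hn : 10 ≤ n) {d b : ℕ} (hd : 0 < d) (hb : b.Coprime d) {δ : ℝ}
    (hδ : 0 < δ) : ∀ᶠ N : ℕ in atTop,
      ({p : ℕ | p ∈ clPrimes d b N ∧ ¬ GoodN n p}.ncard : ℝ) ≤
        (badN n + δ) * (clPrimes d b N).card := by
  filter_upwards [near_seq hn (algSmall_primes hd hb) hδ] with N hN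
  refine le_trans ?_ hN
  have hsub : {p : ℕ | p ∈ clPrimes d b N ∧ ¬ GoodN n p} ⊆
      {t : ℕ | t ∈ clPrimes d b N ∧ ∃ W : ℕ, 1 ≤ W ∧ (W : ℤ) = (t : ℤ) ∧ ¬ GoodN n W} := by
    rintro W ⟨hW, hb⟩
    refine ⟨hW, W, ?_, rfl, hb⟩
    have := (Finset.mem_Ioc.1 (Finset.mem_filter.1 (Finset.mem_filter.1 hW).1).1).1
    omega
  exact_mod_cast Set.ncard_le_ncard hsub
    ((Finset.finite_toSet (clPrimes d b N)).subset fun n hn => hn.1)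

/-- one number of points: prime multiplicities -/
theorem one_primes {n : ℕ} (hn : 10 ≤ n) {d b : ℕ} (hd : 0 < d) (hb : b.Coprime d) {δ : ℝ}
    (hδ : 0 < δ) : ∀ᶠ N : ℕ in atTop,
      ({p : ℕ | p ∈ clPrimes d b N ∧ ¬ Ex n p}.ncard : ℝ) ≤
        (badU n + δ) * (clPrimes d b N).card := by
  filter_upwards [one_seq hn (algSmall_primes hd hb) hδ] with N hN
  refine le_trans ?_ hN
  have hsub : {p : ℕ | p ∈ clPrimes d b N ∧ ¬ Ex n p} ⊆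
      {t : ℕ | t ∈ clPrimes d b N ∧ ∃ W : ℕ, 1 ≤ W ∧ (W : ℤ) = (t : ℤ) ∧ ¬ Ex n W} := by
    rintro W ⟨hW, hb⟩
    refine ⟨hW, W, ?_, rfl, hb⟩
    have := (Finset.mem_Ioc.1 (Finset.mem_filter.1 (Finset.mem_filter.1 hW).1).1).1
    omega
  exact_mod_cast Set.ncard_le_ncard hsub
    ((Finset.finite_toSet (clPrimes d b N)).subset fun n hn => hn.1)

/-- one number of points: polynomial multiplicities -/
theorem one_poly {n : ℕ} (hn : 10 ≤ n) {Q : Polynomial ℤ} (hQ : 1 ≤ Q.natDegree)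
    (hl : 0 < Q.leadingCoeff) {δ : ℝ} (hδ : 0 < δ) : ∀ᶠ N : ℕ in atTop,
      ({t : ℕ | t ∈ Ioc N (2 * N) ∧ ¬ ∃ m : ℕ, 1 ≤ m ∧ (m : ℤ) = Q.eval (t : ℤ) ∧
        Ex n m}.ncard : ℝ) ≤ (badU n + δ) * N := by
  filter_upwards [one_seq hn (algSmall_poly hQ) hδ, poly_large hQ hl] with N hN hN'
  rw [Nat.card_Ioc, show 2 * N - N = N by omega] at hN
  refine le_trans ?_ hN
  have hsub : {t : ℕ | t ∈ Ioc N (2 * N) ∧ ¬ ∃ m : ℕ, 1 ≤ m ∧ (m : ℤ) = Q.eval (t : ℤ) ∧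
        Ex n m} ⊆ {t : ℕ | t ∈ Ioc N (2 * N) ∧ ∃ m : ℕ, 1 ≤ m ∧ (m : ℤ) = Q.eval (t : ℤ) ∧
          ¬ Ex n m} := by
    rintro t ⟨ht, hb⟩
    have h1 := hN' t ht
    have h2 : ((Q.eval (t : ℤ)).toNat : ℤ) = Q.eval (t : ℤ) := Int.toNat_of_nonneg (by omega)
    refine ⟨ht, (Q.eval (t : ℤ)).toNat, by omega, h2, fun h3 => hb ⟨_, by omega, h2, h3⟩⟩
  exact_mod_cast Set.ncard_le_ncard hsub
    ((Finset.finite_toSet (Ioc N (2 * N))).subset fun n hn => hn.1)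

end Pool.Agent.N141.SG
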