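import Pool.Agent.N141.SG.Seq6

/-! # All numbers of points at once, in every long interval -/

set_option autoImplicit false

namespace Pool.Agent.N141.SG

open Finset Filter

/-- **every long interval** -/
theorem tgt_long : ∃ K₀ : ℕ, ∀ K : ℕ, K₀ ≤ K → ∀ M : ℕ,
    1 / 10000 ^ 22 * (K : ℝ) ≤ ({m : ℕ | m ∈ Ioc M (M + K) ∧ Tgt ((m : ℕ) : ℤ)}.ncard : ℝ) := by
  by_contra hcon
  push Not at hcon
  choose Kf hK Mf hM using hcon
  have h1 := tgt_of_freq (s := fun j => Ioc (Mf j) (Mf j + Kf j)) (v := fun n => (n : ℤ))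
    (fun θ hθ => algSmall_int (M := Mf) (tendsto_atTop_mono hK tendsto_id) θ hθ.1
      hθ.2.isAlgebraic)
  obtain ⟨j, hj⟩ := h1.exists
  have h2 := hM j
  rw [Nat.card_Ioc, show Mf j + Kf j - Mf j = Kf j by omega] at hj
  linarith

end Pool.Agent.N141.SG
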